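import Mathlib
import Pool.Agent.Work.MP_787500_nt.QF.FDefs
import Pool.Agent.Work.MP_787500_nt.QW.FDefs

/-!
Parity of Greenberg Selmer groups: definitions used in the statement of the theorem for a prime 2 that does not split.
-/

set_option autoImplicit false

namespace Pool.Agent.Work.MP_787500_nt.Parity

open Matrix NumberField

section group

variable {G : Type*} [Group G] [TopologicalSpace G] {E : Type*} [NormedField E] {n : ℕ}

/-- the vectors `v` such that `ρ g v - v` is in `W` for all `g` -/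
def fixedModulo {S : Type*} (ρ : S → Matrix (Fin n) (Fin n) E) (W : Submodule E (Fin n → E)) :
    Submodule E (Fin n → E) where
  carrier := {v | ∀ g, ρ g *ᵥ v - v ∈ W}
  add_mem' := fun {v w} hv hw g => by
    have h : ρ g *ᵥ (v + w) - (v + w) = (ρ g *ᵥ v - v) + (ρ g *ᵥ w - w) := by
      rw [mulVec_add]
      abel
    rw [h]
    exact W.add_mem (hv g) (hw g)
  zero_mem' := fun g => by
    rw [mulVec_zero, sub_zero]
    exact W.zero_mem
  smul_mem' := fun a v hv g => by
    rw [mulVec_smul, ← smul_sub]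
    exact W.smul_mem a (hv g)

/-- Greenberg's Selmer group, as a space of cocycles: the continuous cocycles of `G` that are coboundaries on the
subgroups in `N` and coboundaries modulo `W` on `D` -/
def selmerGreenberg (N : Set (Subgroup G)) (ρ : G →* Matrix (Fin n) (Fin n) E) (D : Subgroup G)
    (W : Submodule E (Fin n → E)) : Submodule E (G → Fin n → E) where
  carrier := {x | IsCocycle ρ x ∧ (∀ I ∈ N, ∃ v, ∀ σ ∈ I, x σ = ρ σ *ᵥ v - v) ∧
    ∃ v, ∀ σ ∈ D, x σ - (ρ σ *ᵥ v - v) ∈ W}
  add_mem' := by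
    rintro x y ⟨⟨h1, h1'⟩, h2, v, h3⟩ ⟨⟨k1, k1'⟩, k2, w, k3⟩
    refine ⟨⟨h1.add k1, fun s t => ?_⟩, fun I hI => ?_, v + w, fun σ hσ => ?_⟩
    · rw [Pi.add_apply, Pi.add_apply, Pi.add_apply, h1', k1', mulVec_add]
      abel
    · obtain ⟨v, hv⟩ := h2 I hI
      obtain ⟨w, hw⟩ := k2 I hI
      refine ⟨v + w, fun σ hσ => ?_⟩
      rw [Pi.add_apply, hv σ hσ, hw σ hσ, mulVec_add]
      abel
    · have h : (x + y) σ - (ρ σ *ᵥ (v + w) - (v + w)) =
          (x σ - (ρ σ *ᵥ v - v)) + (y σ - (ρ σ *ᵥ w - w)) := by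
        rw [Pi.add_apply, mulVec_add]
        abel
      rw [h]
      exact W.add_mem (h3 σ hσ) (k3 σ hσ)
  zero_mem' := ⟨⟨continuous_const, fun s t => by simp⟩, fun I _ => ⟨0, fun σ _ => by simp⟩, 0,
    fun σ _ => by simp⟩
  smul_mem' := by
    rintro a x ⟨⟨h1, h1'⟩, h2, v, h3⟩
    refine ⟨⟨continuous_const.smul h1, fun s t => ?_⟩, fun I hI => ?_, a • v, fun σ hσ => ?_⟩
    · rw [Pi.smul_apply, Pi.smul_apply, Pi.smul_apply, h1', mulVec_smul, smul_add]
    · obtain ⟨v, hv⟩ := h2 I hI
      refine ⟨a • v, fun σ hσ => ?_⟩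
      rw [Pi.smul_apply, hv σ hσ, mulVec_smul, smul_sub]
    · have h : (a • x) σ - (ρ σ *ᵥ (a • v) - a • v) = a • (x σ - (ρ σ *ᵥ v - v)) := by
        rw [Pi.smul_apply, mulVec_smul]
        module
      rw [h]
      exact W.smul_mem a (h3 σ hσ)

/-- Greenberg's Selmer group is finite dimensional, it contains the coboundaries, and its dimension modulo the
coboundaries plus the dimension of the space of vectors fixed by `G` is congruent modulo 2 to `n / 2` plus the
dimension of the space of vectors of the quotient by `W` fixed by `D` plus `a`. -/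
def ParityGreenberg (N : Set (Subgroup G)) (ρ : G →* Matrix (Fin n) (Fin n) E) (D : Subgroup G)
    (W : Submodule E (Fin n → E)) (a : ℕ) : Prop :=
  FiniteDimensional E (selmerGreenberg N ρ D W) ∧
    coboundaries ρ ≤ selmerGreenberg N ρ D W ∧
    dimModulo (selmerGreenberg N ρ D W) (coboundaries ρ) +
        Module.finrank E (fixedBy (fun σ : G => ρ σ)) ≡
      n / 2 + (Module.finrank E (fixedModulo (fun σ : D => ρ σ) W) - Module.finrank E W) + a [MOD 2]

end group

end Pool.Agent.Work.MP_787500_nt.Parity
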