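import Mathlib
import Pool.Agent.Work.MP_787500_nt.QW.Sys
import Pool.Agent.Work.MP_787500_nt.QP.Pl

/-!
# An arbitrary imaginary quadratic field over the rational numbers

`ArX`: the arithmetic situation, in terms of the groups only: `iK K` is the absolute Galois group of `K`, of index two
in the group of all automorphisms, `c` is a complex conjugation, `T` is a finite set of odd primes that contains all
the odd primes that ramify in `K`; the place 2 is arbitrary.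
-/

set_option autoImplicit false
set_option linter.unusedSectionVars false

namespace Pool.Agent.Work.MP_787500_nt.QX

open Matrix NumberField
open Pool.Agent.Work.MP_787500_nt.PA (homs)
open Pool.Agent.Work.MP_787500_nt.GP (A0 OE bil Lat inT stabD cupE mem_stabD)
open Pool.Agent.Work.MP_787500_nt.KR (FSys IsChar ZV zV LocRep IsBig fullC fullD fullK fullQ big Opn PerpV
  perpSub two Sm1)
open Pool.Agent.Work.MP_787500_nt.PA (toE cyc)
open Pool.Agent.Work.MP_787500_nt.HP (IsP inr stb cyQ OpnQ emb)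
open Pool.Agent.Work.MP_787500_nt.KS (iK ep ep_zero ep_ι res_stb)
open Pool.Agent.Work.MP_787500_nt.QS (Two)
open Pool.Agent.Work.MP_787500_nt.QW (sysQ comap_fullK comap_big)
open Pool.Agent.Work.MP_787500_nt.QV (ind rho2 N1e)
open Pool.Agent.Work.MP_787500_nt.GA (cj cj_prime inr_cj two_mem_cj nat_mem_cj)

universe u w

variable {K : Type u} [Field K] [NumberField K]
  {c : AlgebraicClosure K ≃+* AlgebraicClosure K} {κ : AbsGal K →* AbsGal K} {T : Finset ℕ}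
  {P : ℕ → Ideal (𝓞 (AlgebraicClosure K))} {N₀ : Subgroup (AbsGal K)}

/-- THE ARITHMETIC SITUATION. -/
structure ArX (c : AlgebraicClosure K ≃+* AlgebraicClosure K) (κ : AbsGal K →* AbsGal K)
    (T : Finset ℕ) (P : ℕ → Ideal (𝓞 (AlgebraicClosure K))) (N₀ : Subgroup (AbsGal K)) : Prop where
  two : Two (iK K) c κ
  unr : (fullQ (AlgebraicClosure K) (T : Set ℕ)).mem (iK K).range
  hP : IsP T P
  nor : N₀.Normal
  opn : IsOpen (N₀ : Set (AbsGal K))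
  kN : ∀ g ∈ N₀, κ g ∈ N₀
  NI : ∀ σ ∈ inT K T, σ ∈ N₀
  ram : ∀ l ∈ T, inr (P l) ≤ (iK K).range ∨ ∀ τ ∈ inr (P l),
    (∀ x : AlgebraicClosure K, x ^ 2 = (l : AlgebraicClosure K) → τ x = -x) → τ ∉ (iK K).range

theorem sq_c (X : Two (iK K) c κ) (x : AlgebraicClosure K) : c (c x) = x := by
  have h := congrArg (fun g : AlgebraicClosure K ≃+* AlgebraicClosure K => g x) X.cc
  exact h

/-- a complex conjugation, without reference to the generator of `K` -/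
theorem conj0 (X : Two (iK K) c κ) : PA.IsConj (0 : K) c := ⟨sq_c X, by
  rw [map_zero, map_zero, neg_zero]⟩

theorem kap_c (X : Two (iK K) c κ) (σ : AbsGal K) (x : AlgebraicClosure K) : κ σ x = c (σ (c x)) := by
  have h := congrArg (fun g : AlgebraicClosure K ≃+* AlgebraicClosure K => g x) (X.kap σ)
  exact h

theorem kap_cont (X : Two (iK K) c κ) : Continuous κ := PA.kappa_continuous (sq_c X) (kap_c X)

theorem ne_c (X : Two (iK K) c κ) : ∃ x, c x ≠ x := by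
  by_contra h
  push Not at h
  refine X.nc 1 ?_
  rw [map_one]
  exact RingEquiv.ext fun x => (h x).symm

theorem chic (X : Two (iK K) c κ) : cyQ c = -1 := HP.cyQ_conj (sq_c X) (ne_c X)

theorem index_range (X : Two (iK K) c κ) : (iK K).range.index = 2 := by
  rw [Subgroup.index_eq_two_iff]
  refine ⟨c, fun b => ?_⟩
  have h1 : ∀ g, iK K g * c ∉ (iK K).range := by
    rintro g ⟨m, hm⟩
    exact X.out g m hm
  rcases X.cases b with ⟨g, rfl⟩ | ⟨g, rfl⟩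
  · exact Or.inr ⟨⟨g, rfl⟩, h1 g⟩
  · refine Or.inl ⟨?_, h1 g⟩
    rw [mul_assoc, X.cc, mul_one]
    exact ⟨g, rfl⟩

/-- stable normal subgroups -/
theorem map_normal (X : Two (iK K) c κ) {V : Subgroup (AbsGal K)} (hV : V.Normal)
    (hk : ∀ g ∈ V, κ g ∈ V) : (V.map (iK K)).Normal := by
  refine ⟨?_⟩
  rintro _ ⟨n, hn, rfl⟩ g
  have h1 : ∀ m n : AbsGal K, n ∈ V → iK K m * iK K n * (iK K m)⁻¹ ∈ V.map (iK K) := fun m n hn =>
    ⟨m * n * m⁻¹, hV.conj_mem n hn m, by rw [map_mul, map_mul, map_inv]⟩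
  rcases X.cases g with ⟨m, rfl⟩ | ⟨m, rfl⟩
  · exact h1 m n hn
  · have e1 : iK K m * c * iK K n * (iK K m * c)⁻¹ = iK K m * iK K (κ n) * (iK K m)⁻¹ := by
      rw [X.kap]
      have hci : c⁻¹ = c := inv_eq_of_mul_eq_one_left X.cc
      rw [_root_.mul_inv_rev, hci]
      group
    rw [e1]
    exact h1 m _ (hk n hn)

/-- The image of a member of the system over `K` contains a member of the system over the rational
numbers. -/
theorem push (X : Two (iK K) c κ) (unr : (fullQ (AlgebraicClosure K) (T : Set ℕ)).mem (iK K).range)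
    {W₁ : Subgroup (AbsGal K)} (hW : (fullK (K := K) T).mem W₁) :
    ∃ W, (fullQ (AlgebraicClosure K) (T : Set ℕ)).mem W ∧ ∀ w ∈ W, ∃ n ∈ W₁, iK K n = w := by
  classical
  obtain ⟨⟨⟨s₀, hs₀⟩, -, -⟩, hin₀⟩ := unr
  have hn := (fullK (K := K) T).normal hW
  obtain ⟨-, hidx, ⟨s₁, hs₁⟩, hin⟩ := ((GA.emdK (RingEquiv.refl (AlgebraicClosure K)) T).sys W₁).1 hW
  have hmap : ∀ w, w ∈ (W₁ ⊓ W₁.comap κ).map (iK K) ↔ ∃ n, n ∈ W₁ ∧ κ n ∈ W₁ ∧ iK K n = w := by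
    intro w
    constructor
    · rintro ⟨n, ⟨h1, h2⟩, rfl⟩
      exact ⟨n, h1, h2, rfl⟩
    · rintro ⟨n, h1, h2, rfl⟩
      exact ⟨n, ⟨h1, h2⟩, rfl⟩
  have hnor : ((W₁ ⊓ W₁.comap κ).map (iK K)).Normal :=
    map_normal X inferInstance fun g hg => ⟨hg.2, by
      show κ (κ g) ∈ W₁
      rw [X.kk]
      exact hg.1⟩
  refine ⟨(W₁ ⊓ W₁.comap κ).map (iK K), ⟨⟨⟨s₁ ∪ s₁.image c ∪ s₀, fun g hg => ?_⟩, hnor, ?_⟩,
    fun Q hQ h2 hTD g hg => ?_⟩, fun w hw => ?_⟩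
  · obtain ⟨n, rfl⟩ := hs₀ g fun x hx => hg x (Finset.mem_union_right _ hx)
    rw [hmap]
    refine ⟨n, hs₁ n fun x hx => hg x (Finset.mem_union_left _ (Finset.mem_union_left _ hx)),
      hs₁ _ fun x hx => ?_, rfl⟩
    show iK K (κ n) x = x
    rw [X.kap]
    show c (iK K n (c x)) = x
    rw [hg (c x) (Finset.mem_union_left _ (Finset.mem_union_right _
      (Finset.mem_image_of_mem c hx))), sq_c X]
  · rw [Subgroup.index_map_of_injective _ X.inj, index_range X]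
    have h1 : (W₁.comap κ).index ≠ 0 := by
      have h2 : (W₁.comap κ).index ∣ W₁.index := by
        rw [Subgroup.index_comap]
        exact Subgroup.relIndex_dvd_index_of_normal _ _
      exact fun h0 => hidx (Nat.eq_zero_of_zero_dvd (h0 ▸ h2))
    exact mul_ne_zero (Subgroup.index_inf_ne_zero hidx h1) two_ne_zero
  · have hT : ∀ l ∈ T, (l : 𝓞 (AlgebraicClosure K)) ∉ Q := fun l hl => hTD l (by
      rw [Finset.mem_coe]
      exact hl)
    obtain ⟨n, rfl⟩ := hin₀ Q hQ h2 hTD hg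
    rw [hmap]
    refine ⟨n, hin Q hQ h2 hT n hg, hin (cj c Q) (cj_prime hQ) (fun h => h2 (two_mem_cj.1 h))
      (fun l hl h => hT l hl ((nat_mem_cj l).1 h)) (κ n) ?_, rfl⟩
    show iK K (κ n) ∈ inr (cj c Q)
    rw [inr_cj, X.kap]
    have e : c⁻¹ * (c * iK K n * c) * c = iK K n * (c * c) := by group
    rw [e, X.cc, mul_one]
    exact hg
  · obtain ⟨n, h1, -, h3⟩ := (hmap w).1 hw
    exact ⟨n, h1, h3⟩

/-- the character of `K` -/
theorem ep_homs (X : Two (iK K) c κ) (unr : (fullQ (AlgebraicClosure K) (T : Set ℕ)).mem (iK K).range)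
    (C : Subgroup (AlgebraicClosure K ≃+* AlgebraicClosure K)) :
    (fun d : C => ep (iK K) (d : AlgebraicClosure K ≃+* AlgebraicClosure K)) ∈
      homs (two (fullC C)) (⊤ : Subgroup C) := by
  rw [KS.mem_homs_two]
  refine ⟨⟨_, res_stb unr C, fun w hw => ?_⟩, fun a b => ?_⟩
  · obtain ⟨n, hn⟩ := hw
    exact (ep_zero _).2 ⟨n, hn⟩
  · exact QP.ep_add2 X _ _

/-- the primes over a prime number -/
theorem above_k (X : Two (iK K) c κ) {l : ℕ} (hl : l.Prime)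
    {Q Q' : Ideal (𝓞 (AlgebraicClosure K))} (hQ : Q.IsPrime) (hlQ : (l : 𝓞 (AlgebraicClosure K)) ∈ Q)
    (hQ' : Q'.IsPrime) (hlQ' : (l : 𝓞 (AlgebraicClosure K)) ∈ Q') :
    ∃ g : AbsGal K, (∀ x, x ∈ Q'.inertia (AbsGal K) ↔ g⁻¹ * x * g ∈ Q.inertia (AbsGal K)) ∨
      (∀ x, x ∈ Q'.inertia (AbsGal K) ↔ κ (g⁻¹ * x * g) ∈ Q.inertia (AbsGal K)) := by
  obtain ⟨g, rfl⟩ := GA.exists_cj (HP.alg_closure K) hl hQ hQ' hlQ hlQ'
  rcases X.cases g with ⟨m, rfl⟩ | ⟨m, rfl⟩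
  · refine ⟨m, Or.inl fun x => ?_⟩
    rw [← QW.emb_refl_inr, ← QW.emb_refl_inr, inr_cj, map_mul, map_mul, map_inv]
  · refine ⟨m, Or.inr fun x => ?_⟩
    rw [← QW.emb_refl_inr, ← QW.emb_refl_inr, inr_cj, X.kap, map_mul, map_mul, map_inv]
    have hci : c⁻¹ = c := inv_eq_of_mul_eq_one_left X.cc
    rw [_root_.mul_inv_rev, hci]
    simp only [mul_assoc]

namespace ArX

theorem norQ (A : ArX c κ T P N₀) : (N₀.map (iK K)).Normal := map_normal A.two A.nor A.kN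

theorem mem (A : ArX c κ T P N₀) : (fullK (K := K) T).mem N₀ := ⟨A.nor, A.opn, A.NI⟩

theorem opnQ (A : ArX c κ T P N₀) :
    Opn (fullQ (AlgebraicClosure K) (T : Set ℕ)) (N₀.map (iK K)) := by
  obtain ⟨W, hW, h4⟩ := push A.two A.unr A.mem
  refine ⟨W, hW, fun w hw => ?_⟩
  obtain ⟨n, hn, rfl⟩ := h4 w hw
  exact ⟨n, hn, rfl⟩

theorem memQ (A : ArX c κ T P N₀) : (sysQ T N₀).mem (N₀.map (iK K)) := by
  obtain ⟨W, hW, h1⟩ := A.opnQ
  exact ⟨A.norQ, ⟨W, hW, h1⟩, 0, by rw [pow_zero, Subgroup.relIndex_self]⟩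

theorem ks (A : ArX c κ T P N₀) {W : Subgroup (AbsGal K)}
    (hW : (big (fullK (K := K) T) N₀).mem W) : (big (fullK (K := K) T) N₀).mem (W.comap κ) :=
  QF.kap_big (conj0 A.two) (kap_c A.two) A.kN hW

/-- the members of the system over `K` contain members of the system over the rational numbers -/
theorem up (A : ArX c κ T P N₀) {W : Subgroup (AbsGal K)}
    (hW : (big (fullK (K := K) T) N₀).mem W) :
    ∃ W', (sysQ T N₀).mem W' ∧ ∀ σ ∈ W', ∃ g ∈ W, iK K g = σ := by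
  have hk := A.ks hW
  obtain ⟨hn, ⟨W₁, hW₁, h1⟩, h2⟩ := (big (fullK (K := K) T) N₀).inf hW hk
  obtain ⟨W', hW', h3⟩ := push A.two A.unr hW₁
  refine ⟨(W ⊓ W.comap κ).map (iK K), ⟨map_normal A.two hn fun g hg => ⟨hg.2, ?_⟩,
    ⟨W', hW', fun w hw => ?_⟩, ?_⟩, ?_⟩
  · show κ (κ g) ∈ W
    rw [A.two.kk]
    exact hg.1
  · obtain ⟨n, hn, rfl⟩ := h3 w hw
    exact ⟨n, h1 hn, rfl⟩
  · obtain ⟨k, hk⟩ := h2
    refine ⟨k, ?_⟩
    rw [← hk, ← Subgroup.relIndex_comap, Subgroup.comap_map_eq_self_of_injective (HP.emb_inj _)]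
  · rintro _ ⟨g, hg, rfl⟩
    exact ⟨g, hg.1, rfl⟩

/-- members of the system are contained in the group of `K` -/
theorem dn (A : ArX c κ T P N₀) : ∃ W', (sysQ T N₀).mem W' ∧ ∀ σ ∈ W', ∃ g, iK K g = σ := by
  obtain ⟨W, hW⟩ := (big (fullK (K := K) T) N₀).ex
  obtain ⟨W', hW', h⟩ := A.up hW
  exact ⟨W', hW', fun σ hσ => by
    obtain ⟨g, -, hg⟩ := h σ hσ
    exact ⟨g, hg⟩⟩

theorem esm (A : ArX c κ T P N₀) : Sm1 (sysQ T N₀) (ep (iK K)) := by
  refine ⟨_, A.memQ, fun g w hw => ?_⟩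
  obtain ⟨n, -, rfl⟩ := hw
  rw [QP.ep_add2 A.two, ep_ι, add_zero]

theorem prime (A : ArX c κ T P N₀) (l : T) : (l : ℕ).Prime := A.hP.prime l l.2

theorem odd (A : ArX c κ T P N₀) (l : T) : (l : ℕ) ≠ 2 := A.hP.odd l l.2

theorem isPrime (A : ArX c κ T P N₀) (l : T) : (P l).IsPrime := A.hP.isPrime l (Or.inl l.2)

theorem natMem (A : ArX c κ T P N₀) (l : T) : ((l : ℕ) : 𝓞 (AlgebraicClosure K)) ∈ P l :=
  A.hP.mem l (Or.inl l.2)

theorem isPrime2 (A : ArX c κ T P N₀) : (P 2).IsPrime := A.hP.isPrime 2 (Or.inr rfl)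

theorem two_mem (A : ArX c κ T P N₀) : (2 : 𝓞 (AlgebraicClosure K)) ∈ P 2 := by
  exact_mod_cast A.hP.mem 2 (Or.inr rfl)

theorem two_not (A : ArX c κ T P N₀) (l : T) : (2 : 𝓞 (AlgebraicClosure K)) ∉ P l :=
  KS.two_notMem (A.prime l) (A.odd l) (A.isPrime l) (A.natMem l)

/-- an element of inertia outside of the group of `K`, if the prime ramifies -/
theorem theta (A : ArX c κ T P N₀) {l : T} (h : ¬ inr (P l) ≤ (iK K).range) :
    ∃ θ : AbsGal K, iK K θ * c ∈ inr (P l) := by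
  obtain ⟨g, hg, hn⟩ := Set.not_subset.1 h
  rcases A.two.cases g with ⟨m, rfl⟩ | ⟨m, rfl⟩
  · exact absurd ⟨m, rfl⟩ hn
  · exact ⟨m, hg⟩

end ArX

section cocycles

variable {E : Type*} [NormedField E] [NormedAlgebra ℚ_[2] E] {n : ℕ}

theorem n1e_iff (A : ArX c κ T P N₀) {x : AbsGal K → Fin n → E} :
    N1e (sysQ T N₀) (iK K) x ↔ KP.N1 (big (fullK (K := K) T) N₀) x := by
  constructor
  · intro h ε hε
    obtain ⟨W, hW, h1⟩ := h ε hε
    exact ⟨_, comap_big hW, fun g w hw => h1 g w hw⟩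
  · intro h ε hε
    obtain ⟨W, hW, h1⟩ := h ε hε
    obtain ⟨W', hW', h2⟩ := A.up hW
    refine ⟨W', hW', fun g w hw => h1 g w ?_⟩
    obtain ⟨w', hw', h3⟩ := h2 _ hw
    rwa [HP.emb_inj _ h3] at hw'

variable {ρ : AbsGal K →* Matrix (Fin n) (Fin n) E}

theorem coc_iff [FiniteDimensional ℚ_[2] E] {b : Matrix (Fin n) (Fin n) E} (A : ArX c κ T P N₀)
    (hρ : Gn.ConjDual 2 N₀ (inT K T) (Parity.cyclo E) κ ρ b) {x : AbsGal K → Fin n → E} :
    (N1e (sysQ T N₀) (iK K) x ∧ ∀ s t, x (s * t) = x s + ρ s *ᵥ x t) ↔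
      Parity.IsCocycle ρ x ∧ ∀ σ ∈ inT K T, x σ = 0 := by
  rw [n1e_iff A]
  exact (KR.big_coc (KR.base_K A.nor A.opn A.NI) (KR.isBig_K T N₀)
    ⟨map_one ρ, fun s t => map_mul ρ s t, hρ.cont, fun s hs => hρ.proP s hs⟩
    (fun σ hσ => hρ.unram σ hσ)).symm

/-- THE CONDITION AT A PRIME NUMBER `l`. -/
theorem cob_over (A : ArX c κ T P N₀) {l : ℕ}
    (hl : l ∈ T) {x : AbsGal K → Fin n → E} (hx : ∀ s t, x (s * t) = x s + ρ s *ᵥ x t) :
    (∃ v, ∀ σ ∈ inr (P l), ind (iK K) c κ x σ = rho2 (iK K) c κ (fun g => ρ g) σ *ᵥ v - v) ↔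
      ∀ Q : Ideal (𝓞 (AlgebraicClosure K)), Q.IsPrime → (l : 𝓞 (AlgebraicClosure K)) ∈ Q →
        ∃ v, ∀ σ ∈ Q.inertia (AbsGal K), x σ = ρ σ *ᵥ v - v := by
  have X := A.two
  have hQ0 := A.isPrime ⟨l, hl⟩
  have hm0 := A.natMem ⟨l, hl⟩
  have hκκ : ∀ g, κ (κ g) = g := X.kk
  constructor
  · rintro ⟨v, hv⟩ Q hQ hlQ
    have h1 : ∀ g, g ∈ (P l).inertia (AbsGal K) → x g = ρ g *ᵥ QV.v1 v - QV.v1 v := fun g hg => by
      have h2 := congrArg QV.v1 (hv _ (QW.emb_refl_inr.2 hg))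
      rw [QV.ind_e X, QV.v1_ap, QV.v1_sub, QV.v1_rho X] at h2
      exact h2
    have h2 : ∀ g, g ∈ (P l).inertia (AbsGal K) →
        x (κ g) = ρ (κ g) *ᵥ QV.v2 v - QV.v2 v := fun g hg => by
      have h2 := congrArg QV.v2 (hv _ (QW.emb_refl_inr.2 hg))
      rw [QV.ind_e X, QV.v2_ap, QV.v2_sub, QV.v2_rho X] at h2
      exact h2
    obtain ⟨g, hg | hg⟩ := above_k X (A.prime ⟨l, hl⟩) hQ0 hm0 hQ hlQ
    · exact ⟨_, QW.cob_conj hx (I := Q.inertia (AbsGal K)) (v₀ := QV.v1 v) fun σ hσ =>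
        h1 _ ((hg σ).1 hσ)⟩
    · refine ⟨_, QW.cob_conj hx (I := Q.inertia (AbsGal K)) (v₀ := QV.v2 v) (g := g)
        fun σ hσ => ?_⟩
      have h3 := h2 _ ((hg σ).1 hσ)
      rwa [hκκ] at h3
  · intro h
    obtain ⟨v, hv⟩ := h (P l) hQ0 hm0
    by_cases hle : inr (P l) ≤ (iK K).range
    · obtain ⟨Q', hQ', hlQ', hQQ⟩ : ∃ Q' : Ideal (𝓞 (AlgebraicClosure K)), Q'.IsPrime ∧
          (l : 𝓞 (AlgebraicClosure K)) ∈ Q' ∧
          ∀ σ ∈ (P l).inertia (AbsGal K), κ σ ∈ Q'.inertia (AbsGal K) := by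
        refine ⟨cj c (P l), cj_prime hQ0, (nat_mem_cj l).2 hm0, fun σ hσ => ?_⟩
        rw [← QW.emb_refl_inr, inr_cj, X.kap]
        have e : c⁻¹ * (c * iK K σ * c) * c = iK K σ * (c * c) := by group
        rw [e, X.cc, mul_one]
        exact QW.emb_refl_inr.2 hσ
      obtain ⟨w, hw⟩ := h Q' hQ' hlQ'
      exact (QV.ind_cob X (fun σ hσ => hle hσ) x).2 ⟨⟨v, fun g hg => hv g (QW.emb_refl_inr.1 hg)⟩,
        ⟨w, fun g hg => hw _ (hQQ g (QW.emb_refl_inr.1 hg))⟩⟩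
    · obtain ⟨θ, hθ'⟩ := A.theta (l := ⟨l, hl⟩) hle
      exact (QV.ind_ram X (map_one ρ) (fun s t => map_mul ρ s t) hθ' hx).2
        ⟨v, fun g hg => hv g (QW.emb_refl_inr.1 hg)⟩

end cocycles

end Pool.Agent.Work.MP_787500_nt.QX
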