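import Mathlib
import Pool.Agent.Work.MP_787500_nt.QX.Base
import Pool.Agent.Work.MP_787500_nt.QU.Inst
import Pool.Agent.Work.MP_787500_nt.QL.RamQ
import Pool.Agent.Work.MP_787500_nt.KI.LocM

/-!
# The arithmetic instance for an arbitrary imaginary quadratic field

`InX`: the duality over the rational numbers for infinity, 2 and all the odd primes of a finite set `T`.
`exists_inX`: existence, for a subgroup `N₁` of `N₀`. `InX.locD`: the local hypotheses at all places. `InX.plQ`: the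
places. `InX.ram`, `InX.ramF`, `InX.inf`: the ramified places and infinity.
-/

set_option autoImplicit false
set_option linter.unusedSectionVars false

namespace Pool.Agent.Work.MP_787500_nt.QX

open NumberField
open Pool.Agent.Work.MP_787500_nt.PA (homs)
open Pool.Agent.Work.MP_787500_nt.GP (A0 hf hf_zero hf_inj IsAct TameD tw inT)
open Pool.Agent.Work.MP_787500_nt.KR (FSys Z1 Z2 Sm1 Smooth two big Opn IsChar fullC fullQ fullK Coc Cob LocD
  two_fullC two_fullQ two_le_big)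
open Pool.Agent.Work.MP_787500_nt.HP (IsQ Spl IsP cyQ stb emb inr Alg QDat fsys alg_closure emb_sq inr_neg)
open Pool.Agent.Work.MP_787500_nt.GA (HQ SQ jQ iQ DatQ IsReal invR isReal_inf opn_fullC Inr)
open Pool.Agent.Work.MP_787500_nt.KS (iK ep ep_zero)
open Pool.Agent.Work.MP_787500_nt.RQ (LocF)
open Pool.Agent.Work.MP_787500_nt.QP (RamPl InfPl exists_ramL)
open Pool.Agent.Work.MP_787500_nt.QW (sysQ)
open Pool.Agent.Work.MP_787500_nt.QS (Two)
open Pool.Agent.Work.MP_787500_nt.KI (PlQ)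

universe u v w

variable {K : Type u} [Field K] [NumberField K]
  {c : AlgebraicClosure K ≃+* AlgebraicClosure K} {κ : AbsGal K →* AbsGal K} {T : Finset ℕ}
  {P : ℕ → Ideal (𝓞 (AlgebraicClosure K))} {N₀ : Subgroup (AbsGal K)}

/-- THE ARITHMETIC DATA OVER THE RATIONAL NUMBERS. -/
structure InX (c : AlgebraicClosure K ≃+* AlgebraicClosure K) (κ : AbsGal K →* AbsGal K)
    (T : Finset ℕ) (P : ℕ → Ideal (𝓞 (AlgebraicClosure K))) (N₀ : Subgroup (AbsGal K))
    (iv ivF : ∀ w : Option T, (stb (HP.PP P w) → stb (HP.PP P w) → A0) → A0)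
    (tr : (((AlgebraicClosure K ≃+* AlgebraicClosure K) → (AlgebraicClosure K ≃+* AlgebraicClosure K) →
      (AlgebraicClosure K ≃+* AlgebraicClosure K) → A0) ×
      (∀ i : Option (Option T), HQ c P i → HQ c P i → A0)) →+ A0) : Prop extends
    ArX c κ T P N₀ where
  qdat : QDat c T P iv
  locF : ∀ w, LocF (stb (HP.PP P w)) (iv w) (ivF w)
  glob : QS.HQ.{v} (sysQ T N₀) (SQ c P (N₀.map (iK K))) (jQ c P) cyQ (iQ c P ivF) tr
  gens : ∃ X : Finset (AlgebraicClosure K ≃+* AlgebraicClosure K),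
    ∀ U : Subgroup (AlgebraicClosure K ≃+* AlgebraicClosure K),
      (∃ W, (sysQ T N₀).mem W ∧ W ≤ U) → (∀ g ∈ X, g ∈ U) → U = ⊤

section ex

theorem fullK_mono {T₀ : Finset ℕ} (h : T₀ ⊆ T) {W : Subgroup (AbsGal K)}
    (hW : (fullK (K := K) T₀).mem W) : (fullK (K := K) T).mem W := QU.fullK_mono h hW

theorem fullQ_mono {T₀ : Finset ℕ} (h : T₀ ⊆ T)
    {W : Subgroup (AlgebraicClosure K ≃+* AlgebraicClosure K)}
    (hW : (fullQ (AlgebraicClosure K) (T₀ : Set ℕ)).mem W) :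
    (fullQ (AlgebraicClosure K) (T : Set ℕ)).mem W :=
  ⟨hW.1, fun Q hQ h2 hT => hW.2 Q hQ h2 fun l hl => hT l (h hl)⟩

/-- THE EXISTENCE of the arithmetic data over the rational numbers. -/
theorem exists_inX (X : Two (iK K) c κ) {T₀ : Finset ℕ}
    (unr : (fullQ (AlgebraicClosure K) (T₀ : Set ℕ)).mem (iK K).range)
    (ram : ∀ l ∈ T₀, ∀ Q : Ideal (𝓞 (AlgebraicClosure K)), Q.IsPrime →
      (l : 𝓞 (AlgebraicClosure K)) ∈ Q → inr Q ≤ (iK K).range ∨ ∀ τ ∈ inr Q,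
        (∀ x : AlgebraicClosure K, x ^ 2 = (l : AlgebraicClosure K) → τ x = -x) → τ ∉ (iK K).range)
    (hN : (fullK (K := K) T₀).mem N₀) (kN : ∀ g ∈ N₀, κ g ∈ N₀) :
    ∃ N₁ ≤ N₀, (∀ g ∈ N₁, κ g ∈ N₁) ∧ (fullK (K := K) (insert 7 T₀)).mem N₁ ∧ ∃ T₁ : Finset ℕ,
      (∀ l ∈ T₁, l.Prime ∧ l ≠ 2) ∧
      ∀ T : Finset ℕ, T₀ ⊆ T → T₁ ⊆ T → ∀ P : ℕ → Ideal (𝓞 (AlgebraicClosure K)), IsP T P →
      ∃ (iv ivF : ∀ w : Option T, (stb (HP.PP P w) → stb (HP.PP P w) → A0) → A0),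
        (∀ f, KR.Z2 (RQ.ufull (AlgebraicClosure K) (T : Set ℕ)) (tw cyQ) f →
          ∑ w, ivF w (RQ.rs (stb (HP.PP P w)) f) + (f c c + f 1 1) = 0) ∧
        ∃ tr, InX.{u, v} c κ T P N₁ iv ivF tr := by
  classical
  have halg := alg_closure K
  have hne := ne_c X
  have hcs := sq_c X
  obtain ⟨K', iF, iN, s', α, hB⟩ := HP.exists_base halg (q := 7) (by norm_num) (by norm_num)
  have hK' : IsQ K' 7 s' := ⟨hB.1, hB.2.1, hB.2.2.1.prime.squarefree, by norm_num⟩
  have h7 : ∀ p : ℕ, p.Prime → p ∣ 7 → p ∈ ({7} : Finset ℕ) := fun p hp hd => by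
    rw [Finset.mem_singleton]
    exact (Nat.prime_dvd_prime_iff_eq hp (by norm_num)).1 hd
  have hr : (fullQ (AlgebraicClosure K) (({7} : Finset ℕ) : Set ℕ)).mem (emb α).range :=
    GA.range_mem hK' α h7
  have hidx := GA.range_index hK' α
  have hrn : (emb α).range.Normal := Subgroup.normal_of_index_eq_two hidx
  obtain ⟨N₁, hN₁⟩ : ∃ N₁ : Subgroup (AbsGal K), N₁ = N₀ ⊓ (emb α).range.comap (iK K) := ⟨_, rfl⟩
  have hN₁' : N₁ ≤ N₀ := hN₁ ▸ inf_le_left
  have kN₁ : ∀ g ∈ N₁, κ g ∈ N₁ := by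
    intro g hg
    rw [hN₁] at hg ⊢
    refine ⟨kN g hg.1, ?_⟩
    show iK K (κ g) ∈ (emb α).range
    rw [X.kap]
    have h1 := hrn.conj_mem _ hg.2 c
    have hci : c⁻¹ = c := inv_eq_of_mul_eq_one_left X.cc
    rwa [hci] at h1
  have hmem1 : (fullK (K := K) (insert 7 T₀)).mem N₁ := by
    rw [hN₁]
    refine (fullK (K := K) (insert 7 T₀)).inf (fullK_mono (Finset.subset_insert _ _) hN) ?_
    exact QW.comap_fullK (fullQ_mono (Finset.singleton_subset_iff.2 (Finset.mem_insert_self _ _)) hr)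
  have hNn : N₁.Normal := (fullK (K := K) (insert 7 T₀)).normal hmem1
  have hNQn : (N₁.map (iK K)).Normal := map_normal X hNn kN₁
  have unr1 : (fullQ (AlgebraicClosure K) ((insert 7 T₀ : Finset ℕ) : Set ℕ)).mem (iK K).range :=
    fullQ_mono (Finset.subset_insert _ _) unr
  have hopn : Opn (fullQ (AlgebraicClosure K) ((insert 7 T₀ : Finset ℕ) : Set ℕ))
      (N₁.map (iK K)) := by
    obtain ⟨W, hW, h4⟩ := push X unr1 hmem1
    refine ⟨W, hW, fun w hw => ?_⟩
    obtain ⟨n, hn, rfl⟩ := h4 w hw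
    exact ⟨n, hn, rfl⟩
  obtain ⟨C, hC⟩ := KR.exists_syl hNQn hopn
  have hfC : Finite ((AlgebraicClosure K ≃+* AlgebraicClosure K) ⧸ C) := KR.syl_finite hC
  have := Fintype.ofFinite ((AlgebraicClosure K ≃+* AlgebraicClosure K) ⧸ C)
  obtain ⟨T₁, h1, h2⟩ := GA.exists_datQ halg hcs hne hK' α hC (by
    rintro _ ⟨n, hn, rfl⟩
    have hn' : n ∈ N₁ := hn
    rw [hN₁] at hn'
    exact hn'.2)
  refine ⟨N₁, hN₁', kN₁, hmem1, insert 7 T₁, fun l hl => ?_, fun T hT0 hT1 P hP => ?_⟩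
  · rcases Finset.mem_insert.1 hl with rfl | hl
    · exact ⟨by norm_num, by norm_num⟩
    · exact ⟨(h1 l hl).1, (h1 l hl).2.1⟩
  have h7T : 7 ∈ T := hT1 (Finset.mem_insert_self _ _)
  have hT0' : insert 7 T₀ ⊆ T := Finset.insert_subset h7T hT0
  obtain ⟨iv, ivF, hQ, hF, hrec⟩ := RQ.exists_qdatF halg hcs hne ⟨7, h7T⟩ hP
  have hDat := h2 T hT0' ((Finset.subset_insert _ _).trans hT1)
    (fun p hp hd => by
      rw [(Nat.prime_dvd_prime_iff_eq hp (by norm_num)).1 hd]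
      exact h7T) P hP iv ivF (fun w => hQ.loc w) hF hrec
  obtain ⟨tr, htr⟩ := KR.exists_tr hDat.glob
  have hmemT := fullK_mono hT0' hmem1
  refine ⟨iv, ivF, hrec, tr, ⟨X, fullQ_mono hT0 unr, hP, hNn, hmemT.2.1, kN₁, hmemT.2.2,
    fun l hl => ?_⟩, hQ, hF, QF.hq_datQ.{u, v} halg hcs hne hP (fun w => hQ.loc w) hF hDat htr,
    KR.exists_gens hDat.syl hDat.fin⟩
  have hlp := hP.isPrime l (Or.inl hl)
  have hlm := hP.mem l (Or.inl hl)
  by_cases hl0 : l ∈ T₀
  · exact ram l hl0 (P l) hlp hlm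
  · left
    refine unr.2 (P l) hlp (KS.two_notMem (hP.prime l hl) (hP.odd l hl) hlp hlm) fun p hp hpl => ?_
    have hpT := hT0 hp
    rw [GA.prime_uniq hlp (hP.prime l hl) (hP.prime p hpT) hlm hpl] at hl0
    exact hl0 hp

end ex

variable {iv ivF : ∀ w : Option T, (stb (HP.PP P w) → stb (HP.PP P w) → A0) → A0}
  {tr : (((AlgebraicClosure K ≃+* AlgebraicClosure K) → (AlgebraicClosure K ≃+* AlgebraicClosure K) →
      (AlgebraicClosure K ≃+* AlgebraicClosure K) → A0) ×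
      (∀ i : Option (Option T), HQ c P i → HQ c P i → A0)) →+ A0}

theorem chi (g : AbsGal K) : cyQ (iK K g) = PA.cyc g := HP.cyQ_emb _ g

namespace InX

/-- LOCAL HYPOTHESES AT ALL PLACES. -/
theorem locD (I : InX.{u, v} c κ T P N₀ iv ivF tr) (i : Option (Option T)) :
    LocD.{w} (SQ c P (N₀.map (iK K)) i) (fun d => cyQ (jQ c P i d)) (iQ c P ivF i) := by
  match i with
  | none => exact QU.locD_real (isReal_inf (sq_c I.two) (ne_c I.two) P (N₀.map (iK K)))
  | some w =>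
    obtain ⟨α⟩ := GA.exists_ratEquiv (alg_closure K)
    have hn := I.norQ
    exact KR.locD_of (GA.locB_Q α (GA.PP_prime I.hP w) (GA.PP_ne I.hP w) (I.qdat.loc w) (I.locF w) _)
      inferInstance (opn_fullC I.opnQ _)

/-- the local system at an odd prime is a big system for an open subgroup -/
theorem opnL (I : InX.{u, v} c κ T P N₀ iv ivF tr) (w : Option T) :
    Opn (fullC (stb (HP.PP P w))) ((N₀.map (iK K)).subgroupOf (stb (HP.PP P w))) := opn_fullC I.opnQ _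

/-- the members of the local systems at the places are induced by the global system -/
theorem jsm (I : InX.{u, v} c κ T P N₀ iv ivF tr) (i : Option (Option T))
    (W : Subgroup (AlgebraicClosure K ≃+* AlgebraicClosure K)) (hW : (sysQ T N₀).mem W) :
    ∃ W', (SQ c P (N₀.map (iK K)) i).mem W' ∧ ∀ w ∈ W', jQ c P i w ∈ W :=
  GA.jsmQ c P (N₀.map (iK K)) i W hW

/-- THE PLACES. -/
theorem plQ (I : InX.{u, v} c κ T P N₀ iv ivF tr) (i : Option (Option T)) :
    PlQ.{w} (big (fullK (K := K) T) N₀) (sysQ T N₀) PA.cyc cyQ (iK K) c κ (SQ c P (N₀.map (iK K)) i)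
      (jQ c P i) (iQ c P ivF i) where
  two := I.two
  chi := chi
  chic := chic I.two
  mul := I.glob.glob.char.mul
  up := fun _ hW => I.up hW
  ks := fun _ hW => ⟨_, I.ks hW, fun _ hv => hv⟩
  js := I.jsm i
  loc := I.locD i

/-- THE RAMIFIED PRIMES. -/
theorem ram_pl (I : InX.{u, v} c κ T P N₀ iv ivF tr) {l : T} (hl : ¬ inr (P l) ≤ (iK K).range) :
    RamPl (SQ c P (N₀.map (iK K)) (some (some l))) (jQ c P (some (some l))) (iQ c P ivF (some (some l)))
      cyQ (ep (iK K)) {d : HQ c P (some (some l)) |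
        (d : AlgebraicClosure K ≃+* AlgebraicClosure K) ∈ inr (P l) ∧
        ∃ g, iK K g = (d : AlgebraicClosure K ≃+* AlgebraicClosure K)}
      ((inr (P l)).subgroupOf (stb (P l))) := by
  obtain ⟨a, u, σ, τ, hu, hτ, hττ, hTam, hinv⟩ := I.qdat.tame l
  have hτn : ep (iK K) (τ : AlgebraicClosure K ≃+* AlgebraicClosure K) = 1 := by
    refine if_neg fun h1 => ?_
    exact ((I.ram l l.2).resolve_left hl) τ hτ hττ h1
  obtain ⟨φ, R⟩ := exists_ramL (alg_closure K) (I.prime l) (I.two_not l) (I.isPrime l) (I.natMem l) hTam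
    hτ (ep_homs I.two I.unr (stb (P l))) hτn
  refine ⟨⟨fullC (stb (P l)), (N₀.map (iK K)).subgroupOf (stb (P l)), a, σ, τ, l, φ, u, rfl, R, hu,
    fun f hf' => ?_⟩, fun d => ?_⟩
  · have hf2 : GP.Z2 (two (fullC (stb (P l)))) (tw fun d : stb (P l) =>
        cyQ (d : AlgebraicClosure K ≃+* AlgebraicClosure K)) f := hf'
    rw [KR.two_fullC] at hf2
    exact ((I.locF (some l)).ext f hf2).trans (hinv f)
  · rw [ep_zero]
    rfl

theorem ramF (I : InX.{u, v} c κ T P N₀ iv ivF tr) {l : T} {θ : AbsGal K}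
    (hθ : iK K θ * c ∈ inr (P l)) :
    QL.RamF (iK K) c (SQ c P (N₀.map (iK K)) (some (some l))) (fun d => cyQ (jQ c P (some (some l)) d))
      (jQ c P (some (some l))) {d : HQ c P (some (some l)) |
        (d : AlgebraicClosure K ≃+* AlgebraicClosure K) ∈ inr (P l) ∧
        ∃ g, iK K g = (d : AlgebraicClosure K ≃+* AlgebraicClosure K)} θ
      ((inr (P l)).subgroupOf (stb (P l))) where
  tame := by
    obtain ⟨a, σ, τ, h⟩ := QL.exists_tameQ_big (alg_closure K) (I.prime l) (I.odd l) (I.isPrime l)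
      (I.natMem l) ((N₀.map (iK K)).subgroupOf (stb (P l)))
    exact ⟨a, σ, τ, l, h⟩
  inn := fun d => Iff.rfl
  ex := ⟨⟨iK K θ * c, HP.inr_le_stb (P l) hθ⟩, hθ, rfl⟩

/-- THE PLACE AT INFINITY. -/
theorem inf (I : InX.{u, v} c κ T P N₀ iv ivF tr) :
    InfPl (SQ c P (N₀.map (iK K)) (none : Option (Option T))) (jQ c P none) (iQ c P ivF none) cyQ c
      (∅ : Set (HQ c P (none : Option (Option T)))) (⟨c, Subgroup.mem_zpowers c⟩ : Subgroup.zpowers c) := by
  have hc1 : (⟨c, Subgroup.mem_zpowers c⟩ : Subgroup.zpowers c) ≠ 1 := by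
    intro h
    obtain ⟨x, hx⟩ := ne_c I.two
    exact hx (congrArg (fun g : Subgroup.zpowers c =>
      (g : AlgebraicClosure K ≃+* AlgebraicClosure K) x) h)
  exact ⟨isReal_inf (T := T) (sq_c I.two) (ne_c I.two) P (N₀.map (iK K)), hc1, rfl, rfl,
    fun d hd => absurd hd (Set.notMem_empty d)⟩

end InX

end Pool.Agent.Work.MP_787500_nt.QX
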