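import Mathlib
import Pool.Agent.Work.MP_787500_nt.QX.Inst
import Pool.Agent.Work.MP_787500_nt.QW.Bk

/-!
# The family of local conditions for an arbitrary imaginary quadratic field

* `famX L₂`: the family with an arbitrary condition `L₂` at the place 2.
* `Cnd`: the hypotheses on `L₂`: continuous cocycles, coboundaries, Lagrangian at all levels.
* `mem_selX`: the Selmer space over `K`.
* `famX_zv`, `famX_fd`, `famX_cob`, `famX_lag`: the hypotheses of `QV.parity_E`.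
* `parity_X`: THE PARITY, from the parity at the level one.
-/

set_option autoImplicit false
set_option linter.unusedSectionVars false

namespace Pool.Agent.Work.MP_787500_nt.QX

open Matrix NumberField
open Pool.Agent.Work.MP_787500_nt.GP (A0 OE bil Lat inT stabD cupE EvPow actN lamN MN)
open Pool.Agent.Work.MP_787500_nt.KR (FSys IsChar ZV zV LocRep LocD IsBig fullC fullD fullK fullQ big Opn PerpV
  perpSub)
open Pool.Agent.Work.MP_787500_nt.PA (toE cyc)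
open Pool.Agent.Work.MP_787500_nt.HP (IsQ Spl IsP inr stb cyQ OpnQ)
open Pool.Agent.Work.MP_787500_nt.KS (iK)
open Pool.Agent.Work.MP_787500_nt.QS (Two Lag)
open Pool.Agent.Work.MP_787500_nt.QV (ind rho2 N1e selK selE selNQ spE prE QRep T2 J2 blk beN laN LagV)
open Pool.Agent.Work.MP_787500_nt.QU (urV)
open Pool.Agent.Work.MP_787500_nt.GA (HQ SQ jQ iQ)
open Pool.Agent.Work.MP_787500_nt.QW (sysQ locRep_res res_zv)

universe u w

variable {K : Type u} [Field K] [NumberField K]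
  {c : AlgebraicClosure K ≃+* AlgebraicClosure K} {κ : AbsGal K →* AbsGal K} {T : Finset ℕ}
  {P : ℕ → Ideal (𝓞 (AlgebraicClosure K))} {N₀ : Subgroup (AbsGal K)}
  {E : Type w} [NormedField E] [NormedAlgebra ℚ_[2] E] {n : ℕ}
  {ρ : AbsGal K →* Matrix (Fin n) (Fin n) E} {b : Matrix (Fin n) (Fin n) E}
  {l : OE E} {t : E →ₗ[ℚ_[2]] ℚ_[2]} {L₀ : Submodule (OE E) (Fin n → E)}

/-- THE FAMILY OF LOCAL CONDITIONS. -/
noncomputable def famX (c : AlgebraicClosure K ≃+* AlgebraicClosure K) (κ : AbsGal K →* AbsGal K)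
    (T : Finset ℕ) (P : ℕ → Ideal (𝓞 (AlgebraicClosure K))) (N₀ : Subgroup (AbsGal K))
    (ρ : AbsGal K →* Matrix (Fin n) (Fin n) E)
    (L₂ : Submodule E (stb (P 2) → Fin (n + n) → E)) :
    ∀ i : Option (Option T), Submodule E (HQ c P i → Fin (n + n) → E)
  | none => zV (SQ c P (N₀.map (iK K)) none) (fun d => rho2 (iK K) c κ (fun g => ρ g) (GA.jQ c P none d))
  | some none => L₂
  | some (some l) => urV (SQ c P (N₀.map (iK K)) (some (some l))) ((inr (P l)).subgroupOf (stb (P l)))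
      (fun d => rho2 (iK K) c κ (fun g => ρ g) (GA.jQ c P (some (some l)) d))

/-- the members of the Selmer space over `K` -/
theorem mem_selX [FiniteDimensional ℚ_[2] E] (A : ArX c κ T P N₀)
    (hρ : Gn.ConjDual 2 N₀ (inT K T) (Parity.cyclo E) κ ρ b)
    (L₂ : Submodule E (stb (P 2) → Fin (n + n) → E)) (x : AbsGal K → Fin n → E) :
    x ∈ selK A.two (sysQ T N₀) (GA.jQ c P) (fun g => ρ g) (famX c κ T P N₀ ρ L₂) ↔
      Parity.IsCocycle ρ x ∧ (∀ I ∈ Parity.inertiaOffTwo K, ∃ v, ∀ σ ∈ I, x σ = ρ σ *ᵥ v - v) ∧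
        (fun d : stb (P 2) => ind (iK K) c κ x (d : AlgebraicClosure K ≃+* AlgebraicClosure K)) ∈ L₂ := by
  have X := A.two
  have hcoc := coc_iff A hρ (x := x)
  constructor
  · rintro ⟨h1, h1', hi⟩
    have hx := hcoc.1 ⟨h1, h1'⟩
    refine ⟨hx.1, ?_, hi (some none)⟩
    rintro _ ⟨Q, hQ, hQ2, rfl⟩
    by_cases h4 : ∀ l ∈ T, (l : 𝓞 (AlgebraicClosure K)) ∉ Q
    · refine ⟨0, fun σ hσ => ?_⟩
      rw [mulVec_zero, sub_zero]
      exact hx.2 σ ⟨Q, hQ, hQ2, h4, hσ⟩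
    · push Not at h4
      obtain ⟨l, hl, hlQ⟩ := h4
      obtain ⟨v, hv⟩ := (hi (some (some ⟨l, hl⟩))).2
      exact (cob_over A hl h1').1
        ⟨v, fun σ hσ => hv ⟨σ, HP.inr_le_stb _ hσ⟩ hσ⟩ Q hQ hlQ
  · rintro ⟨h1, hI, hx2⟩
    have hx := hcoc.2 ⟨h1, fun σ hσ => by
      have hσ' := hσ
      obtain ⟨Q, hQ, hQ2, hQT, hσQ⟩ := hσ
      obtain ⟨v, hv⟩ := hI _ ⟨Q, hQ, hQ2, rfl⟩
      rw [hv σ hσQ, hρ.unram σ hσ', one_mulVec, sub_self]⟩
    have hind : ZV (sysQ T N₀) (rho2 (iK K) c κ (fun g => ρ g)) (ind (iK K) c κ x) :=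
      ⟨QV.ind_N1 X A.dn hx.1, QV.ind_coc X hx.2⟩
    refine ⟨hx.1, hx.2, fun i => ?_⟩
    match i with
    | none => exact res_zv hind none
    | some none => exact hx2
    | some (some l) =>
      refine ⟨res_zv hind (some (some l)), ?_⟩
      obtain ⟨v, hv⟩ := (cob_over A (ρ := ρ) l.2 hx.2).2 fun Q hQ hlQ => by
        refine hI _ ⟨Q, hQ, fun h2Q => ?_, rfl⟩
        exact KS.two_notMem (A.prime l) (A.odd l) hQ hlQ h2Q
      exact ⟨v, fun d hd => hv _ hd⟩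

variable [FiniteDimensional ℚ_[2] E]

/-- the representation on the lattice -/
theorem ArX.rep (A : ArX c κ T P N₀)
    (hρ : Gn.ConjDual 2 N₀ (inT K T) (Parity.cyclo E) κ ρ b)
    (hst : ∀ g, ∀ x ∈ L₀, ρ g *ᵥ x ∈ L₀) :
    LocRep (big (fullK (K := K) T) N₀) cyc L₀ b (fun g => ρ g) (fun g => ρ (κ g)) :=
  KR.locRep_glob (KR.base_K A.nor A.opn A.NI) (KR.isBig_K T N₀)
    (fun _ hW => ⟨_, A.ks hW, fun _ hv => hv⟩) hρ hst

/-- the quadratic representation -/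
theorem ArX.qrep (A : ArX c κ T P N₀)
    (hρ : Gn.ConjDual 2 N₀ (inT K T) (Parity.cyclo E) κ ρ b) (hl : Lat b l t L₀)
    (hst : ∀ g, ∀ x ∈ L₀, ρ g *ᵥ x ∈ L₀)
    (hm : ∀ σ τ : AlgebraicClosure K ≃+* AlgebraicClosure K, cyQ (σ * τ) = cyQ σ * cyQ τ) :
    QRep (sysQ T N₀) cyQ l t (T2 L₀) (blk 0 b 0 0) (blk 0 b b 0) (J2 E n)
      (rho2 (iK K) c κ fun g => ρ g) :=
  QV.qrep2 A.two chi (chic A.two) hm (fun _ hW => A.up hW) hl (A.rep hρ hst)

/-- The hypotheses on the condition at 2. -/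
structure Cnd (A : ArX c κ T P N₀) (hρ : Gn.ConjDual 2 N₀ (inT K T) (Parity.cyclo E) κ ρ b)
    (hl : Lat b l t L₀) (hst : ∀ g, ∀ x ∈ L₀, ρ g *ᵥ x ∈ L₀)
    (hm : ∀ σ τ : AlgebraicClosure K ≃+* AlgebraicClosure K, cyQ (σ * τ) = cyQ σ * cyQ τ)
    (ivF : ∀ w : Option T, (stb (HP.PP P w) → stb (HP.PP P w) → A0) → A0)
    (L₂ : Submodule E (stb (P 2) → Fin (n + n) → E)) : Prop where
  zv : ∀ X ∈ L₂, ZV (SQ c P (N₀.map (iK K)) (some (none : Option T)))
    (fun d => rho2 (iK K) c κ (fun g => ρ g) (jQ c P (some none) d)) X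
  cob : ∀ v, (fun d : stb (P 2) => rho2 (iK K) c κ (fun g => ρ g)
    (d : AlgebraicClosure K ≃+* AlgebraicClosure K) *ᵥ v - v) ∈ L₂
  lag : ∀ N, Lag (SQ c P (N₀.map (iK K)) (some none)) (GA.iQ c P ivF (some none))
    (fun d => actN l N (rho2 (iK K) c κ fun g => ρ g) (A.qrep hρ hl hst hm).rep.st
      (GA.jQ c P (some none) d)) (beN (A.qrep hρ hl hst hm) N)
    (fun a d => laN cyQ l t (blk 0 b 0 0) (rho2 (iK K) c κ fun g => ρ g) (T2 L₀) N a
      (GA.jQ c P (some none) d)) (lamN (T2 L₀) l N L₂)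

section fam

variable {ivF : ∀ w : Option T, (stb (HP.PP P w) → stb (HP.PP P w) → A0) → A0}
  {L₂ : Submodule E (stb (P 2) → Fin (n + n) → E)}

/-- a condition that is its own annihilator -/
theorem cnd_of_lagV (A : ArX c κ T P N₀) (hρ : Gn.ConjDual 2 N₀ (inT K T) (Parity.cyclo E) κ ρ b)
    (hl : Lat b l t L₀) (hst : ∀ g, ∀ x ∈ L₀, ρ g *ᵥ x ∈ L₀) (hχ : IsChar (sysQ T N₀) cyQ)
    (HL : LocD.{w} (SQ c P (N₀.map (iK K)) (some (none : Option T)))
      (fun d => cyQ (GA.jQ c P (some none) d)) (GA.iQ c P ivF (some none)))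
    (hL : LagV (SQ c P (N₀.map (iK K)) (some (none : Option T)))
      (fun d => cyQ (GA.jQ c P (some none) d)) (blk 0 b b 0) (J2 E n)
      (fun d => rho2 (iK K) c κ (fun g => ρ g) (GA.jQ c P (some none) d)) L₂) :
    Cnd A hρ hl hst hχ.mul ivF L₂ where
  zv := hL.coc
  cob := hL.cob
  lag N := QV.lag_N HL (A.qrep hρ hl hst hχ.mul) hχ (GA.jsmQ c P (N₀.map (iK K)) (some none)) hL N

variable {A : ArX c κ T P N₀} {hρ : Gn.ConjDual 2 N₀ (inT K T) (Parity.cyclo E) κ ρ b}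
  {hl : Lat b l t L₀} {hst : ∀ g, ∀ x ∈ L₀, ρ g *ᵥ x ∈ L₀}
  {hm : ∀ σ τ : AlgebraicClosure K ≃+* AlgebraicClosure K, cyQ (σ * τ) = cyQ σ * cyQ τ}

theorem famX_zv (hC : Cnd A hρ hl hst hm ivF L₂) (i : Option (Option T)) :
    ∀ X ∈ famX c κ T P N₀ ρ L₂ i, ZV (SQ c P (N₀.map (iK K)) i)
      (fun d => rho2 (iK K) c κ (fun g => ρ g) (GA.jQ c P i d)) X := by
  intro X hX
  match i with
  | none => exact hX
  | some none => exact hC.zv X hX
  | some (some l) => exact hX.1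

theorem famX_fd (hC : Cnd A hρ hl hst hm ivF L₂)
    (HL : ∀ i, LocD.{w} (SQ c P (N₀.map (iK K)) i) (fun d => cyQ (GA.jQ c P i d)) (GA.iQ c P ivF i))
    (i : Option (Option T)) : FiniteDimensional E (famX c κ T P N₀ ρ L₂ i) := by
  have h1 : FiniteDimensional E (zV (SQ c P (N₀.map (iK K)) i)
      (fun d => rho2 (iK K) c κ (fun g => ρ g) (GA.jQ c P i d))) := by
    refine KR.zV_fd (HL i).gens ?_ fun s t => ?_
    · rw [map_one]
      exact QV.rho2_one A.two (map_one ρ)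
    · rw [map_mul]
      exact QV.rho2_mul A.two (fun s t => map_mul ρ s t) _ _
  have h2 : famX c κ T P N₀ ρ L₂ i ≤ zV (SQ c P (N₀.map (iK K)) i)
      (fun d => rho2 (iK K) c κ (fun g => ρ g) (GA.jQ c P i d)) := fun X hX => famX_zv hC i X hX
  exact Submodule.finiteDimensional_of_le h2

theorem famX_cob (hC : Cnd A hρ hl hst hm ivF L₂) (i : Option (Option T)) (v : Fin (n + n) → E) :
    (fun d => rho2 (iK K) c κ (fun g => ρ g) (GA.jQ c P i d) *ᵥ v - v) ∈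
      famX c κ T P N₀ ρ L₂ i := by
  have hq := A.qrep hρ hl hst hm
  have hz : ZV (SQ c P (N₀.map (iK K)) i)
      (fun d => rho2 (iK K) c κ (fun g => ρ g) (GA.jQ c P i d))
      (fun d => rho2 (iK K) c κ (fun g => ρ g) (GA.jQ c P i d) *ᵥ v - v) :=
    QV.zv_cob hq.lat.symm (locRep_res hq.rep (GA.jsmQ c P (N₀.map (iK K)) i)) v
  match i, hz with
  | none, hz => exact hz
  | some (some l), hz => exact ⟨hz, v, fun d _ => rfl⟩
  | some none, _ => exact hC.cob v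

theorem famX_lag (hC : Cnd A hρ hl hst hm ivF L₂) (hχ : IsChar (sysQ T N₀) cyQ)
    (HL : ∀ i, LocD.{w} (SQ c P (N₀.map (iK K)) i) (fun d => cyQ (GA.jQ c P i d)) (GA.iQ c P ivF i))
    (N : ℕ) (i : Option (Option T)) :
    Lag (SQ c P (N₀.map (iK K)) i) (GA.iQ c P ivF i)
      (fun d => actN l N (rho2 (iK K) c κ fun g => ρ g) (A.qrep hρ hl hst hm).rep.st (GA.jQ c P i d))
      (beN (A.qrep hρ hl hst hm) N)
      (fun a d => laN cyQ l t (blk 0 b 0 0) (rho2 (iK K) c κ fun g => ρ g) (T2 L₀) N a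
        (GA.jQ c P i d))
      (lamN (T2 L₀) l N (famX c κ T P N₀ ρ L₂ i)) := by
  have hq := A.qrep hρ hl hst hm
  have hr := locRep_res hq.rep (GA.jsmQ c P (N₀.map (iK K)) i)
  match i, hr with
  | none, hr =>
    exact QV.lag_N (HL none) hq hχ (GA.jsmQ c P (N₀.map (iK K)) none)
      (QU.lagV_inf (sq_c A.two) hr hq.jj) N
  | some (some k), hr =>
    have h3 := A.norQ
    exact QV.lag_N (HL (some (some k))) hq hχ (GA.jsmQ c P (N₀.map (iK K)) (some (some k)))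
      (QU.lagV_odd (HP.alg_closure K) (A.prime k) (A.odd k) (A.isPrime k) (A.natMem k) inferInstance
        (GA.opn_fullC A.opnQ _) hr hq.jj (QU.lat_det hq.lat)).1 N
  | some none, _ => exact hC.lag N

/-- the Selmer space over `K` contains the coboundaries -/
theorem cob_leX (hC : Cnd A hρ hl hst hm ivF L₂) :
    Parity.coboundaries ρ ≤
      selK A.two (sysQ T N₀) (GA.jQ c P) (fun g => ρ g) (famX c κ T P N₀ ρ L₂) := by
  have X := A.two
  rintro x ⟨v, hv⟩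
  obtain rfl : x = fun g => ρ g *ᵥ v - v := funext hv
  have h1 := (coc_iff A hρ (x := fun g => ρ g *ᵥ v - v)).2
    ⟨⟨(hρ.cont.matrix_mulVec continuous_const).sub continuous_const, fun s t => by
      beta_reduce
      rw [map_mul, mulVec_sub, mulVec_mulVec]
      abel⟩, fun σ hσ => by
      rw [hρ.unram σ hσ, one_mulVec, sub_self]⟩
  refine ⟨h1.1, h1.2, fun i => ?_⟩
  have h2 : ind (iK K) c κ (fun g => ρ g *ᵥ v - v) =
      fun σ => rho2 (iK K) c κ (fun g => ρ g) σ *ᵥ QV.ap v v - QV.ap v v := by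
    funext σ
    rcases X.cases σ with ⟨g, rfl⟩ | ⟨g, rfl⟩
    · rw [QV.ind_e X]
      apply QV.ap_ext
      · rw [QV.v1_ap, QV.v1_sub, QV.v1_rho X, QV.v1_ap]
      · rw [QV.v2_ap, QV.v2_sub, QV.v2_rho X, QV.v2_ap]
    · rw [QV.ind_ec X]
      apply QV.ap_ext
      · rw [QV.v1_ap, QV.v1_sub, QV.v1_rhoc X, QV.v1_ap, QV.v2_ap]
      · rw [QV.v2_ap, QV.v2_sub, QV.v2_rhoc X, QV.v1_ap, QV.v2_ap]
  rw [h2]
  exact famX_cob hC i (QV.ap v v)

end fam

section par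

variable {iv ivF : ∀ w : Option T, (stb (HP.PP P w) → stb (HP.PP P w) → A0) → A0}
  {tr : (((AlgebraicClosure K ≃+* AlgebraicClosure K) → (AlgebraicClosure K ≃+* AlgebraicClosure K) →
      (AlgebraicClosure K ≃+* AlgebraicClosure K) → A0) ×
      (∀ i : Option (Option T), HQ c P i → HQ c P i → A0)) →+ A0}
  {L₂ : Submodule E (stb (P 2) → Fin (n + n) → E)}

/-- THE PARITY. -/
theorem parity_X [IsLocalRing (OE E)] (I : InX.{u, w} c κ T P N₀ iv ivF tr)
    (hρ : Gn.ConjDual 2 N₀ (inT K T) (Parity.cyclo E) κ ρ b)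
    (hl : Lat b l t L₀) (hst : ∀ g, ∀ x ∈ L₀, ρ g *ᵥ x ∈ L₀)
    (hC : Cnd I.toArX hρ hl hst I.glob.glob.char.mul ivF L₂) {δ : ℕ}
    (hP : EvPow (Nat.card (IsLocalRing.ResidueField (OE E)))
      (Nat.card (selNQ (sysQ T N₀) (GA.jQ c P) (rho2 (iK K) c κ fun g => ρ g)
        (famX c κ T P N₀ ρ L₂) (I.toArX.qrep hρ hl hst I.glob.glob.char.mul) 1) *
        Nat.card (IsLocalRing.ResidueField (OE E)) ^ δ)) :
    FiniteDimensional E (selK I.two (sysQ T N₀) (GA.jQ c P) (fun g => ρ g)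
        (famX c κ T P N₀ ρ L₂)) ∧
      Parity.coboundaries ρ ≤ selK I.two (sysQ T N₀) (GA.jQ c P) (fun g => ρ g)
        (famX c κ T P N₀ ρ L₂) ∧
      Even (Parity.dimModulo (selK I.two (sysQ T N₀) (GA.jQ c P) (fun g => ρ g)
        (famX c κ T P N₀ ρ L₂)) (Parity.coboundaries ρ) +
        Module.finrank E (Parity.fixedBy (fun σ : AbsGal K => ρ σ)) + δ) := by
  have hq := I.toArX.qrep hρ hl hst I.glob.glob.char.mul
  obtain ⟨h1, h2⟩ := QV.parity_E I.glob I.gens (I.toArX.qrep hρ hl hst I.glob.glob.char.mul)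
    (famX_fd hC fun i => I.locD i) (famX_zv hC) (famX_cob hC)
    (famX_lag hC I.glob.glob.char fun i => I.locD i) hP
  obtain ⟨h3, h4⟩ := QV.finrank_selE (ρ := fun g => ρ g) (L := famX c κ T P N₀ ρ L₂) I.two (map_one ρ)
    I.toArX.dn (QV.zv_cob hq.lat.symm hq.rep) (famX_cob hC)
  have hle := cob_leX hC
  refine ⟨h3, hle, ?_⟩
  have h5 := GP.dimModulo_add hle h3
  have h6 := GP.finrank_cob (fun σ : AbsGal K => ρ σ)
  rw [h4] at h2
  have h7 : Module.finrank E (Parity.coboundaries ρ) + Module.finrank E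
      (Parity.fixedBy (fun σ : AbsGal K => ρ σ)) = n := h6
  rw [Nat.even_iff] at h2 ⊢
  omega

end par

end Pool.Agent.Work.MP_787500_nt.QX
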