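import Mathlib
import Pool.Agent.Work.MP_787500_nt.QX.Fam
import Pool.Agent.Work.MP_787500_nt.KI.LevR

/-!
# THE LEVEL ONE: the arithmetic family for an arbitrary imaginary quadratic field

* `LocX`: the contribution of a condition at a place of the family.
* `locX_inf`: infinity; `locX_ram`: the ramified primes where `V` is unramified over `K`; `locX_spl`: the odd primes
  that split.
* `hP_X`: THE HYPOTHESIS `hP` of `QX.parity_X` from the contributions of the place 2 and the places of `T`.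
-/

set_option autoImplicit false
set_option linter.unusedSectionVars false

namespace Pool.Agent.Work.MP_787500_nt.QX

open Matrix NumberField
open Pool.Agent.Work.MP_787500_nt.GP (A0 OE bil Lat inT stabD EvPow actN lamN MN bN mq Wq actQ IsAct)
open Pool.Agent.Work.MP_787500_nt.KR (FSys IsChar ZV zV LocRep LocD fullC fullD fullK fullQ big SDualF
  sdualF_MN)
open Pool.Agent.Work.MP_787500_nt.PA (toE cyc)
open Pool.Agent.Work.MP_787500_nt.HP (IsQ Spl IsP inr stb cyQ)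
open Pool.Agent.Work.MP_787500_nt.KS (iK ep)
open Pool.Agent.Work.MP_787500_nt.QS (Two Lag ac2 be2 la2 prY)
open Pool.Agent.Work.MP_787500_nt.QV (rho2 selNQ QRep T2 J2 blk beN laN isoN iso_one iso_two)
open Pool.Agent.Work.MP_787500_nt.QU (urV)
open Pool.Agent.Work.MP_787500_nt.QW (sysQ eSt eSt_symm)
open Pool.Agent.Work.MP_787500_nt.GA (HQ SQ jQ iQ)
open Pool.Agent.Work.MP_787500_nt.QP (InvC)
open Pool.Agent.Work.MP_787500_nt.KI (LocM YM mem_YM lag_YM actN_one locM_inf locM_ram exists_crd_res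
  card_of_iso hP_of_loc evPow_cancel jS jS_e two_r finrank_odd locM_urS cnt_tame)

universe u w

variable {K : Type u} [Field K] [NumberField K]
  {c : AlgebraicClosure K ≃+* AlgebraicClosure K} {κ : AbsGal K →* AbsGal K} {T : Finset ℕ}
  {P : ℕ → Ideal (𝓞 (AlgebraicClosure K))} {N₀ : Subgroup (AbsGal K)}
  {iv ivF : ∀ w : Option T, (stb (HP.PP P w) → stb (HP.PP P w) → A0) → A0}
  {tr : (((AlgebraicClosure K ≃+* AlgebraicClosure K) → (AlgebraicClosure K ≃+* AlgebraicClosure K) →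
      (AlgebraicClosure K ≃+* AlgebraicClosure K) → A0) ×
      (∀ i : Option (Option T), HQ c P i → HQ c P i → A0)) →+ A0}

/-- a representation that is trivial on the inertia group over `K` at a ramified prime is trivial on its
conjugate -/
theorem unr_kap {R : Type*} [Monoid R] {ρ : AbsGal K →* R} (X : Two (iK K) c κ)
    {Q : Ideal (𝓞 (AlgebraicClosure K))} {θ : AbsGal K} (hθ : iK K θ * c ∈ inr Q)
    (hun : ∀ g : AbsGal K, iK K g ∈ inr Q → ρ g = 1) {g : AbsGal K} (hg : iK K g ∈ inr Q) :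
    ρ (κ g) = 1 := by
  have hcc : c * c = 1 := X.cc
  have hci : c⁻¹ = c := inv_eq_of_mul_eq_one_left hcc
  have h1 : iK K ((κ θ)⁻¹ * κ g * κ θ) = (iK K θ * c)⁻¹ * iK K g * (iK K θ * c) := by
    rw [map_mul, map_mul, map_inv, X.kap, X.kap, _root_.mul_inv_rev,
      _root_.mul_inv_rev, _root_.mul_inv_rev, hci]
    calc c * ((iK K θ)⁻¹ * c) * (c * iK K g * c) * (c * iK K θ * c)
        = c * (iK K θ)⁻¹ * (c * c) * iK K g * (c * c) * iK K θ * c := by simp only [mul_assoc]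
      _ = _ := by
        rw [hcc]
        simp only [mul_assoc, mul_one]
  have h2 := hun _ (by
    rw [h1]
    exact mul_mem (mul_mem (inv_mem hθ) hg) hθ)
  rw [map_mul, map_mul] at h2
  have h3 : ρ (κ θ) * ρ (κ θ)⁻¹ = 1 := by rw [← map_mul, mul_inv_cancel, map_one]
  have h4 : ρ (κ θ)⁻¹ * ρ (κ θ) = 1 := by rw [← map_mul, inv_mul_cancel, map_one]
  calc ρ (κ g) = ρ (κ θ) * ρ (κ θ)⁻¹ * ρ (κ g) * (ρ (κ θ) * ρ (κ θ)⁻¹) := by
        rw [h3, one_mul, mul_one]
    _ = ρ (κ θ) * (ρ (κ θ)⁻¹ * ρ (κ g) * ρ (κ θ)) * ρ (κ θ)⁻¹ := by simp only [mul_assoc]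
    _ = 1 := by rw [h2, mul_one, h3]

variable {E : Type w} [NormedField E] [NormedAlgebra ℚ_[2] E] [FiniteDimensional ℚ_[2] E]
  [IsLocalRing (OE E)] [Finite (IsLocalRing.ResidueField (OE E))]
  [CharP (IsLocalRing.ResidueField (OE E)) 2] [Algebra (ZMod 2) (IsLocalRing.ResidueField (OE E))]
  {n : ℕ} {ρ : AbsGal K →* Matrix (Fin n) (Fin n) E} {b : Matrix (Fin n) (Fin n) E}
  {l : OE E} {t : E →ₗ[ℚ_[2]] ℚ_[2]} {L₀ : Submodule (OE E) (Fin n → E)}

/-- the contribution of a condition at a place of the family -/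
abbrev LocX (c : AlgebraicClosure K ≃+* AlgebraicClosure K) (κ : AbsGal K →* AbsGal K)
    (P : ℕ → Ideal (𝓞 (AlgebraicClosure K))) (N₀ : Subgroup (AbsGal K))
    (ivF : ∀ w : Option T, (stb (HP.PP P w) → stb (HP.PP P w) → A0) → A0)
    (hl : Lat b l t L₀) (hst : ∀ g, ∀ x ∈ L₀, ρ g *ᵥ x ∈ L₀) (C : MN L₀ l 1 → MN L₀ l 1)
    (i : Option (Option T)) (L : Submodule E (HQ c P i → Fin (n + n) → E)) (δ : ℕ) : Prop :=
  LocM (SQ c P (N₀.map (iK K)) i) (jQ c P i) (iQ c P ivF i) (iK K) c κ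
    (IsLocalRing.ResidueField (OE E)) (actN l 1 (fun g => ρ g) hst) (bN hl 1) C (YM L₀ l L) δ

section lag

variable {L₂ : Submodule E (stb (P 2) → Fin (n + n) → E)}

/-- the conditions of level 1 are Lagrangian -/
theorem lag_X (I : InX.{u, w} c κ T P N₀ iv ivF tr)
    {hρ : Gn.ConjDual 2 N₀ (inT K T) (Parity.cyclo E) κ ρ b} {hl : Lat b l t L₀}
    {hst : ∀ g, ∀ x ∈ L₀, ρ g *ᵥ x ∈ L₀}
    (hC : Cnd I.toArX hρ hl hst I.glob.glob.char.mul ivF L₂) (i : Option (Option T)) :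
    Lag (SQ c P (N₀.map (iK K)) i) (iQ c P ivF i)
      (fun d => ac2 (iK K) c κ (actN l 1 (fun g => ρ g) hst) (jQ c P i d)) (be2 (bN hl 1))
      (fun (a : OE E) d => la2 (iK K) c κ (actN l 1 (fun g => ρ g) hst) (bN hl 1) a (jQ c P i d))
      (YM L₀ l (famX c κ T P N₀ ρ L₂ i)) :=
  lag_YM I.two chi (chic I.two) I.glob.glob.char.mul hl (I.toArX.rep hρ hst)
    (I.toArX.qrep hρ hl hst I.glob.glob.char.mul)
    (famX_lag hC I.glob.glob.char (fun i => I.locD i) 1 i)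

/-- the odd places do not depend on the condition at 2 -/
theorem lag_odd (I : InX.{u, w} c κ T P N₀ iv ivF tr)
    (hρ : Gn.ConjDual 2 N₀ (inT K T) (Parity.cyclo E) κ ρ b) (hl : Lat b l t L₀)
    (hst : ∀ g, ∀ x ∈ L₀, ρ g *ᵥ x ∈ L₀) (N : ℕ) (p : T) :
    Lag (SQ c P (N₀.map (iK K)) (some (some p))) (GA.iQ c P ivF (some (some p)))
      (fun d => actN l N (rho2 (iK K) c κ fun g => ρ g)
        (I.toArX.qrep hρ hl hst I.glob.glob.char.mul).rep.st (GA.jQ c P (some (some p)) d))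
      (beN (I.toArX.qrep hρ hl hst I.glob.glob.char.mul) N)
      (fun a d => laN cyQ l t (blk 0 b 0 0) (rho2 (iK K) c κ fun g => ρ g) (T2 L₀) N a
        (GA.jQ c P (some (some p)) d))
      (lamN (T2 L₀) l N (urV (SQ c P (N₀.map (iK K)) (some (some p)))
        ((inr (P p)).subgroupOf (stb (P p)))
        (fun d => rho2 (iK K) c κ (fun g => ρ g) (GA.jQ c P (some (some p)) d)))) := by
  have hq := I.toArX.qrep hρ hl hst I.glob.glob.char.mul
  have hr := QW.locRep_res hq.rep (GA.jsmQ c P (N₀.map (iK K)) (some (some p)))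
  have h3 := I.norQ
  exact QV.lag_N (I.locD (some (some p))) hq I.glob.glob.char
    (GA.jsmQ c P (N₀.map (iK K)) (some (some p)))
    (QU.lagV_odd (HP.alg_closure K) (I.prime p) (I.odd p) (I.isPrime p) (I.natMem p) inferInstance
      (GA.opn_fullC I.opnQ _) hr hq.jj (QU.lat_det hq.lat)).1 N

/-- THE CONTRIBUTION OF INFINITY. -/
theorem locX_inf (I : InX.{u, w} c κ T P N₀ iv ivF tr)
    {hρ : Gn.ConjDual 2 N₀ (inT K T) (Parity.cyclo E) κ ρ b} {hl : Lat b l t L₀}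
    {hst : ∀ g, ∀ x ∈ L₀, ρ g *ᵥ x ∈ L₀}
    (hC : Cnd I.toArX hρ hl hst I.glob.glob.char.mul ivF L₂) {C : MN L₀ l 1 → MN L₀ l 1} {r : ℕ}
    (hr : Nat.card (MN L₀ l 1) = Nat.card (IsLocalRing.ResidueField (OE E)) ^ (2 * r)) :
    LocX c κ P N₀ ivF hl hst C none (famX c κ T P N₀ ρ L₂ none) r := by
  have hfin : Finite (MN L₀ l 1) := GP.MN_finite hl 1
  have hs : SDualF (big (fullK (K := K) T) N₀) cyc κ ∅ (OE E) (actN l 1 (fun g => ρ g) hst)
      (bN hl 1) := sdualF_MN hl (I.toArX.rep hρ hst) (fun p hp => absurd hp (Set.notMem_empty p)) 1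
  exact locM_inf (I.plQ none) hs I.inf
    (QL.ramI_Q (fun x => sq_c I.two x) fun d hd => absurd hd (Set.notMem_empty d))
    (lag_X I hC none) hr

/-- THE CONTRIBUTION OF THE RAMIFIED PRIMES where `V` is unramified over `K`. -/
theorem locX_ram (I : InX.{u, w} c κ T P N₀ iv ivF tr)
    (hρ : Gn.ConjDual 2 N₀ (inT K T) (Parity.cyclo E) κ ρ b) (hl : Lat b l t L₀)
    (hst : ∀ g, ∀ x ∈ L₀, ρ g *ᵥ x ∈ L₀) {C : MN L₀ l 1 → MN L₀ l 1}
    (hC : InvC κ (OE E) (actN l 1 (fun g => ρ g) hst) (bN hl 1) C) {p : T} {θ : AbsGal K}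
    (hθ : iK K θ * c ∈ inr (P p)) (hθC : ∀ m, actN l 1 (fun g => ρ g) hst θ (C m) = m)
    (hun : ∀ g : AbsGal K, iK K g ∈ inr (P p) → ρ g = 1)
    (L₂ : Submodule E (stb (P 2) → Fin (n + n) → E)) :
    LocX c κ P N₀ ivF hl hst C (some (some p)) (famX c κ T P N₀ ρ L₂ (some (some p))) 0 := by
  have hfin : Finite (MN L₀ l 1) := GP.MN_finite hl 1
  have hs : SDualF (big (fullK (K := K) T) N₀) cyc κ ∅ (OE E) (actN l 1 (fun g => ρ g) hst)
      (bN hl 1) := sdualF_MN hl (I.toArX.rep hρ hst) (fun p hp => absurd hp (Set.notMem_empty p)) 1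
  have hp : ¬ inr (P p) ≤ (iK K).range := by
    intro h
    obtain ⟨m, hm⟩ := h hθ
    exact I.two.out θ m hm
  have hun' : ∀ g : AbsGal K, iK K g ∈ inr (P p) → ∀ m, actN l 1 (fun g => ρ g) hst g m = m :=
    fun g hg m => actN_one hst (hun g hg) m
  refine locM_ram (I.plQ (some (some p))) hs hC (I.ram_pl hp) (I.ramF hθ) hθC
    (fun d hd => ⟨fun g hg m => ?_, fun g hg m => ?_⟩)
    (lag_YM I.two chi (chic I.two) I.glob.glob.char.mul hl (I.toArX.rep hρ hst)
      (I.toArX.qrep hρ hl hst I.glob.glob.char.mul) (lag_odd I hρ hl hst 1 p)) fun x hx d hd => ?_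
  · refine hun' g ?_ m
    rw [hg]
    exact hd
  · have h1 : iK K (g * θ⁻¹) ∈ inr (P p) := by
      have e1 : iK K (g * θ⁻¹) = iK K g * c * (iK K θ * c)⁻¹ := by
        rw [map_mul, map_inv]
        group
      rw [e1, hg]
      exact mul_mem hd (inv_mem hθ)
    have h2 := hun' _ h1 (actN l 1 (fun g => ρ g) hst θ (C m))
    rw [← hs.act.mul, inv_mul_cancel_right, hθC] at h2
    exact h2
  · -- the classes vanish on inertia over `K`
    obtain ⟨y, rfl⟩ : ∃ y : HQ c P (some (some p)) → MN (T2 L₀) l 1,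
        x = fun d => isoN L₀ l 1 (y d) :=
      ⟨fun d => (isoN L₀ l 1).symm (x d), funext fun d => ((isoN L₀ l 1).apply_symm_apply _).symm⟩
    obtain ⟨X, hX, hy⟩ := mem_YM.1 hx
    obtain ⟨hd1, g, hg⟩ := hd
    obtain ⟨-, v, hv⟩ := hX
    have h1 : X d = 0 := by
      have h2 := hv d hd1
      have h3 : rho2 (iK K) c κ (fun g => ρ g) (jQ c P (some (some p)) d) = 1 := by
        refine QV.mat_ext fun v => ?_
        have h4 : jQ c P (some (some p)) d = iK K g := hg.symm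
        have h5 : ρ g = 1 := hun g (by rw [hg]; exact hd1)
        have h6 : ρ (κ g) = 1 := unr_kap I.two hθ hun (by rw [hg]; exact hd1)
        rw [h4, one_mulVec]
        apply QV.ap_ext
        · rw [QV.v1_rho I.two, h5, one_mulVec]
        · rw [QV.v2_rho I.two, h6, one_mulVec]
      rw [h2]
      show rho2 (iK K) c κ (fun g => ρ g) (jQ c P (some (some p)) d) *ᵥ v - v = 0
      rw [h3, one_mulVec, sub_self]
    show isoN L₀ l 1 (y d) = 0
    have h7 : y d = 0 := Subtype.ext (by rw [hy d, h1]; exact GP.mq_eq_zero.2 (Submodule.zero_mem _))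
    rw [h7, map_zero]

/-- the dimension is even -/
theorem even_n (I : InX.{u, w} c κ T P N₀ iv ivF tr)
    (hρ : Gn.ConjDual 2 N₀ (inT K T) (Parity.cyclo E) κ ρ b) (hl : Lat b l t L₀)
    (hst : ∀ g, ∀ x ∈ L₀, ρ g *ᵥ x ∈ L₀) {C : MN L₀ l 1 → MN L₀ l 1}
    (hC : InvC κ (OE E) (actN l 1 (fun g => ρ g) hst) (bN hl 1) C) :
    ∃ r, Nat.card (MN L₀ l 1) = Nat.card (IsLocalRing.ResidueField (OE E)) ^ (2 * r) := by
  have hfin : Finite (MN L₀ l 1) := GP.MN_finite hl 1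
  have hs : SDualF (big (fullK (K := K) T) N₀) cyc κ ∅ (OE E) (actN l 1 (fun g => ρ g) hst)
      (bN hl 1) := sdualF_MN hl (I.toArX.rep hρ hst) (fun p hp => absurd hp (Set.notMem_empty p)) 1
  obtain ⟨m, iS, L, A, hc⟩ := exists_crd_res I.two
    (fun g => by
      rw [← chi]
      exact I.glob.glob.char.odd _) (QF.max_MN hl) hs hC
  obtain ⟨r, hr⟩ := KT.n_even (IsLocalRing.ResidueField (OE E)) m
  refine ⟨r, ?_⟩
  rw [card_of_iso (F := IsLocalRing.ResidueField (OE E)) (Nat.card_congr L.toEquiv), hr]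
  congr 1
  ring

theorem jS_contX (A : ArX c κ T P N₀) (i : Option T) (hp : stb (HP.PP P i) ≤ (iK K).range)
    (W : Subgroup (AbsGal K)) (hW : (big (fullK (K := K) T) N₀).mem W) :
    ∃ W', (SQ c P (N₀.map (iK K)) (some i)).mem W' ∧ ∀ w ∈ W', jS hp w ∈ W := by
  obtain ⟨V, hV, h1⟩ := A.up hW
  obtain ⟨V', hV', h2⟩ := GA.jsmQ c P (N₀.map (iK K)) (some i) V hV
  refine ⟨V', hV', fun w hw => ?_⟩
  obtain ⟨g, hg, h3⟩ := h1 _ (h2 w hw)
  have h4 : jQ c P (some i) w = iK K (jS hp w) := jS_e hp w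
  rw [h4] at h3
  rwa [← HP.emb_inj _ h3]

/-- THE CONTRIBUTION OF AN ODD PRIME THAT SPLITS. -/
theorem locX_spl (I : InX.{u, w} c κ T P N₀ iv ivF tr)
    (hρ : Gn.ConjDual 2 N₀ (inT K T) (Parity.cyclo E) κ ρ b) (hl : Lat b l t L₀)
    (hst : ∀ g, ∀ x ∈ L₀, ρ g *ᵥ x ∈ L₀) {C : MN L₀ l 1 → MN L₀ l 1}
    (hC : InvC κ (OE E) (actN l 1 (fun g => ρ g) hst) (bN hl 1) C) {p : T}
    (hle : stb (P p) ≤ (iK K).range) (L₂ : Submodule E (stb (P 2) → Fin (n + n) → E)) :
    LocX c κ P N₀ ivF hl hst C (some (some p)) (famX c κ T P N₀ ρ L₂ (some (some p))) 0 := by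
  obtain ⟨r, hr⟩ := even_n I hρ hl hst hC
  have hj : ∀ d, jQ c P (some (some p)) d = iK K (jS hle d) := jS_e hle
  have hR := QV.locRep_j (j := jS hle) (I.toArX.rep hρ hst) (jS_contX I.toArX (some p) hle)
  have hn := I.norQ
  obtain ⟨hfd, hdim⟩ := finrank_odd (HP.alg_closure K) (I.prime p) (I.odd p) (I.isPrime p) (I.natMem p)
    (inferInstance : ((N₀.map (iK K)).subgroupOf (stb (P p))).Normal) (I.opnL (some p)) hR.one hR.mul
    hR.sm
  obtain ⟨a, σ, τ, hT⟩ := QL.exists_tameQ_big (HP.alg_closure K) (I.prime p) (I.odd p) (I.isPrime p)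
    (I.natMem p) ((N₀.map (iK K)).subgroupOf (stb (P p)))
  exact locM_urS (I.plQ (some (some p))) hj hl (I.toArX.rep hρ hst)
    (I.toArX.qrep hρ hl hst I.glob.glob.char.mul) (lag_odd I hρ hl hst 1 p) hfd hdim
    (cnt_tame hT (I.locD (some (some p)))) (two_r hl hr)

/-- THE HYPOTHESIS `hP` of `parity_X`, from the contributions at 2 and at the places of `T`. -/
theorem hP_X (I : InX.{u, w} c κ T P N₀ iv ivF tr)
    {hρ : Gn.ConjDual 2 N₀ (inT K T) (Parity.cyclo E) κ ρ b} {hl : Lat b l t L₀}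
    {hst : ∀ g, ∀ x ∈ L₀, ρ g *ᵥ x ∈ L₀}
    (hCn : Cnd I.toArX hρ hl hst I.glob.glob.char.mul ivF L₂) {C : MN L₀ l 1 → MN L₀ l 1}
    (hC : InvC κ (OE E) (actN l 1 (fun g => ρ g) hst) (bN hl 1) C) {d : ℕ}
    (h2 : ∀ r, Nat.card (MN L₀ l 1) = Nat.card (IsLocalRing.ResidueField (OE E)) ^ (2 * r) →
      LocX c κ P N₀ ivF hl hst C (some none) (famX c κ T P N₀ ρ L₂ (some none)) (d + r))
    {δ : T → ℕ} (hT : ∀ p : T, LocX c κ P N₀ ivF hl hst C (some (some p))
      (famX c κ T P N₀ ρ L₂ (some (some p))) (δ p)) :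
    EvPow (Nat.card (IsLocalRing.ResidueField (OE E)))
      (Nat.card (selNQ (sysQ T N₀) (jQ c P) (rho2 (iK K) c κ fun g => ρ g)
        (famX c κ T P N₀ ρ L₂) (I.toArX.qrep hρ hl hst I.glob.glob.char.mul) 1) *
        Nat.card (IsLocalRing.ResidueField (OE E)) ^ (d + ∑ p, δ p)) := by
  obtain ⟨r, hr⟩ := even_n I hρ hl hst hC
  let δ' : Option (Option T) → ℕ := fun i => match i with
    | none => r
    | some none => d + r
    | some (some p) => δ p
  have h1 := hP_of_loc (δ := δ') I.glob I.two chi (chic I.two) (fun _ hW => I.up hW)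
    (fun _ hW => ⟨_, I.ks hW, fun _ hv => hv⟩) hl
    (I.toArX.rep hρ hst) (I.toArX.qrep hρ hl hst I.glob.glob.char.mul) hC
    (L := famX c κ T P N₀ ρ L₂)
    (famX_lag hCn I.glob.glob.char (fun i => I.locD i) 1) (fun i => ?_)
  · have h3 : ∑ i, δ' i = (d + ∑ p, δ p) + 2 * r := by
      rw [Fintype.sum_option, Fintype.sum_option]
      show r + (d + r + ∑ p, δ p) = _
      ring
    rw [h3] at h1
    exact evPow_cancel Finite.one_lt_card h1
  · match i with
    | none => exact locX_inf I hCn hr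
    | some none => exact h2 r hr
    | some (some p) => exact hT p

end lag

end Pool.Agent.Work.MP_787500_nt.QX
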