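import Mathlib
import Pool.Agent.Work.MP_787500_nt.QX.Lev
import Pool.Agent.Work.MP_787500_nt.QG.InrC

/-!
# THE INERT PLACES for an arbitrary imaginary quadratic field

`locX_inr`: THE CONTRIBUTION OF AN INERT PRIME NUMBER is `condExp`, where inertia acts by commuting matrices or the
dimension is 2 (as in `QG/InrC.lean`).
-/

set_option autoImplicit false
set_option linter.unusedSectionVars false

namespace Pool.Agent.Work.MP_787500_nt.QX

open Matrix NumberField
open Pool.Agent.Work.MP_787500_nt.GP (A0 OE bil Lat inT stabD EvPow actN lamN MN bN mq Wq actQ IsAct hf d0)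
open Pool.Agent.Work.MP_787500_nt.KR (FSys Sm1 IsChar Smooth Z1 ZV zV LocRep LocD fullC fullD fullK fullQ big
  SDualF sdualF_MN kerT mem_kerT mem_kerT_iff)
open Pool.Agent.Work.MP_787500_nt.KT hiding Str Rel Sel KH Ai IsP cc ff TT
open Pool.Agent.Work.MP_787500_nt.PA (toE cyc homs)
open Pool.Agent.Work.MP_787500_nt.HP (IsQ Spl IsP inr stb cyQ fsys)
open Pool.Agent.Work.MP_787500_nt.KS (iK ep ep_zero)
open Pool.Agent.Work.MP_787500_nt.QS (Two Lag QM ac2 be2 la2 prY)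
open Pool.Agent.Work.MP_787500_nt.QV (rho2 selNQ QRep T2 J2 blk beN laN isoN iso_one iso_two iso_act)
open Pool.Agent.Work.MP_787500_nt.QU (urV)
open Pool.Agent.Work.MP_787500_nt.QW (sysQ)
open Pool.Agent.Work.MP_787500_nt.GA (HQ SQ jQ iQ Inr)
open Pool.Agent.Work.MP_787500_nt.QP (InvC)
open Pool.Agent.Work.MP_787500_nt.QL (TameF zur zurM mem_zurM mem_zur)
open Pool.Agent.Work.MP_787500_nt.KI (LocM YM mem_YM lag_YM Crd exists_psi homs_sm1 card_zur_tra rel_card
  locM_inert siso_iso card_YM fixS)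
open Pool.Agent.Work.MP_787500_nt.QG (pow_two_ker one_of_ker mem_of_odd inr_iff VI_eq)

universe u w

variable {K : Type u} [Field K] [NumberField K]
  {c : AlgebraicClosure K ≃+* AlgebraicClosure K} {κ : AbsGal K →* AbsGal K} {T : Finset ℕ}
  {P : ℕ → Ideal (𝓞 (AlgebraicClosure K))} {N₀ : Subgroup (AbsGal K)}
  {iv ivF : ∀ w : Option T, (stb (HP.PP P w) → stb (HP.PP P w) → A0) → A0}
  {tr : (((AlgebraicClosure K ≃+* AlgebraicClosure K) → (AlgebraicClosure K ≃+* AlgebraicClosure K) →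
      (AlgebraicClosure K ≃+* AlgebraicClosure K) → A0) ×
      (∀ i : Option (Option T), HQ c P i → HQ c P i → A0)) →+ A0}
  {E : Type w} [NormedField E] [NormedAlgebra ℚ_[2] E] [FiniteDimensional ℚ_[2] E]
  {n : ℕ} {ρ : AbsGal K →* Matrix (Fin n) (Fin n) E} {b : Matrix (Fin n) (Fin n) E}
  {l : OE E} {t : E →ₗ[ℚ_[2]] ℚ_[2]} {L₀ : Submodule (OE E) (Fin n → E)}

/-- an element of inertia of the pro-odd part that acts trivially at the level 1 acts trivially -/
theorem one_of_levX (I : InX.{u, w} c κ T P N₀ iv ivF tr)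
    (hρ : Gn.ConjDual 2 N₀ (inT K T) (Parity.cyclo E) κ ρ b) (hl : Lat b l t L₀)
    (hst : ∀ g, ∀ x ∈ L₀, ρ g *ᵥ x ∈ L₀) {p : T} {a : HQ c P (some (some p)) → ℤ_[2]}
    {σ τ : HQ c P (some (some p))} {q : ℕ}
    (hT : TameF (SQ c P (N₀.map (iK K)) (some (some p))) (fun d => cyQ (jQ c P (some (some p)) d))
      a σ τ q ((inr (P p)).subgroupOf (stb (P p))))
    {g : AbsGal K} {d : HQ c P (some (some p))} (hgd : iK K g = jQ c P (some (some p)) d) (hd : d ∈ hT.P)
    (h1 : ∀ m : MN L₀ l 1, actN l 1 (fun g => ρ g) hst g m = m) : ρ g = 1 := by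
  refine one_of_ker hl.lne hl.llt hst hl.bdd hl.opn fun k => ?_
  have h2 := pow_two_ker hl.lne hl.lmax hst (mem_kerT_iff.2 h1) k
  obtain ⟨R, hR⟩ := hl.bdd
  obtain ⟨r, hr, hr'⟩ := hl.opn
  have hR0 : 0 ≤ R := (norm_nonneg _).trans (hR 0 L₀.zero_mem)
  have hl0' : 0 < ‖(l : E)‖ := norm_pos_iff.2 hl.lne
  -- a member of the system contained in the kernel
  obtain ⟨W, hW, hW'⟩ := (I.toArX.rep hρ hst).sm (r / (R / ‖(l : E)‖ ^ (k + 1) + 1)) (by positivity)
  have hWk : ∀ w ∈ W, w ∈ kerT L₀ ((l : E) ^ (k + 1)) ρ hst := by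
    intro w hw x hx
    refine hr' _ ((hW' w hw x).trans_lt ?_)
    have h3 := hR _ hx
    rw [norm_smul, norm_pow] at h3
    have h4 : ‖x‖ ≤ R / ‖(l : E)‖ ^ (k + 1) := by
      rw [le_div_iff₀ (pow_pos hl0' _)]
      linarith
    have h5 : 0 < R / ‖(l : E)‖ ^ (k + 1) + 1 := by positivity
    rw [div_mul_eq_mul_div, div_lt_iff₀ h5]
    nlinarith
  obtain ⟨W₁, hW₁, h3⟩ := I.up hW
  obtain ⟨W₂, hW₂, h4⟩ := I.jsm (some (some p)) W₁ hW₁
  obtain ⟨m, hm, h5⟩ := KI.P_pow hT hW₂ hd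
  refine mem_of_odd hm h2 (hWk _ ?_)
  obtain ⟨g', hg', h6⟩ := h3 _ (h4 _ h5)
  have h7 : iK K g' = iK K (g ^ m) := by
    rw [h6, map_pow, map_pow, hgd]
  rw [← I.two.inj h7]
  exact hg'

/-- THE COMPARISON. -/
theorem comm_iffX (I : InX.{u, w} c κ T P N₀ iv ivF tr)
    (hρ : Gn.ConjDual 2 N₀ (inT K T) (Parity.cyclo E) κ ρ b) (hl : Lat b l t L₀)
    (hst : ∀ g, ∀ x ∈ L₀, ρ g *ᵥ x ∈ L₀) {C : MN L₀ l 1 → MN L₀ l 1}
    {F : Type*} [Field F] [Finite F] [CharP F 2] [Algebra (ZMod 2) F] [Algebra (OE E) F] {m : ℕ}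
    [KT.Sy F m] {Lc : MN L₀ l 1 ≃+ (Fin m → F)}
    {A : (AlgebraicClosure K ≃+* AlgebraicClosure K) →* Matrix (Fin m) (Fin m) F}
    (hc : Crd (iK K) c (OE E) (actN l 1 (fun g => ρ g) hst) (bN hl 1) C Lc A) {p : T}
    {a : HQ c P (some (some p)) → ℤ_[2]}
    {σ τ : HQ c P (some (some p))} {q : ℕ}
    (hT : TameF (SQ c P (N₀.map (iK K)) (some (some p))) (fun d => cyQ (jQ c P (some (some p)) d))
      a σ τ q ((inr (P p)).subgroupOf (stb (P p)))) (hI : inr (P p) ≤ (iK K).range) :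
    (∀ g : HQ c P (some (some p)), g ∈ (inr (P p)).subgroupOf (stb (P p)) →
      ∀ k : HQ c P (some (some p)), k ∈ (inr (P p)).subgroupOf (stb (P p)) →
      A (jQ c P (some (some p)) g) * A (jQ c P (some (some p)) k) =
        A (jQ c P (some (some p)) k) * A (jQ c P (some (some p)) g)) ↔
      Parity.CommOn ((P p).inertia (AbsGal K)) ρ := by
  constructor
  · intro hcom g hg k hk
    obtain ⟨g', hg', hgg⟩ : ∃ i : HQ c P (some (some p)), i ∈ (inr (P p)).subgroupOf (stb (P p)) ∧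
      iK K g = jQ c P (some (some p)) i := (inr_iff (c := c) p).2 hg
    obtain ⟨k', hk', hkk⟩ : ∃ i : HQ c P (some (some p)), i ∈ (inr (P p)).subgroupOf (stb (P p)) ∧
      iK K k = jQ c P (some (some p)) i := (inr_iff (c := c) p).2 hk
    have h1 : A (iK K (g * k * (k * g)⁻¹)) = 1 := by
      have h2 : A (iK K (g * k)) = A (iK K (k * g)) := by
        rw [map_mul, map_mul, map_mul, map_mul, hgg, hkk]
        exact hcom g' hg' k' hk'
      rw [map_mul, map_mul, h2, ← map_mul, ← map_mul, mul_inv_cancel, map_one, map_one]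
    have h3 : ∀ m : MN L₀ l 1, actN l 1 (fun g => ρ g) hst (g * k * (k * g)⁻¹) m = m := by
      intro m
      apply Lc.injective
      rw [← hc.ae, h1, one_mulVec]
    have h4 : (g' * k') * (k' * g')⁻¹ ∈ hT.P := by
      have e1 : (g' * k') * (k' * g')⁻¹ ∈ (inr (P p)).subgroupOf (stb (P p)) :=
        mul_mem (mul_mem hg' hk') (inv_mem (mul_mem hk' hg'))
      refine ⟨hT.Iχ _ e1, ?_⟩
      have e2 : a (g' * k') = a ((g' * k') * (k' * g')⁻¹) + a (k' * g') := by
        conv_lhs => rw [← inv_mul_cancel_right (g' * k') (k' * g')]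
        rw [hT.coc, hT.Iχ _ e1, one_mul]
      rw [hT.coc, hT.coc k', hT.Iχ _ hg', hT.Iχ _ hk', one_mul, one_mul] at e2
      linear_combination -e2
    have h5 : iK K (g * k * (k * g)⁻¹) = jQ c P (some (some p)) ((g' * k') * (k' * g')⁻¹) := by
      rw [map_mul, map_inv, map_mul, map_mul, hgg, hkk]
      rfl
    have h6 := one_of_levX I hρ hl hst hT h5 h4 h3
    have h7 : ρ (g * k) = ρ (g * k * (k * g)⁻¹) * ρ (k * g) := by
      rw [← map_mul, inv_mul_cancel_right]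
    rw [h6, one_mul, map_mul, map_mul] at h7
    exact h7
  · intro hcom g' hg' k' hk'
    obtain ⟨g, hg⟩ := hI (x := jQ c P (some (some p)) g') hg'
    obtain ⟨k, hk⟩ := hI (x := jQ c P (some (some p)) k') hk'
    have h1 : g ∈ (P p).inertia (AbsGal K) := (inr_iff (c := c) p).1 ⟨g', hg', hg⟩
    have h2 : k ∈ (P p).inertia (AbsGal K) := (inr_iff (c := c) p).1 ⟨k', hk', hk⟩
    have h3 : ρ (g * k) = ρ (k * g) := by
      rw [map_mul, map_mul]
      exact hcom g h1 k h2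
    have h4 : A (iK K (g * k)) = A (iK K (k * g)) := by
      apply Matrix.toLin'.injective
      refine LinearMap.ext fun x => ?_
      rw [Matrix.toLin'_apply, Matrix.toLin'_apply]
      obtain ⟨m, rfl⟩ := Lc.surjective x
      rw [hc.ae, hc.ae]
      congr 1
      apply Subtype.ext
      rw [GP.coe_actN, GP.coe_actN]
      show actQ L₀ (ρ (g * k)) _ = actQ L₀ (ρ (k * g)) _
      rw [h3]
    rw [map_mul, map_mul, map_mul, map_mul, hg, hk] at h4
    exact h4

variable [IsLocalRing (OE E)] [Finite (IsLocalRing.ResidueField (OE E))]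
  [CharP (IsLocalRing.ResidueField (OE E)) 2] [Algebra (ZMod 2) (IsLocalRing.ResidueField (OE E))]

/-- the contribution of an inert prime number, in terms of the level one -/
theorem locX_inr0 (I : InX.{u, w} c κ T P N₀ iv ivF tr)
    (hρ : Gn.ConjDual 2 N₀ (inT K T) (Parity.cyclo E) κ ρ b) (hl : Lat b l t L₀)
    (hst : ∀ g, ∀ x ∈ L₀, ρ g *ᵥ x ∈ L₀) {C : MN L₀ l 1 → MN L₀ l 1} {p : T}
    (hIr : inr (P p) ≤ (iK K).range) {g₀ : AbsGal K} (hg₀ : iK K g₀ * c ∈ stb (P p))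
    (L₂ : Submodule E (stb (P 2) → Fin (n + n) → E)) {δ : ℕ}
    (hδ : ∀ (m : ℕ) (_ : Sy (IsLocalRing.ResidueField (OE E)) m)
      (Lc : MN L₀ l 1 ≃+ (Fin m → IsLocalRing.ResidueField (OE E)))
      (A : (AlgebraicClosure K ≃+* AlgebraicClosure K) →*
        Matrix (Fin m) (Fin m) (IsLocalRing.ResidueField (OE E))),
      Crd (iK K) c (OE E) (actN l 1 (fun g => ρ g) hst) (bN hl 1) C Lc A →
      ∀ (a : stb (P p) → ℤ_[2]) (σ τ τ' : stb (P p)),
        TameF (big (fullC (stb (P p))) ((N₀.map (iK K)).subgroupOf (stb (P p))))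
          (fun d : stb (P p) => cyQ (d : AlgebraicClosure K ≃+* AlgebraicClosure K)) a σ τ p
          ((inr (P p)).subgroupOf (stb (P p))) →
        τ' ∈ (inr (P p)).subgroupOf (stb (P p)) → PadicInt.toZMod (a τ') = 1 →
        Even (Module.finrank (IsLocalRing.ResidueField (OE E)) (fixv (A τ')) +
          Module.finrank (IsLocalRing.ResidueField (OE E))
            (fixS (A.comp (stb (P p)).subtype) ((inr (P p)).subgroupOf (stb (P p)))) +
          Module.finrank E (EV.VI (iK K) (stb (P p)).subtype ((inr (P p)).subgroupOf (stb (P p)))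
            (fun g => ρ g)) + δ)) :
    LocX c κ P N₀ ivF hl hst C (some (some p)) (famX c κ T P N₀ ρ L₂ (some (some p))) δ := by
  have hfin : Finite (MN L₀ l 1) := GP.MN_finite hl 1
  have hs : SDualF (big (fullK (K := K) T) N₀) cyc κ ∅ (OE E) (actN l 1 (fun g => ρ g) hst)
      (bN hl 1) := sdualF_MN hl (I.toArX.rep hρ hst) (fun p hp => absurd hp (Set.notMem_empty p)) 1
  have hpl := I.plQ (some (some p))
  have hlag := lag_YM I.two chi (chic I.two) I.glob.glob.char.mul hl (I.toArX.rep hρ hst)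
    (I.toArX.qrep hρ hl hst I.glob.glob.char.mul) (lag_odd I hρ hl hst 1 p)
  have hN := I.norQ
  have hNn : ((N₀.map (iK K)).subgroupOf (stb (P p))).Normal := inferInstance
  obtain ⟨a, σ, τ, hT⟩ := QL.exists_tameQ_big (HP.alg_closure K) (I.prime p) (I.odd p) (I.isPrime p)
    (I.natMem p) ((N₀.map (iK K)).subgroupOf (stb (P p)))
  have hI : ∀ i ∈ (inr (P p)).subgroupOf (stb (P p)), ∃ g, iK K g = (stb (P p)).subtype i :=
    fun i hi => hIr hi
  have hεI : ∀ d ∈ (inr (P p)).subgroupOf (stb (P p)), ep (iK K) ((stb (P p)).subtype d) = 0 :=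
    fun d hd => (ep_zero _).2 (hIr hd)
  obtain ⟨d₁, hd₁⟩ : ∃ d₁ : stb (P p), ep (iK K) (d₁ : AlgebraicClosure K ≃+* AlgebraicClosure K) = 1 :=
    ⟨⟨iK K g₀ * c, hg₀⟩, if_neg fun h => by
      obtain ⟨m, hm⟩ := h
      exact I.two.out g₀ m hm⟩
  have heh : (fun d : stb (P p) => ep (iK K) (d : AlgebraicClosure K ≃+* AlgebraicClosure K)) ∈
      homs (fsys (stb (P p))) (⊤ : Subgroup (stb (P p))) := by
    rw [← KR.two_fullC]
    exact ep_homs I.two I.unr (stb (P p))
  obtain ⟨ψ, hψ, hψI, hv⟩ := exists_psi I.qdat p (I.locF (some p)) heh hεI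
    ⟨d₁, by rw [hd₁]; exact one_ne_zero⟩
  have hq := I.toArX.qrep hρ hl hst I.glob.glob.char.mul
  have hr := QW.locRep_res hq.rep (GA.jsmQ c P (N₀.map (iK K)) (some (some p)))
  -- the action on the level one
  have hqm := hpl.qm hs
  have hact0 : ∀ (d : stb (P p)) (m : MN (T2 L₀) l 1),
      (isoN L₀ l 1).toAddEquiv (actN l 1 (fun d : stb (P p) => rho2 (iK K) c κ (fun g => ρ g) d)
        hr.st d m) = ac2 (iK K) c κ (actN l 1 (fun g => ρ g) hst) d ((isoN L₀ l 1).toAddEquiv m) :=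
    fun d m => iso_act I.two hst hq.rep.st _ m
  have hqN := (QV.qm_N hq I.glob.glob.char 1).comp (GA.jsmQ c P (N₀.map (iK K)) (some (some p)))
  have act0 : IsAct (actN l 1 (fun d : stb (P p) => rho2 (iK K) c κ (fun g => ρ g) d) hr.st) :=
    hqN.act
  have lin0 : ∀ (g : stb (P p)) (a : OE E) (m : MN (T2 L₀) l 1),
      actN l 1 (fun d : stb (P p) => rho2 (iK K) c κ (fun g => ρ g) d) hr.st g (a • m) =
        a • actN l 1 (fun d : stb (P p) => rho2 (iK K) c κ (fun g => ρ g) d) hr.st g m :=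
    hqN.lin
  obtain ⟨W, hW, hW1⟩ := GA.jsmQ c P (N₀.map (iK K)) (some (some p)) _ I.memQ
  have hinQ := EV.inert_Q (e := iK K) (κ := κ) (c := c) (HP.alg_closure K) (I.prime p) (I.odd p)
    (I.isPrime p) (I.natMem p) hNn (I.opnL (some p)) I.two hl hst hr hI hW (fun d hd => by
      obtain ⟨g, -, hg⟩ := hW1 d hd
      exact ⟨g, hg⟩) ⟨d₁, fun h1 => by
        exact one_ne_zero (hd₁.symm.trans ((ep_zero _).2 h1))⟩ act0
  have hfinY : Finite (YM L₀ l (famX c κ T P N₀ ρ L₂ (some (some p)))) := by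
    have h1 := (hpl.ldM hs).fin
    exact Finite.of_injective (fun x => (⟨x.1, hlag.coc _ x.2⟩ : {x // Z1 _ _ x}))
      fun x y hxy => Subtype.ext (congrArg (fun z => z.1) hxy)
  have e1 := card_zur_tra (T := big (fullC (stb (P p))) ((N₀.map (iK K)).subgroupOf (stb (P p))))
    (In := (inr (P p)).subgroupOf (stb (P p))) (siso_iso L₀ l) hact0 act0 lin0 hqm.act hqm.lin
    (lamN (T2 L₀) l 1 (famX c κ T P N₀ ρ L₂ (some (some p))))
  have e2 := rel_card (zur (big (fullC (stb (P p))) ((N₀.map (iK K)).subgroupOf (stb (P p))))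
    ((inr (P p)).subgroupOf (stb (P p))) act0)
    (lamN (T2 L₀) l 1 (famX c κ T P N₀ ρ L₂ (some (some p)))).toAddSubgroup
  refine locM_inert hpl hs hT hI (fun g h => hψ.2.2 g trivial h trivial) (homs_sm1 hψ _) hψI hv hT.τI
    (by rw [hT.τa, map_one]) hqm.act hqm.lin hfinY ?_ hinQ fun m iS Lc A hc =>
      hδ m iS Lc A hc a σ τ τ hT hT.τI (by rw [hT.τa, map_one])
  rw [card_YM]
  exact (congrArg (· * _) e1).trans e2

open scoped Classical in
/-- THE CONTRIBUTION OF AN INERT PRIME NUMBER. -/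
theorem locX_inr (I : InX.{u, w} c κ T P N₀ iv ivF tr)
    (hρ : Gn.ConjDual 2 N₀ (inT K T) (Parity.cyclo E) κ ρ b) (hl : Lat b l t L₀)
    (hst : ∀ g, ∀ x ∈ L₀, ρ g *ᵥ x ∈ L₀) {C : MN L₀ l 1 → MN L₀ l 1} (hn : Even n) {p : T}
    (hIr : inr (P p) ≤ (iK K).range) {g₀ : AbsGal K} (hg₀ : iK K g₀ * c ∈ stb (P p))
    (hcn : Parity.CommOn ((P p).inertia (AbsGal K)) ρ ∨ n = 2)
    (L₂ : Submodule E (stb (P 2) → Fin (n + n) → E)) :
    LocX c κ P N₀ ivF hl hst C (some (some p)) (famX c κ T P N₀ ρ L₂ (some (some p)))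
      (Parity.condExp ((P p).inertia (AbsGal K)) ρ) := by
  refine locX_inr0 I hρ hl hst hIr hg₀ L₂ fun m iS Lc A hc a σ τ τ' hT hτ' hodd => ?_
  have hfin : Finite (MN L₀ l 1) := GP.MN_finite hl 1
  have hs : SDualF (big (fullK (K := K) T) N₀) cyc κ ∅ (OE E) (actN l 1 (fun g => ρ g) hst)
      (bN hl 1) := sdualF_MN hl (I.toArX.rep hρ hst) (fun p hp => absurd hp (Set.notMem_empty p)) 1
  have hmn : m = n := by
    have h1 := KR.card_MN hl 1
    rw [KI.card_of_iso (F := IsLocalRing.ResidueField (OE E)) (Nat.card_congr Lc.toEquiv),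
      one_mul] at h1
    exact Nat.pow_right_injective
      (Finite.one_lt_card : 1 < Nat.card (IsLocalRing.ResidueField (OE E))) h1
  subst hmn
  have hcomm := comm_iffX I hρ hl hst hc (p := p) hT hIr
  have hsm : Smooth (big (fullC (stb (P p))) ((N₀.map (iK K)).subgroupOf (stb (P p))))
      (KT.act (A.comp (stb (P p)).subtype : stb (P p) → Matrix (Fin m) (Fin m)
        (IsLocalRing.ResidueField (OE E)))) := by
    obtain ⟨W, hW, hW'⟩ := hs.sm
    obtain ⟨W₁, hW₁, h3⟩ := I.up hW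
    obtain ⟨W₂, hW₂, h4⟩ := I.jsm (some (some p)) W₁ hW₁
    refine ⟨W₂, hW₂, fun d hd u => ?_⟩
    obtain ⟨g, hg, h6⟩ := h3 _ (h4 _ hd)
    obtain ⟨y, rfl⟩ := Lc.surjective u
    show A (d : AlgebraicClosure K ≃+* AlgebraicClosure K) *ᵥ Lc y = Lc y
    have h7 : (d : AlgebraicClosure K ≃+* AlgebraicClosure K) = iK K g := h6.symm
    rw [h7, hc.ae, hW' g hg]
  have h1 := KI.fix_par (A := A.comp (stb (P p)).subtype) hT hsm (fun g => hc.sp _)
    (hcn.imp (fun h2 => hcomm.2 h2) id) hτ' hodd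
  have h2 : Module.finrank E (EV.VI (iK K) (stb (P p)).subtype
      ((inr (P p)).subgroupOf (stb (P p))) (fun g => ρ g)) =
      Module.finrank E (Parity.fixedBy (fun σ : (P p).inertia (AbsGal K) => ρ σ)) := by
    have h3 := VI_eq (c := c) (P := P) p (fun g => ρ g)
    exact congrArg (fun W : Submodule E (Fin m → E) => Module.finrank E W) h3
  have h4 : Module.finrank E (Parity.fixedBy (fun σ : (P p).inertia (AbsGal K) => ρ σ)) ≤ m := by
    have h5 := GP.finrank_cob (fun σ : (P p).inertia (AbsGal K) => ρ σ)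
    omega
  have h5 : (if ∀ g ∈ (inr (P p)).subgroupOf (stb (P p)), ∀ k ∈ (inr (P p)).subgroupOf (stb (P p)),
      A.comp (stb (P p)).subtype g * A.comp (stb (P p)).subtype k =
        A.comp (stb (P p)).subtype k * A.comp (stb (P p)).subtype g then 0 else 1 : ℕ) =
      if Parity.CommOn ((P p).inertia (AbsGal K)) ρ then 0 else 1 :=
    if_congr hcomm rfl rfl
  rw [h5] at h1
  rw [h2]
  unfold Parity.condExp
  have h6 : Module.finrank (IsLocalRing.ResidueField (OE E))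
      (fixv (A.comp (stb (P p)).subtype τ')) =
    Module.finrank (IsLocalRing.ResidueField (OE E))
      (fixv (A (τ' : AlgebraicClosure K ≃+* AlgebraicClosure K))) := rfl
  rw [h6] at h1
  obtain ⟨a₁, ha₁⟩ := h1
  obtain ⟨a₂, ha₂⟩ := hn
  generalize (if Parity.CommOn ((P p).inertia (AbsGal K)) ρ then 0 else 1 : ℕ) = x at ha₁ ⊢
  refine ⟨a₁ + a₂, ?_⟩
  omega

end Pool.Agent.Work.MP_787500_nt.QX
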