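import Mathlib
import Pool.Agent.Work.MP_787500_nt.QX.FDefs

/-!
Parity of Selmer groups with an arbitrary self-annihilating condition at the prime 2 if it does not split: definitions
used in the statement of the theorem. The other definitions are in `PA/ParityDefs.lean` and `QX/FDefs.lean`.
-/

set_option autoImplicit false

namespace Pool.Agent.Work.MP_787500_nt.Parity

open Matrix NumberField

section group

variable {G : Type*} [Group G] [TopologicalSpace G] {E : Type*} [NormedField E] {n : ℕ}

/-- the continuous cocycles of `G` that are coboundaries on the subgroups in `N` and whose restriction to `D` is in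
`L` -/
def selmerAt (N : Set (Subgroup G)) (ρ : G →* Matrix (Fin n) (Fin n) E) (D : Subgroup G)
    (L : Submodule E (D → Fin n → E)) : Submodule E (G → Fin n → E) where
  carrier := {x | IsCocycle ρ x ∧ (∀ I ∈ N, ∃ v, ∀ σ ∈ I, x σ = ρ σ *ᵥ v - v) ∧ (fun σ : D => x σ) ∈ L}
  add_mem' := by
    rintro x y ⟨h1, h2, h3⟩ ⟨k1, k2, k3⟩
    refine ⟨h1.add k1, fun I hI => ?_, L.add_mem h3 k3⟩
    obtain ⟨v, hv⟩ := h2 I hI
    obtain ⟨w, hw⟩ := k2 I hI
    refine ⟨v + w, fun σ hσ => ?_⟩
    rw [Pi.add_apply, hv σ hσ, hw σ hσ, mulVec_add]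
    abel
  zero_mem' := ⟨IsCocycle.zero _, fun I _ => ⟨0, fun σ _ => by simp⟩, L.zero_mem⟩
  smul_mem' := by
    rintro a x ⟨h1, h2, h3⟩
    refine ⟨h1.smul a, fun I hI => ?_, L.smul_mem a h3⟩
    obtain ⟨v, hv⟩ := h2 I hI
    refine ⟨a • v, fun σ hσ => ?_⟩
    rw [Pi.smul_apply, hv σ hσ, mulVec_smul, smul_sub]

/-- Greenberg's condition: the continuous cocycles of `D` that are coboundaries modulo `W` -/
def greenbergAt (ρ : G →* Matrix (Fin n) (Fin n) E) (D : Subgroup G) (W : Submodule E (Fin n → E)) :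
    Submodule E (D → Fin n → E) where
  carrier := {x | IsCocycle (fun σ : D => ρ σ) x ∧ ∃ v, ∀ σ : D, x σ - (ρ σ *ᵥ v - v) ∈ W}
  add_mem' := by
    rintro x y ⟨h1, v, h3⟩ ⟨k1, w, k3⟩
    refine ⟨h1.add k1, v + w, fun σ => ?_⟩
    have h : (x + y) σ - (ρ σ *ᵥ (v + w) - (v + w)) =
        (x σ - (ρ σ *ᵥ v - v)) + (y σ - (ρ σ *ᵥ w - w)) := by
      rw [Pi.add_apply, mulVec_add]
      abel
    rw [h]
    exact W.add_mem (h3 σ) (k3 σ)
  zero_mem' := ⟨IsCocycle.zero _, 0, fun σ => by simp⟩
  smul_mem' := by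
    rintro a x ⟨h1, v, h3⟩
    refine ⟨h1.smul a, a • v, fun σ => ?_⟩
    have h : (a • x) σ - (ρ σ *ᵥ (a • v) - a • v) = a • (x σ - (ρ σ *ᵥ v - v)) := by
      rw [Pi.smul_apply, mulVec_smul]
      module
    rw [h]
    exact W.smul_mem a (h3 σ)

/-- `L` lies between the coboundaries and the continuous cocycles of `D`, and it is its own annihilator: a continuous
cocycle `y` of `D` is in `L` if and only if for all `x` in `L` the cup product of `x` and of the conjugate cocycle
`σ ↦ A (y (k σ))` given by `b` is the coboundary of a continuous function. -/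
def IsSelfPerp (χ : G → E) (κ : G → G) (ρ : G →* Matrix (Fin n) (Fin n) E)
    (b : Matrix (Fin n) (Fin n) E) (D : Subgroup G) (A : Matrix (Fin n) (Fin n) E) (k : D → D)
    (L : Submodule E (D → Fin n → E)) : Prop :=
  Between (coboundaries (fun σ : D => ρ σ)) L (cocycles (fun σ : D => ρ σ)) ∧
    ∀ y ∈ cocycles (fun σ : D => ρ σ), y ∈ L ↔
      IsPerp (fun σ : D => χ σ) (fun σ : D => ρ (κ σ)) b L (fun σ => A *ᵥ y (k σ))

/-- For every `L` as in `IsSelfPerp`: `L` and the Selmer group are finite dimensional, the Selmer group contains the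
coboundaries, and its dimension modulo the coboundaries plus the dimension of the space of vectors fixed by `G` is
congruent modulo 2 to `n / 2`, plus the dimension of the space of vectors of the quotient by `W` fixed by `D`, plus
the codimension in `L` of the cocycles in `L` that satisfy Greenberg's condition, plus `a`. -/
def ParitySelf (N : Set (Subgroup G)) (χ : G → E) (κ : G → G) (ρ : G →* Matrix (Fin n) (Fin n) E)
    (b : Matrix (Fin n) (Fin n) E) (D : Subgroup G) (A : Matrix (Fin n) (Fin n) E) (k : D → D)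
    (W : Submodule E (Fin n → E)) (a : ℕ) : Prop :=
  ∀ L : Submodule E (D → Fin n → E), IsSelfPerp χ κ ρ b D A k L →
    FiniteDimensional E L ∧ FiniteDimensional E (selmerAt N ρ D L) ∧
    coboundaries ρ ≤ selmerAt N ρ D L ∧
    dimModulo (selmerAt N ρ D L) (coboundaries ρ) +
        Module.finrank E (fixedBy (fun σ : G => ρ σ)) ≡
      n / 2 + (Module.finrank E (fixedModulo (fun σ : D => ρ σ) W) - Module.finrank E W) +
        dimModulo L (L ⊓ greenbergAt ρ D W) + a [MOD 2]

end group

end Pool.Agent.Work.MP_787500_nt.Parity
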