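import Mathlib
import Pool.Agent.Work.MP_787500_nt.QX.FDefs
import Pool.Agent.Work.MP_787500_nt.QG.Ext

/-!
The parity statement `ParityGreenberg` over `E (√l)` implies the parity statement over `E`.

* `extV`: the scalar extension of a subspace of `E ^ n`.
* `extV_st`, `extV_iso`, `finrank_extV`: stability, isotropy, dimension.
* `parityG_ext`: THE DESCENT.
-/

set_option autoImplicit false
set_option linter.unusedSectionVars false

namespace Pool.Agent.Work.MP_787500_nt.QX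

open Matrix
open Pool.Agent.Work.MP_787500_nt.PA (toE)
open Pool.Agent.Work.MP_787500_nt.GP
open Pool.Agent.Work.MP_787500_nt.LX

variable {E E' : Type*} [NormedField E] [NormedAlgebra ℚ_[2] E] [FiniteDimensional ℚ_[2] E]
  [NormedField E'] [NormedAlgebra ℚ_[2] E'] [FiniteDimensional ℚ_[2] E'] {ι : E →ₐ[ℚ_[2]] E'}
  {l : E} {m : E'} {n : ℕ} {G : Type*} [Group G] [TopologicalSpace G]

private theorem map_mulVec' (A : Matrix (Fin n) (Fin n) E) (x y : Fin n → E) :
    (A.map ι) *ᵥ (fun i => ι (x i) + ι (y i) * m) =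
      fun i => ι ((A *ᵥ x) i) + ι ((A *ᵥ y) i) * m := by
  funext i
  simp only [mulVec, dotProduct, Matrix.map_apply, map_sum, map_mul, mul_add,
    Finset.sum_add_distrib, Finset.sum_mul, mul_assoc]

private theorem pr_inj (h : SqrtExt ι l m) (hl0 : l ≠ 0) {x y x' y' : Fin n → E}
    (e : (fun i => ι (x i) + ι (y i) * m) = fun i => ι (x' i) + ι (y' i) * m) :
    x = x' ∧ y = y' :=
  ⟨funext fun i => (h.inj hl0 (congrFun e i)).1, funext fun i => (h.inj hl0 (congrFun e i)).2⟩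

/-- the scalar extension of a subspace -/
def extV (h : SqrtExt ι l m) (W : Submodule E (Fin n → E)) : Submodule E' (Fin n → E') where
  carrier := {z | ∃ x ∈ W, ∃ y ∈ W, z = fun i => ι (x i) + ι (y i) * m}
  add_mem' := by
    rintro z z' ⟨x, hx, y, hy, rfl⟩ ⟨x', hx', y', hy', rfl⟩
    refine ⟨x + x', W.add_mem hx hx', y + y', W.add_mem hy hy', funext fun i => ?_⟩
    simp only [Pi.add_apply, map_add]
    ring
  zero_mem' := ⟨0, W.zero_mem, 0, W.zero_mem, funext fun i => by simp⟩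
  smul_mem' := by
    rintro c z ⟨x, hx, y, hy, rfl⟩
    obtain ⟨p, q, hc⟩ := h.split c
    refine ⟨p • x + (q * l) • y, W.add_mem (W.smul_mem _ hx) (W.smul_mem _ hy), p • y + q • x,
      W.add_mem (W.smul_mem _ hy) (W.smul_mem _ hx), funext fun i => ?_⟩
    simp only [Pi.add_apply, Pi.smul_apply, smul_eq_mul, map_add, map_mul, ← h.sq]
    rw [hc]
    ring

theorem mem_extV (h : SqrtExt ι l m) (hl0 : l ≠ 0) (W : Submodule E (Fin n → E)) (x y : Fin n → E) :
    (fun i => ι (x i) + ι (y i) * m) ∈ extV h W ↔ x ∈ W ∧ y ∈ W := by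
  constructor
  · rintro ⟨x', hx, y', hy, hz⟩
    obtain ⟨rfl, rfl⟩ := pr_inj h hl0 hz
    exact ⟨hx, hy⟩
  · rintro ⟨hx, hy⟩
    exact ⟨x, hx, y, hy, rfl⟩

/-- the dimension -/
theorem finrank_extV (h : SqrtExt ι l m) (hl0 : l ≠ 0) (W : Submodule E (Fin n → E)) :
    Module.finrank E' (extV h W) = Module.finrank E W := by
  let W1 : Submodule E (Unit → Fin n → E) := W.comap (LinearMap.proj ())
  have h2 : Module.finrank E W1 = Module.finrank E W :=
    ((LinearEquiv.funUnique Unit E (Fin n → E)).submoduleMap W1 |>.trans (LinearEquiv.ofEq _ _ (by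
      ext v
      constructor
      · rintro ⟨x, hx, rfl⟩
        exact hx
      · intro hv
        exact ⟨fun _ => v, hv, rfl⟩))).finrank_eq
  have h3 : Module.finrank E' (extW h W1) = Module.finrank E' (extV h W) :=
    ((LinearEquiv.funUnique Unit E' (Fin n → E')).submoduleMap (extW h W1) |>.trans
      (LinearEquiv.ofEq _ _ (by
      ext v
      constructor
      · rintro ⟨z, ⟨x, hx, y, hy, hz⟩, rfl⟩
        exact ⟨x (), hx, y (), hy, funext fun i => hz () i⟩
      · rintro ⟨x, hx, y, hy, rfl⟩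
        exact ⟨fun _ i => ι (x i) + ι (y i) * m, ⟨fun _ => x, hx, fun _ => y, hy, fun _ _ => rfl⟩,
          rfl⟩))).finrank_eq
  rw [← h3, extW_finrank h hl0, h2]

/-- stability -/
theorem extV_st (h : SqrtExt ι l m) {A : Matrix (Fin n) (Fin n) E} {W : Submodule E (Fin n → E)}
    (hW : ∀ x ∈ W, A *ᵥ x ∈ W) : ∀ x ∈ extV h W, A.map ι *ᵥ x ∈ extV h W := by
  rintro _ ⟨x, hx, y, hy, rfl⟩
  rw [map_mulVec']
  exact ⟨_, hW x hx, _, hW y hy, rfl⟩

private theorem bil_ext (b : Matrix (Fin n) (Fin n) E) (x y x' y' : Fin n → E) :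
    bil (b.map ι) (fun i => ι (x i) + ι (y i) * m) (fun i => ι (x' i) + ι (y' i) * m) =
      ι (bil b x x') + ι (bil b x y') * m + (ι (bil b y x') + ι (bil b y y') * m) * m := by
  unfold bil
  rw [map_mulVec']
  simp only [dotProduct, map_sum, map_mul, Finset.sum_mul, ← Finset.sum_add_distrib]
  refine Finset.sum_congr rfl fun i _ => ?_
  ring

/-- isotropy -/
theorem extV_iso (h : SqrtExt ι l m) {b A : Matrix (Fin n) (Fin n) E} {W : Submodule E (Fin n → E)}
    (hW : ∀ x ∈ W, ∀ y ∈ W, bil b x (A *ᵥ y) = 0) :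
    ∀ x ∈ extV h W, ∀ y ∈ extV h W, bil (b.map ι) x (A.map ι *ᵥ y) = 0 := by
  rintro _ ⟨x, hx, y, hy, rfl⟩ _ ⟨x', hx', y', hy', rfl⟩
  rw [map_mulVec', bil_ext, hW x hx x' hx', hW x hx y' hy', hW y hy x' hx', hW y hy y' hy',
    map_zero, zero_mul, add_zero, zero_mul, add_zero]

private theorem cobM_iff (h : SqrtExt ι l m) (hl0 : l ≠ 0) {X : Type*}
    (A : X → Matrix (Fin n) (Fin n) E) (W : Submodule E (Fin n → E)) (x y : X → Fin n → E) :
    (∃ v : Fin n → E', ∀ t, (fun i => ι (x t i) + ι (y t i) * m) - ((A t).map ι *ᵥ v - v) ∈ extV h W) ↔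
      (∃ v, ∀ t, x t - (A t *ᵥ v - v) ∈ W) ∧ ∃ v, ∀ t, y t - (A t *ᵥ v - v) ∈ W := by
  have key : ∀ (v w : Fin n → E) (t : X), (fun i => ι (x t i) + ι (y t i) * m) -
      ((A t).map ι *ᵥ (fun i => ι (v i) + ι (w i) * m) - (fun i => ι (v i) + ι (w i) * m)) =
      fun i => ι ((x t - (A t *ᵥ v - v)) i) + ι ((y t - (A t *ᵥ w - w)) i) * m := by
    intro v w t
    rw [map_mulVec']
    funext i
    simp only [Pi.sub_apply, map_sub]
    ring
  constructor
  · rintro ⟨v', hv'⟩
    choose v w hvw using fun i => h.split (v' i)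
    have e : v' = fun i => ι (v i) + ι (w i) * m := funext hvw
    have h1 : ∀ t, x t - (A t *ᵥ v - v) ∈ W ∧ y t - (A t *ᵥ w - w) ∈ W := by
      intro t
      have h2 := hv' t
      rw [e, key, mem_extV h hl0] at h2
      exact h2
    exact ⟨⟨v, fun t => (h1 t).1⟩, ⟨w, fun t => (h1 t).2⟩⟩
  · rintro ⟨⟨v, hv⟩, ⟨w, hw⟩⟩
    refine ⟨fun i => ι (v i) + ι (w i) * m, fun t => ?_⟩
    rw [key, mem_extV h hl0]
    exact ⟨hv t, hw t⟩

private theorem coc_iff (h : SqrtExt ι l m) (hl0 : l ≠ 0)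
    (A : G → Matrix (Fin n) (Fin n) E) (x y : G → Fin n → E) :
    Parity.IsCocycle (fun t => (A t).map ι) (fun t i => ι (x t i) + ι (y t i) * m) ↔
      Parity.IsCocycle A x ∧ Parity.IsCocycle A y := by
  obtain ⟨re, im, hre, him, -, hre1, him1, -⟩ := h.exists_coord hl0
  have key : ∀ (v w v' w' : Fin n → E) (t : G), (fun i => ι (v i) + ι (w i) * m) +
      (A t).map ι *ᵥ (fun i => ι (v' i) + ι (w' i) * m) =
      fun i => ι ((v + A t *ᵥ v') i) + ι ((w + A t *ᵥ w') i) * m := by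
    intro v w v' w' t
    rw [map_mulVec']
    funext i
    simp only [Pi.add_apply, map_add]
    ring
  constructor
  · rintro ⟨hc, hz⟩
    have h1 : ∀ s t, x (s * t) = x s + A s *ᵥ x t ∧ y (s * t) = y s + A s *ᵥ y t := by
      intro s t
      refine pr_inj h hl0 ?_
      rw [← key]
      exact hz s t
    have hci : ∀ i, Continuous fun t => ι (x t i) + ι (y t i) * m := fun i =>
      (continuous_apply i).comp hc
    refine ⟨⟨continuous_pi fun i => ?_, fun s t => (h1 s t).1⟩,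
      ⟨continuous_pi fun i => ?_, fun s t => (h1 s t).2⟩⟩
    · have h2 := hre.comp (hci i)
      refine h2.congr fun t => ?_
      exact hre1 _ _
    · have h2 := him.comp (hci i)
      refine h2.congr fun t => ?_
      exact him1 _ _
  · rintro ⟨⟨hx, hx'⟩, ⟨hy, hy'⟩⟩
    refine ⟨continuous_pi fun i => ?_, fun s t => ?_⟩
    · exact (h.cont.comp ((continuous_apply i).comp hx)).add
        ((h.cont.comp ((continuous_apply i).comp hy)).mul continuous_const)
    · show (fun i => ι (x (s * t) i) + ι (y (s * t) i) * m) = _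
      rw [key, hx', hy']

private theorem eq_extW (h : SqrtExt ι l m) (hl0 : l ≠ 0) {X : Type*}
    {W : Submodule E (X → Fin n → E)} {W' : Submodule E' (X → Fin n → E')}
    (hW : ∀ x y, (fun t i => ι (x t i) + ι (y t i) * m) ∈ W' ↔ x ∈ W ∧ y ∈ W) :
    W' = extW h W := by
  ext z
  choose x y hz using fun t i => h.split (z t i)
  have e : z = fun t i => ι (x t i) + ι (y t i) * m := funext fun t => funext fun i => hz t i
  rw [e, hW, pair_mem h hl0]

private theorem cob_iff (h : SqrtExt ι l m) (hl0 : l ≠ 0) {X : Type*}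
    (A : X → Matrix (Fin n) (Fin n) E) (x y : X → Fin n → E) :
    (∃ v : Fin n → E', ∀ t, (fun i => ι (x t i) + ι (y t i) * m) = (A t).map ι *ᵥ v - v) ↔
      (∃ v, ∀ t, x t = A t *ᵥ v - v) ∧ ∃ v, ∀ t, y t = A t *ᵥ v - v := by
  have h1 := cobM_iff h hl0 A ⊥ x y
  have h2 : ∀ z : Fin n → E', z ∈ extV h (⊥ : Submodule E (Fin n → E)) ↔ z = 0 := by
    intro z
    constructor
    · rintro ⟨x, hx, y, hy, rfl⟩
      rw [Submodule.mem_bot] at hx hy
      rw [hx, hy]
      funext i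
      simp
    · rintro rfl
      exact Submodule.zero_mem _
  simp only [h2, Submodule.mem_bot, sub_eq_zero] at h1
  exact h1

/-- the vectors fixed modulo the subspace -/
theorem fixedModulo_ext (h : SqrtExt ι l m) (hl0 : l ≠ 0) {X : Type*}
    (A : X → Matrix (Fin n) (Fin n) E) (W : Submodule E (Fin n → E)) :
    Parity.fixedModulo (fun t => (A t).map ι) (extV h W) = extV h (Parity.fixedModulo A W) := by
  have key : ∀ (v w : Fin n → E) (t : X), (A t).map ι *ᵥ (fun i => ι (v i) + ι (w i) * m) -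
      (fun i => ι (v i) + ι (w i) * m) =
      fun i => ι ((A t *ᵥ v - v) i) + ι ((A t *ᵥ w - w) i) * m := by
    intro v w t
    rw [map_mulVec']
    funext i
    simp only [Pi.sub_apply, map_sub]
    ring
  ext z
  choose v w hvw using fun i => h.split (z i)
  have e : z = fun i => ι (v i) + ι (w i) * m := funext hvw
  rw [e, mem_extV h hl0]
  constructor
  · intro hz
    have h1 : ∀ t, A t *ᵥ v - v ∈ W ∧ A t *ᵥ w - w ∈ W := by
      intro t
      have h2 := hz t
      rw [key, mem_extV h hl0] at h2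
      exact h2
    exact ⟨fun t => (h1 t).1, fun t => (h1 t).2⟩
  · rintro ⟨hv, hw⟩ t
    rw [key, mem_extV h hl0]
    exact ⟨hv t, hw t⟩

private theorem fixedBy_eq {F : Type*} [NormedField F] {X : Type*} (B : X → Matrix (Fin n) (Fin n) F) :
    Parity.fixedBy B = Parity.fixedModulo B ⊥ := by
  ext v
  constructor
  · intro hv t
    have h3 : B t *ᵥ v = v := hv t
    rw [h3, sub_self]
    exact Submodule.zero_mem _
  · intro hv t
    exact sub_eq_zero.1 ((Submodule.mem_bot F).1 (hv t))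

private theorem fix_finrank (h : SqrtExt ι l m) (hl0 : l ≠ 0) {X : Type*}
    (A : X → Matrix (Fin n) (Fin n) E) :
    Module.finrank E' (Parity.fixedBy fun t => (A t).map ι) =
      Module.finrank E (Parity.fixedBy A) := by
  have h2 : (⊥ : Submodule E' (Fin n → E')) = extV h (⊥ : Submodule E (Fin n → E)) := by
    symm
    rw [eq_bot_iff]
    rintro z ⟨x, hx, y, hy, rfl⟩
    rw [Submodule.mem_bot] at hx hy ⊢
    rw [hx, hy]
    funext i
    simp
  rw [fixedBy_eq, fixedBy_eq, h2, fixedModulo_ext h hl0, finrank_extV h hl0]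

/-- THE DESCENT. -/
theorem parityG_ext (h : SqrtExt ι l m) (hl0 : l ≠ 0) {N : Set (Subgroup G)}
    {ρ : G →* Matrix (Fin n) (Fin n) E} {D : Subgroup G} {W : Submodule E (Fin n → E)} {a : ℕ}
    (hp : Parity.ParityGreenberg N (mapRep ι ρ) D (extV h W) a) :
    Parity.ParityGreenberg N ρ D W a := by
  have c3 : Parity.coboundaries (mapRep ι ρ) = extW h (Parity.coboundaries ρ) :=
    eq_extW h hl0 fun x y => cob_iff h hl0 (fun σ : G => ρ σ) x y
  have c4 : Parity.selmerGreenberg N (mapRep ι ρ) D (extV h W) =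
      extW h (Parity.selmerGreenberg N ρ D W) := by
    refine eq_extW h hl0 fun x y => ?_
    have d1 := coc_iff h hl0 (fun σ : G => ρ σ) x y
    have d2 : (∃ v : Fin n → E', ∀ σ ∈ D,
        (fun i => ι (x σ i) + ι (y σ i) * m) - (mapRep ι ρ σ *ᵥ v - v) ∈ extV h W) ↔
        (∃ v, ∀ σ ∈ D, x σ - (ρ σ *ᵥ v - v) ∈ W) ∧ ∃ v, ∀ σ ∈ D, y σ - (ρ σ *ᵥ v - v) ∈ W := by
      have h1 := cobM_iff h hl0 (fun σ : D => ρ σ) W (fun σ : D => x σ) (fun σ : D => y σ)
      simp only [Subtype.forall] at h1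
      exact h1
    have d4 : ∀ I : Subgroup G, (∃ v : Fin n → E', ∀ σ ∈ I,
        (fun i => ι (x σ i) + ι (y σ i) * m) = mapRep ι ρ σ *ᵥ v - v) ↔
        (∃ v : Fin n → E, ∀ σ ∈ I, x σ = ρ σ *ᵥ v - v) ∧
          ∃ v : Fin n → E, ∀ σ ∈ I, y σ = ρ σ *ᵥ v - v := by
      intro I
      have h1 := cob_iff h hl0 (fun σ : I => ρ σ) (fun σ : I => x σ) (fun σ : I => y σ)
      simp only [Subtype.forall] at h1
      exact h1
    constructor
    · rintro ⟨h1, h2, h3⟩
      have h1' := d1.1 h1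
      exact ⟨⟨h1'.1, fun I hI => ((d4 I).1 (h2 I hI)).1, (d2.1 h3).1⟩,
        ⟨h1'.2, fun I hI => ((d4 I).1 (h2 I hI)).2, (d2.1 h3).2⟩⟩
    · rintro ⟨⟨h1, h2, h3⟩, ⟨h1', h2', h3'⟩⟩
      exact ⟨d1.2 ⟨h1, h1'⟩, fun I hI => (d4 I).2 ⟨h2 I hI, h2' I hI⟩, d2.2 ⟨h3, h3'⟩⟩
  have c5 : Module.finrank E' (Parity.fixedBy fun σ : G => mapRep ι ρ σ) =
      Module.finrank E (Parity.fixedBy fun σ : G => ρ σ) := fix_finrank h hl0 fun σ : G => ρ σ
  have c6 : Module.finrank E' (Parity.fixedModulo (fun σ : D => mapRep ι ρ σ) (extV h W)) =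
      Module.finrank E (Parity.fixedModulo (fun σ : D => ρ σ) W) := by
    have h1 := fixedModulo_ext h hl0 (fun σ : D => ρ σ) W
    have h2 : Parity.fixedModulo (fun σ : D => mapRep ι ρ σ) (extV h W) =
        extV h (Parity.fixedModulo (fun σ : D => ρ σ) W) := h1
    rw [h2, finrank_extV h hl0]
  obtain ⟨e2, e3, e4⟩ := hp
  rw [c4] at e2 e3 e4
  rw [c3] at e3 e4
  have f2 : FiniteDimensional E (Parity.selmerGreenberg N ρ D W) := (extW_fin h hl0 _).1 e2
  have f3 : Parity.coboundaries ρ ≤ Parity.selmerGreenberg N ρ D W := by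
    intro x hx
    have h1 := (pair_mem h hl0 _ x 0).1 (e3 ((pair_mem h hl0 _ x 0).2 ⟨hx, Submodule.zero_mem _⟩))
    exact h1.1
  refine ⟨f2, f3, ?_⟩
  rw [extW_dim h hl0 f3, c5, c6, finrank_extV h hl0] at e4
  exact e4

end Pool.Agent.Work.MP_787500_nt.QX
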