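import Mathlib
import Pool.Agent.Work.MP_787500_nt.QX.Fam
import Pool.Agent.Work.MP_787500_nt.OP.Crd

/-!
# The place that does not split: the induced representation and a stable subspace

`e : G → Γ` is a subgroup of index two, `H` a subgroup of `Γ` that contains `e g₀ * c`; `Wp` is a subspace of `V` stable
under `e⁻¹ H` and isotropic for `b (x, ρ g₀⁻¹ y)`.

* `wP`: the subspace `{v | v₁ ∈ Wp, ρ g₀ v₂ ∈ Wp}` of `V × V`: stable (`wP_st`), isotropic (`wP_iso`), its dimension.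
* `cob_wP`: THE BRIDGE: a cocycle with values in `V × V` is a coboundary modulo `wP` if and only if its first component
  is a coboundary modulo `Wp` on `e⁻¹ H`.
* `finrank_fix2`: the vectors fixed modulo `wP`.
* `mem_ordX`, `finrank_KE`: the same for `OP.ordL` and `OP.KE`.
-/

set_option autoImplicit false
set_option linter.unusedSectionVars false

namespace Pool.Agent.Work.MP_787500_nt.QX

open Matrix
open Pool.Agent.Work.MP_787500_nt.GP (OE bil Lat)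
open Pool.Agent.Work.MP_787500_nt.KR (FSys ZV)
open Pool.Agent.Work.MP_787500_nt.QS (Two)
open Pool.Agent.Work.MP_787500_nt.QV (rho2 v1 v2 ap ap_ext v1_ap v2_ap v1_sub v2_sub v1_add v2_add v1_rho
  v2_rho v1_rhoc v2_rhoc bil_B blk ind ind_e ind_ec rho2_mul)
open Pool.Agent.Work.MP_787500_nt.OP (Spl ordL KE mem_ordL mem_KE)

section abs

variable {G Γ : Type*} [Group G] [Group Γ] {e : G →* Γ} {c : Γ} {κ : G →* G} {E : Type*} [NormedField E]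
  [NormedAlgebra ℚ_[2] E] {n : ℕ}
  {ρ : G →* Matrix (Fin n) (Fin n) E} {H : Subgroup Γ} {g₀ : G} {Wp : Submodule E (Fin n → E)}

/-- the subspace of `V × V` -/
def wP (ρ : G →* Matrix (Fin n) (Fin n) E) (g₀ : G) (Wp : Submodule E (Fin n → E)) :
    Submodule E (Fin (n + n) → E) where
  carrier := {v | v1 v ∈ Wp ∧ ρ g₀ *ᵥ v2 v ∈ Wp}
  add_mem' := fun {v w} hv hw => ⟨Wp.add_mem hv.1 hw.1, by
    rw [v2_add, mulVec_add]
    exact Wp.add_mem hv.2 hw.2⟩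
  zero_mem' := ⟨Wp.zero_mem, by
    have h : v2 (0 : Fin (n + n) → E) = 0 := rfl
    rw [h, mulVec_zero]
    exact Wp.zero_mem⟩
  smul_mem' := fun a v hv => ⟨Wp.smul_mem a hv.1, by
    have h : v2 (a • v) = a • v2 v := rfl
    rw [h, mulVec_smul]
    exact Wp.smul_mem a hv.2⟩

theorem mem_wP {v : Fin (n + n) → E} : v ∈ wP ρ g₀ Wp ↔ v1 v ∈ Wp ∧ ρ g₀ *ᵥ v2 v ∈ Wp := Iff.rfl

theorem rr_inv (g : G) (x : Fin n → E) : ρ g *ᵥ (ρ g⁻¹ *ᵥ x) = x := by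
  rw [mulVec_mulVec, ← map_mul, mul_inv_cancel, map_one, one_mulVec]

theorem rr_inv' (g : G) (x : Fin n → E) : ρ g⁻¹ *ᵥ (ρ g *ᵥ x) = x := by
  rw [mulVec_mulVec, ← map_mul, inv_mul_cancel, map_one, one_mulVec]

/-- the elements of `H` outside of `e G` -/
theorem out_mem (X : Two e c κ) (h0 : e g₀ * c ∈ H) {g : G} (hg : e g * c ∈ H) :
    e (g * g₀⁻¹) ∈ H ∧ e (g₀ * κ g) ∈ H := by
  have hci : c⁻¹ = c := inv_eq_of_mul_eq_one_left X.cc
  constructor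
  · have e1 : e (g * g₀⁻¹) = e g * c * (e g₀ * c)⁻¹ := by
      rw [map_mul, map_inv]
      group
    rw [e1]
    exact H.mul_mem hg (H.inv_mem h0)
  · have e1 : e (g₀ * κ g) = e g₀ * c * (e g * c) := by
      rw [map_mul, X.kap]
      group
    rw [e1]
    exact H.mul_mem h0 hg

/-- the conjugation by `e g₀ * c` -/
theorem conj_mem (X : Two e c κ) (h0 : e g₀ * c ∈ H) {g : G} (hg : e g ∈ H) :
    e (g₀ * κ g * g₀⁻¹) ∈ H := by
  have hci : c⁻¹ = c := inv_eq_of_mul_eq_one_left X.cc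
  have e1 : e (g₀ * κ g * g₀⁻¹) = e g₀ * c * e g * (e g₀ * c)⁻¹ := by
    rw [map_mul, map_mul, map_inv, X.kap, _root_.mul_inv_rev, hci]
    group
  rw [e1]
  exact H.mul_mem (H.mul_mem h0 hg) (H.inv_mem h0)

/-- `wP` is stable -/
theorem wP_st (X : Two e c κ) (h0 : e g₀ * c ∈ H) (hst : ∀ g, e g ∈ H → ∀ x ∈ Wp, ρ g *ᵥ x ∈ Wp) {d : Γ}
    (hd : d ∈ H) {v : Fin (n + n) → E} (hv : v ∈ wP ρ g₀ Wp) :
    rho2 e c κ (fun g => ρ g) d *ᵥ v ∈ wP ρ g₀ Wp := by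
  rcases X.cases d with ⟨g, rfl⟩ | ⟨g, rfl⟩
  · refine ⟨?_, ?_⟩
    · rw [v1_rho X]
      exact hst g hd _ hv.1
    · rw [v2_rho X]
      have h1 := hst _ (conj_mem X h0 hd) _ hv.2
      rw [map_mul, map_mul, ← mulVec_mulVec, ← mulVec_mulVec, rr_inv'] at h1
      exact h1
  · obtain ⟨h1, h2⟩ := out_mem X h0 hd
    refine ⟨?_, ?_⟩
    · rw [v1_rhoc X]
      have h3 := hst _ h1 _ hv.2
      rw [map_mul, ← mulVec_mulVec, rr_inv'] at h3
      exact h3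
    · rw [v2_rhoc X]
      have h3 := hst _ h2 _ hv.1
      rw [map_mul, ← mulVec_mulVec] at h3
      exact h3

/-- the dimension of `wP` -/
theorem finrank_wP : Module.finrank E (wP ρ g₀ Wp) = Module.finrank E Wp + Module.finrank E Wp := by
  let f : wP ρ g₀ Wp ≃ₗ[E] Wp × Wp :=
    { toFun := fun v => (⟨v1 v.1, v.2.1⟩, ⟨ρ g₀ *ᵥ v2 v.1, v.2.2⟩)
      map_add' := fun v w => Prod.ext (Subtype.ext rfl) (Subtype.ext (by
        show ρ g₀ *ᵥ (v2 v.1 + v2 w.1) = ρ g₀ *ᵥ v2 v.1 + ρ g₀ *ᵥ v2 w.1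
        rw [mulVec_add]))
      map_smul' := fun a v => Prod.ext (Subtype.ext rfl) (Subtype.ext (by
        show ρ g₀ *ᵥ (a • v2 v.1) = a • (ρ g₀ *ᵥ v2 v.1)
        rw [mulVec_smul]))
      invFun := fun p => ⟨ap p.1.1 (ρ g₀⁻¹ *ᵥ p.2.1), by
        rw [mem_wP, v1_ap, v2_ap, rr_inv]
        exact ⟨p.1.2, p.2.2⟩⟩
      left_inv := fun v => Subtype.ext (ap_ext (by rw [v1_ap]) (by rw [v2_ap, rr_inv']))
      right_inv := fun p => Prod.ext (Subtype.ext (v1_ap _ _)) (Subtype.ext (by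
        show ρ g₀ *ᵥ v2 (ap p.1.1 (ρ g₀⁻¹ *ᵥ p.2.1)) = p.2.1
        rw [v2_ap, rr_inv])) }
  rw [f.finrank_eq, Module.finrank_prod]

/-- THE BRIDGE. -/
theorem cob_wP (X : Two e c κ) (h0 : e g₀ * c ∈ H)
    (hst : ∀ g, e g ∈ H → ∀ x ∈ Wp, ρ g *ᵥ x ∈ Wp) {Y : Γ → Fin (n + n) → E}
    (hY : ∀ a ∈ H, ∀ d ∈ H, Y (a * d) = Y a + rho2 e c κ (fun g => ρ g) a *ᵥ Y d) :
    (∃ w, ∀ d ∈ H, Y d - (rho2 e c κ (fun g => ρ g) d *ᵥ w - w) ∈ wP ρ g₀ Wp) ↔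
      ∃ v, ∀ g, e g ∈ H → v1 (Y (e g)) - (ρ g *ᵥ v - v) ∈ Wp := by
  constructor
  · rintro ⟨w, hw⟩
    refine ⟨v1 w, fun g hg => ?_⟩
    have h1 := (hw _ hg).1
    rwa [v1_sub, v1_sub, v1_rho X] at h1
  · rintro ⟨v, hv⟩
    have hρm : ∀ a d : Γ, rho2 e c κ (fun g => ρ g) (a * d) =
        rho2 e c κ (fun g => ρ g) a * rho2 e c κ (fun g => ρ g) d := fun a d =>
      rho2_mul X (fun s t => map_mul ρ s t) a d
    obtain ⟨w, hw⟩ : ∃ w, w = ap v (ρ g₀⁻¹ *ᵥ (v1 (Y (e g₀ * c)) + v)) := ⟨_, rfl⟩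
    obtain ⟨Z, hZ⟩ : ∃ Z : Γ → Fin (n + n) → E,
      Z = fun d => Y d - (rho2 e c κ (fun g => ρ g) d *ᵥ w - w) := ⟨_, rfl⟩
    have hZd : ∀ d, Z d = Y d - (rho2 e c κ (fun g => ρ g) d *ᵥ w - w) := fun d => by rw [hZ]
    have hZc : ∀ a ∈ H, ∀ d ∈ H, Z (a * d) = Z a + rho2 e c κ (fun g => ρ g) a *ᵥ Z d := by
      intro a ha d hd
      rw [hZd, hZd, hZd, hY a ha d hd, hρm, mulVec_sub, mulVec_sub, mulVec_mulVec]
      abel
    -- the first component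
    have h1 : ∀ g, e g ∈ H → v1 (Z (e g)) ∈ Wp := by
      intro g hg
      rw [hZd, v1_sub, v1_sub, v1_rho X, hw, v1_ap]
      exact hv g hg
    have h2 : v1 (Z (e g₀ * c)) = 0 := by
      rw [hZd, v1_sub, v1_sub, v1_rhoc X, hw, v1_ap, v2_ap, rr_inv]
      abel
    have h3 : ∀ d ∈ H, v1 (Z d) ∈ Wp := by
      intro d hd
      rcases X.cases d with ⟨g, rfl⟩ | ⟨g, rfl⟩
      · exact h1 g hd
      · obtain ⟨h4, -⟩ := out_mem X h0 hd
        have e1 : e g * c = e (g * g₀⁻¹) * (e g₀ * c) := by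
          rw [map_mul, map_inv]
          group
        rw [e1, hZc _ h4 _ h0, v1_add, v1_rho X, h2, mulVec_zero, add_zero]
        exact h1 _ h4
    refine ⟨w, fun d hd => ?_⟩
    rw [← hZd]
    refine ⟨h3 d hd, ?_⟩
    have h4 := h3 _ (H.mul_mem h0 hd)
    rw [hZc _ h0 _ hd, v1_add, h2, zero_add, v1_rhoc X] at h4
    exact h4

/-- the vectors fixed modulo `Wp` by the elements of `e⁻¹ H` -/
def fix1 (e : G →* Γ) (ρ : G →* Matrix (Fin n) (Fin n) E) (H : Subgroup Γ)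
    (Wp : Submodule E (Fin n → E)) : Submodule E (Fin n → E) where
  carrier := {v | ∀ g, e g ∈ H → ρ g *ᵥ v - v ∈ Wp}
  add_mem' := fun {v w} hv hw g hg => by
    have h : ρ g *ᵥ (v + w) - (v + w) = (ρ g *ᵥ v - v) + (ρ g *ᵥ w - w) := by
      rw [mulVec_add]
      abel
    rw [h]
    exact Wp.add_mem (hv g hg) (hw g hg)
  zero_mem' := fun g _ => by
    rw [mulVec_zero, sub_zero]
    exact Wp.zero_mem
  smul_mem' := fun a v hv g hg => by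
    rw [mulVec_smul, ← smul_sub]
    exact Wp.smul_mem a (hv g hg)

/-- the vectors fixed modulo `wP` by the elements of `H` -/
def fix2 (e : G →* Γ) (c : Γ) (κ : G →* G) (ρ : G →* Matrix (Fin n) (Fin n) E) (H : Subgroup Γ) (g₀ : G)
    (Wp : Submodule E (Fin n → E)) : Submodule E (Fin (n + n) → E) where
  carrier := {v | ∀ d ∈ H, rho2 e c κ (fun g => ρ g) d *ᵥ v - v ∈ wP ρ g₀ Wp}
  add_mem' := fun {v w} hv hw d hd => by
    have h : rho2 e c κ (fun g => ρ g) d *ᵥ (v + w) - (v + w) =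
        (rho2 e c κ (fun g => ρ g) d *ᵥ v - v) + (rho2 e c κ (fun g => ρ g) d *ᵥ w - w) := by
      rw [mulVec_add]
      abel
    rw [h]
    exact (wP ρ g₀ Wp).add_mem (hv d hd) (hw d hd)
  zero_mem' := fun d _ => by
    rw [mulVec_zero, sub_zero]
    exact (wP ρ g₀ Wp).zero_mem
  smul_mem' := fun a v hv d hd => by
    rw [mulVec_smul, ← smul_sub]
    exact (wP ρ g₀ Wp).smul_mem a (hv d hd)

theorem mem_fix1 {v : Fin n → E} : v ∈ fix1 e ρ H Wp ↔ ∀ g, e g ∈ H → ρ g *ᵥ v - v ∈ Wp := Iff.rfl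

theorem mem_fix2 {v : Fin (n + n) → E} : v ∈ fix2 e c κ ρ H g₀ Wp ↔
    ∀ d ∈ H, rho2 e c κ (fun g => ρ g) d *ᵥ v - v ∈ wP ρ g₀ Wp := Iff.rfl

/-- a vector is fixed modulo `wP` if and only if `v₁` is fixed modulo `Wp` and `ρ g₀ v₂ - v₁ ∈ Wp` -/
theorem fix2_iff (X : Two e c κ) (h0 : e g₀ * c ∈ H)
    (hst : ∀ g, e g ∈ H → ∀ x ∈ Wp, ρ g *ᵥ x ∈ Wp) {v : Fin (n + n) → E} :
    v ∈ fix2 e c κ ρ H g₀ Wp ↔ v1 v ∈ fix1 e ρ H Wp ∧ ρ g₀ *ᵥ v2 v - v1 v ∈ Wp := by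
  constructor
  · intro hv
    refine ⟨fun g hg => ?_, ?_⟩
    · have h1 := (hv _ hg).1
      rwa [v1_sub, v1_rho X] at h1
    · have h1 := (hv _ h0).1
      rwa [v1_sub, v1_rhoc X] at h1
  · rintro ⟨h1, h2⟩ d hd
    have h1' : ∀ g, e g ∈ H → ρ g *ᵥ v1 v - v1 v ∈ Wp := h1
    rcases X.cases d with ⟨g, rfl⟩ | ⟨g, rfl⟩
    · refine ⟨?_, ?_⟩
      · rw [v1_sub, v1_rho X]
        exact h1 g hd
      · rw [v2_sub, v2_rho X, mulVec_sub]
        obtain ⟨u, hu⟩ : ∃ u, u = ρ g₀ *ᵥ v2 v - v1 v := ⟨_, rfl⟩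
        have h3 := conj_mem X h0 hd
        have e1 : ρ g₀ *ᵥ (ρ (κ g) *ᵥ v2 v) - ρ g₀ *ᵥ v2 v =
            ρ (g₀ * κ g * g₀⁻¹) *ᵥ u - u + (ρ (g₀ * κ g * g₀⁻¹) *ᵥ v1 v - v1 v) := by
          rw [hu, mulVec_sub, map_mul, map_mul, ← mulVec_mulVec, ← mulVec_mulVec, rr_inv']
          abel
        rw [e1]
        refine Wp.add_mem (Wp.sub_mem (hst _ h3 _ ?_) ?_) (h1' _ h3)
        · rw [hu]
          exact h2
        · rw [hu]
          exact h2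
    · obtain ⟨h3, h4⟩ := out_mem X h0 hd
      refine ⟨?_, ?_⟩
      · rw [v1_sub, v1_rhoc X]
        obtain ⟨u, hu⟩ : ∃ u, u = ρ g₀ *ᵥ v2 v - v1 v := ⟨_, rfl⟩
        have e1 : ρ g *ᵥ v2 v - v1 v = ρ (g * g₀⁻¹) *ᵥ u + (ρ (g * g₀⁻¹) *ᵥ v1 v - v1 v) := by
          rw [hu, mulVec_sub, map_mul, ← mulVec_mulVec, ← mulVec_mulVec, rr_inv']
          abel
        rw [e1]
        refine Wp.add_mem (hst _ h3 _ ?_) (h1' _ h3)
        rw [hu]
        exact h2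
      · rw [v2_sub, v2_rhoc X, mulVec_sub]
        have e1 : ρ g₀ *ᵥ (ρ (κ g) *ᵥ v1 v) - ρ g₀ *ᵥ v2 v =
            (ρ (g₀ * κ g) *ᵥ v1 v - v1 v) - (ρ g₀ *ᵥ v2 v - v1 v) := by
          rw [map_mul, ← mulVec_mulVec]
          abel
        rw [e1]
        exact Wp.sub_mem (h1' _ h4) h2

/-- THE VECTORS FIXED MODULO `wP`. -/
theorem finrank_fix2 (X : Two e c κ) (h0 : e g₀ * c ∈ H)
    (hst : ∀ g, e g ∈ H → ∀ x ∈ Wp, ρ g *ᵥ x ∈ Wp) :
    Module.finrank E (fix2 e c κ ρ H g₀ Wp) =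
      Module.finrank E (fix1 e ρ H Wp) + Module.finrank E Wp := by
  let f : fix2 e c κ ρ H g₀ Wp ≃ₗ[E] fix1 e ρ H Wp × Wp :=
    { toFun := fun v => (⟨v1 v.1, ((fix2_iff X h0 hst).1 v.2).1⟩,
        ⟨ρ g₀ *ᵥ v2 v.1 - v1 v.1, ((fix2_iff X h0 hst).1 v.2).2⟩)
      map_add' := fun v w => Prod.ext (Subtype.ext rfl) (Subtype.ext (by
        show ρ g₀ *ᵥ (v2 v.1 + v2 w.1) - (v1 v.1 + v1 w.1) = (ρ g₀ *ᵥ v2 v.1 - v1 v.1) +
          (ρ g₀ *ᵥ v2 w.1 - v1 w.1)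
        rw [mulVec_add]
        abel))
      map_smul' := fun a v => Prod.ext (Subtype.ext rfl) (Subtype.ext (by
        show ρ g₀ *ᵥ (a • v2 v.1) - a • v1 v.1 = a • (ρ g₀ *ᵥ v2 v.1 - v1 v.1)
        rw [mulVec_smul, smul_sub]))
      invFun := fun p => ⟨ap p.1.1 (ρ g₀⁻¹ *ᵥ (p.2.1 + p.1.1)), by
        rw [fix2_iff X h0 hst, v1_ap, v2_ap, rr_inv]
        refine ⟨p.1.2, ?_⟩
        have h1 : p.2.1 + p.1.1 - p.1.1 = p.2.1 := by abel
        rw [h1]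
        exact p.2.2⟩
      left_inv := fun v => Subtype.ext (ap_ext (by rw [v1_ap]) (by
        rw [v2_ap]
        show ρ g₀⁻¹ *ᵥ (ρ g₀ *ᵥ v2 v.1 - v1 v.1 + v1 v.1) = v2 v.1
        rw [sub_add_cancel, rr_inv']))
      right_inv := fun p => Prod.ext (Subtype.ext (v1_ap _ _)) (Subtype.ext (by
        show ρ g₀ *ᵥ v2 (ap p.1.1 (ρ g₀⁻¹ *ᵥ (p.2.1 + p.1.1))) -
          v1 (ap p.1.1 (ρ g₀⁻¹ *ᵥ (p.2.1 + p.1.1))) = p.2.1
        rw [v2_ap, v1_ap, rr_inv]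
        abel)) }
  rw [f.finrank_eq, Module.finrank_prod]

end abs

section iso

variable {G Γ : Type*} [Group G] [Group Γ] {e : G →* Γ} {c : Γ} {κ : G →* G} {E : Type*} [NormedField E]
  [NormedAlgebra ℚ_[2] E] {n : ℕ}
  {ρ : G →* Matrix (Fin n) (Fin n) E} {H : Subgroup Γ} {g₀ : G} {Wp : Submodule E (Fin n → E)}

/-- `wP` is isotropic -/
theorem wP_iso {b : Matrix (Fin n) (Fin n) E}
    (hiso : ∀ x ∈ Wp, ∀ y ∈ Wp, bil b x (ρ g₀⁻¹ *ᵥ y) = 0) :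
    ∀ x ∈ wP ρ g₀ Wp, ∀ y ∈ wP ρ g₀ Wp, bil (blk 0 b 0 0) x y = 0 := by
  intro x hx y hy
  rw [bil_B]
  have h := hiso _ hx.1 _ hy.2
  rwa [rr_inv'] at h

variable {m : ℕ} {TP : FSys H} {χ : H → ℤ_[2]} {l : OE E} {t : E →ₗ[ℚ_[2]] ℚ_[2]}
  {T : Submodule (OE E) (Fin (n + n) → E)} {β : Matrix (Fin (n + n)) (Fin (n + n)) E}
  {i s : (Fin m → E) →ₗ[E] (Fin (n + n) → E)} {r p : (Fin (n + n) → E) →ₗ[E] (Fin m → E)}
  {T' : Submodule (OE E) (Fin m → E)} {b' : Matrix (Fin m) (Fin m) E}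
  {ρp ρm : H → Matrix (Fin m) (Fin m) E}

/-- the ordinary condition in terms of `wP` -/
theorem mem_ordX (hS : Spl TP χ l t T β (fun d : H => rho2 e c κ (fun g => ρ g) d) i s r p T' b' ρp ρm)
    (hp : LinearMap.ker p = wP ρ g₀ Wp) {Y : H → Fin (n + n) → E} :
    Y ∈ ordL TP (fun d : H => rho2 e c κ (fun g => ρ g) d) p ρm ↔
      ZV TP (fun d : H => rho2 e c κ (fun g => ρ g) d) Y ∧
        ∃ w, ∀ d : H, Y d - (rho2 e c κ (fun g => ρ g) d *ᵥ w - w) ∈ wP ρ g₀ Wp := by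
  rw [mem_ordL]
  refine and_congr Iff.rfl ?_
  constructor
  · rintro ⟨v, hv⟩
    refine ⟨s v, fun d => ?_⟩
    rw [← hp, LinearMap.mem_ker, map_sub, map_sub, hv d, hS.actm, hS.ps]
    abel
  · rintro ⟨w, hw⟩
    refine ⟨p w, fun d => ?_⟩
    have h1 := hw d
    rw [← hp, LinearMap.mem_ker, map_sub, map_sub, hS.actm, sub_eq_zero] at h1
    exact h1

/-- the vectors of the quotient fixed by `H` -/
theorem finrank_KE
    (hS : Spl TP χ l t T β (fun d : H => rho2 e c κ (fun g => ρ g) d) i s r p T' b' ρp ρm)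
    (hp : LinearMap.ker p = wP ρ g₀ Wp) :
    Module.finrank E (KE ρm) + Module.finrank E (wP ρ g₀ Wp) =
      Module.finrank E (fix2 e c κ ρ H g₀ Wp) := by
  have hle : wP ρ g₀ Wp ≤ fix2 e c κ ρ H g₀ Wp := by
    intro v hv d hd
    have h1 : p v = 0 := by
      rw [← LinearMap.mem_ker, hp]
      exact hv
    rw [← hp, LinearMap.mem_ker, map_sub]
    have h2 := hS.actm ⟨d, hd⟩ v
    beta_reduce at h2
    rw [h2, h1, mulVec_zero, sub_zero]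
  let f : fix2 e c κ ρ H g₀ Wp →ₗ[E] KE ρm :=
    (p.domRestrict (fix2 e c κ ρ H g₀ Wp)).codRestrict (KE ρm) fun v d => by
      have h1 := v.2 (d : Γ) d.2
      rw [← hp, LinearMap.mem_ker, map_sub, sub_eq_zero] at h1
      have h2 := hS.actm d v.1
      beta_reduce at h2
      show ρm d *ᵥ p v.1 = p v.1
      rw [← h2, h1]
  have hf : ∀ v, (f v : Fin m → E) = p v.1 := fun _ => rfl
  have hsurj : Function.Surjective f := by
    intro w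
    refine ⟨⟨s w.1, fun d hd => ?_⟩, Subtype.ext (by rw [hf]; exact hS.ps _)⟩
    rw [← hp, LinearMap.mem_ker, map_sub]
    have h2 := hS.actm ⟨d, hd⟩ (s w.1)
    beta_reduce at h2
    rw [h2, hS.ps, w.2 ⟨d, hd⟩, sub_self]
  have h1 := LinearMap.finrank_range_add_finrank_ker f
  rw [LinearMap.range_eq_top.2 hsurj, finrank_top] at h1
  have h2 : Module.finrank E (LinearMap.ker f) = Module.finrank E (wP ρ g₀ Wp) := by
    have e1 : LinearMap.ker f = (wP ρ g₀ Wp).comap (fix2 e c κ ρ H g₀ Wp).subtype := by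
      ext v
      rw [LinearMap.mem_ker, Submodule.mem_comap, ← hp, LinearMap.mem_ker]
      constructor
      · intro h
        exact congrArg Subtype.val h
      · intro h
        exact Subtype.ext h
    rw [e1]
    exact (Submodule.comapSubtypeEquivOfLe hle).finrank_eq
  rw [h2] at h1
  exact h1

end iso

end Pool.Agent.Work.MP_787500_nt.QX
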