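import Mathlib
import Pool.Agent.Work.MP_787500_nt.QX.Pl2
import Pool.Agent.Work.MP_787500_nt.QX.Lev
import Pool.Agent.Work.MP_787500_nt.QX.ExtG
import Pool.Agent.Work.MP_787500_nt.OP.LagL

/-!
# The ordinary condition at the place 2 if 2 does not split

* `grL`: the condition for the induced representation.
* `selK_gr`: the Selmer space over `K` is Greenberg's Selmer group.
* `lag_gr`: the condition is Lagrangian.
-/

set_option autoImplicit false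
set_option linter.unusedSectionVars false

namespace Pool.Agent.Work.MP_787500_nt.QX

open Matrix NumberField
open Pool.Agent.Work.MP_787500_nt.GP (A0 OE bil Lat inT stabD cupE EvPow actN lamN MN)
open Pool.Agent.Work.MP_787500_nt.KR (FSys IsChar ZV zV LocRep LocD IsBig fullC fullD fullK fullQ big Opn PerpV
  perpSub)
open Pool.Agent.Work.MP_787500_nt.PA (toE cyc)
open Pool.Agent.Work.MP_787500_nt.HP (IsQ Spl IsP inr stb cyQ OpnQ)
open Pool.Agent.Work.MP_787500_nt.KS (iK)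
open Pool.Agent.Work.MP_787500_nt.QS (Two Lag)
open Pool.Agent.Work.MP_787500_nt.QV (ind rho2 N1e selK selE selNQ spE prE QRep T2 J2 blk beN laN LagV v1 v1_ap
  ind_e)
open Pool.Agent.Work.MP_787500_nt.QU (urV)
open Pool.Agent.Work.MP_787500_nt.GA (HQ SQ jQ iQ emb_refl_stb)
open Pool.Agent.Work.MP_787500_nt.QW (sysQ locRep_res res_zv)
open Pool.Agent.Work.MP_787500_nt.OP (ordL KE)

universe u w

/-- restriction of a quadratic representation -/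
theorem qrep_res {Γ : Type*} [Group Γ] {E : Type*} [NormedField E] [NormedAlgebra ℚ_[2] E] {n : ℕ}
    {P : Type*} [Group P] {TP : FSys P} {jp : P →* Γ} {S : FSys Γ} {χ : Γ → ℤ_[2]} {l : OE E}
    {t : E →ₗ[ℚ_[2]] ℚ_[2]} {T : Submodule (OE E) (Fin n → E)} {β Sm J : Matrix (Fin n) (Fin n) E}
    {ρ : Γ → Matrix (Fin n) (Fin n) E} (h : QRep S χ l t T β Sm J ρ)
    (hj : ∀ W, S.mem W → ∃ W', TP.mem W' ∧ ∀ w ∈ W', jp w ∈ W) :
    QRep TP (fun d => χ (jp d)) l t T β Sm J (fun d => ρ (jp d)) where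
  lat := h.lat
  rep := locRep_res h.rep hj
  jj := h.jj
  jT := h.jT
  alt := h.alt
  bint := h.bint
  qint := fun g x hx => h.qint (jp g) x hx

variable {K : Type u} [Field K] [NumberField K]
  {c : AlgebraicClosure K ≃+* AlgebraicClosure K} {κ : AbsGal K →* AbsGal K} {T : Finset ℕ}
  {P : ℕ → Ideal (𝓞 (AlgebraicClosure K))} {N₀ : Subgroup (AbsGal K)}
  {E : Type w} [NormedField E] [NormedAlgebra ℚ_[2] E] {n : ℕ}
  {ρ : AbsGal K →* Matrix (Fin n) (Fin n) E} {b : Matrix (Fin n) (Fin n) E}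
  {l : OE E} {t : E →ₗ[ℚ_[2]] ℚ_[2]} {L₀ : Submodule (OE E) (Fin n → E)}
  {g₀ : AbsGal K} {W : Submodule E (Fin n → E)}

/-- THE ORDINARY CONDITION for the induced representation. -/
def grL (c : AlgebraicClosure K ≃+* AlgebraicClosure K) (κ : AbsGal K →* AbsGal K)
    (T : Finset ℕ) (P : ℕ → Ideal (𝓞 (AlgebraicClosure K))) (N₀ : Subgroup (AbsGal K))
    (ρ : AbsGal K →* Matrix (Fin n) (Fin n) E) (g₀ : AbsGal K) (W : Submodule E (Fin n → E)) :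
    Submodule E (stb (P 2) → Fin (n + n) → E) where
  carrier := {X | X ∈ zV (SQ c P (N₀.map (iK K)) (some (none : Option T)))
      (fun d => rho2 (iK K) c κ (fun g => ρ g) (jQ c P (some none) d)) ∧
    ∃ w, ∀ d : stb (P 2), X d - (rho2 (iK K) c κ (fun g => ρ g)
      (d : AlgebraicClosure K ≃+* AlgebraicClosure K) *ᵥ w - w) ∈ wP ρ g₀ W}
  add_mem' := by
    rintro X Y ⟨h1, v, h2⟩ ⟨h1', v', h2'⟩
    refine ⟨Submodule.add_mem _ h1 h1', v + v', fun d => ?_⟩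
    have h : (X + Y) d - (rho2 (iK K) c κ (fun g => ρ g)
        (d : AlgebraicClosure K ≃+* AlgebraicClosure K) *ᵥ (v + v') - (v + v')) =
        (X d - (rho2 (iK K) c κ (fun g => ρ g)
          (d : AlgebraicClosure K ≃+* AlgebraicClosure K) *ᵥ v - v)) +
        (Y d - (rho2 (iK K) c κ (fun g => ρ g)
          (d : AlgebraicClosure K ≃+* AlgebraicClosure K) *ᵥ v' - v')) := by
      rw [Pi.add_apply, mulVec_add]
      abel
    rw [h]
    exact (wP ρ g₀ W).add_mem (h2 d) (h2' d)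
  zero_mem' := ⟨Submodule.zero_mem _, 0, fun d => by
    rw [Pi.zero_apply, mulVec_zero, sub_zero, sub_zero]
    exact (wP ρ g₀ W).zero_mem⟩
  smul_mem' := by
    rintro a X ⟨h1, v, h2⟩
    refine ⟨Submodule.smul_mem _ a h1, a • v, fun d => ?_⟩
    have h : (a • X) d - (rho2 (iK K) c κ (fun g => ρ g)
        (d : AlgebraicClosure K ≃+* AlgebraicClosure K) *ᵥ (a • v) - (a • v)) =
        a • (X d - (rho2 (iK K) c κ (fun g => ρ g)
          (d : AlgebraicClosure K ≃+* AlgebraicClosure K) *ᵥ v - v)) := by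
      rw [Pi.smul_apply, mulVec_smul]
      module
    rw [h]
    exact (wP ρ g₀ W).smul_mem a (h2 d)

theorem mem_grL {X : stb (P 2) → Fin (n + n) → E} : X ∈ grL c κ T P N₀ ρ g₀ W ↔
    ZV (SQ c P (N₀.map (iK K)) (some (none : Option T)))
      (fun d => rho2 (iK K) c κ (fun g => ρ g) (jQ c P (some none) d)) X ∧
    ∃ w, ∀ d : stb (P 2), X d - (rho2 (iK K) c κ (fun g => ρ g)
      (d : AlgebraicClosure K ≃+* AlgebraicClosure K) *ᵥ w - w) ∈ wP ρ g₀ W := Iff.rfl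

/-- induced cocycles -/
theorem ind_zvX [FiniteDimensional ℚ_[2] E] (A : ArX c κ T P N₀)
    (hρ : Gn.ConjDual 2 N₀ (inT K T) (Parity.cyclo E) κ ρ b) {x : AbsGal K → Fin n → E}
    (h1 : Parity.IsCocycle ρ x)
    (hI : ∀ I ∈ Parity.inertiaOffTwo K, ∃ v, ∀ σ ∈ I, x σ = ρ σ *ᵥ v - v) :
    ZV (sysQ T N₀) (rho2 (iK K) c κ (fun g => ρ g)) (ind (iK K) c κ x) := by
  have hx := (coc_iff A hρ (x := x)).2 ⟨h1, fun σ hσ => by
    have hσ' := hσ
    obtain ⟨Q, hQ, hQ2, hQT, hσQ⟩ := hσ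
    obtain ⟨v, hv⟩ := hI _ ⟨Q, hQ, hQ2, rfl⟩
    rw [hv σ hσQ, hρ.unram σ hσ', one_mulVec, sub_self]⟩
  exact ⟨QV.ind_N1 A.two A.dn hx.1, QV.ind_coc A.two hx.2⟩

/-- THE SELMER SPACE OVER `K`. -/
theorem selK_gr [FiniteDimensional ℚ_[2] E] (A : ArX c κ T P N₀)
    (hρ : Gn.ConjDual 2 N₀ (inT K T) (Parity.cyclo E) κ ρ b) (h0 : iK K g₀ * c ∈ stb (P 2))
    (hW : ∀ σ ∈ stabD (K := K) (P 2), ∀ x ∈ W, ρ σ *ᵥ x ∈ W) :
    selK A.two (sysQ T N₀) (GA.jQ c P) (fun g => ρ g) (famX c κ T P N₀ ρ (grL c κ T P N₀ ρ g₀ W)) =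
      Parity.selmerGreenberg (Parity.inertiaOffTwo K) ρ (stabD (P 2)) W := by
  have hW' : ∀ g, iK K g ∈ stb (P 2) → ∀ x ∈ W, ρ g *ᵥ x ∈ W := fun g hg =>
    hW g (emb_refl_stb.1 hg)
  ext x
  rw [mem_selX A hρ]
  have key : ∀ (_ : ZV (sysQ T N₀) (rho2 (iK K) c κ (fun g => ρ g)) (ind (iK K) c κ x)),
      (∃ w, ∀ d ∈ stb (P 2), ind (iK K) c κ x d - (rho2 (iK K) c κ (fun g => ρ g) d *ᵥ w - w) ∈
        wP ρ g₀ W) ↔ ∃ v, ∀ σ ∈ stabD (K := K) (P 2), x σ - (ρ σ *ᵥ v - v) ∈ W := by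
    intro hz
    rw [cob_wP A.two h0 hW' fun a _ d _ => hz.2 a d]
    refine exists_congr fun v => ?_
    constructor
    · intro h σ hσ
      have h1 := h σ (emb_refl_stb.2 hσ)
      rwa [ind_e A.two, v1_ap] at h1
    · intro h g hg
      rw [ind_e A.two, v1_ap]
      exact h g (emb_refl_stb.1 hg)
  constructor
  · rintro ⟨h1, h2, h3⟩
    refine ⟨h1, h2, (key (ind_zvX A hρ h1 h2)).1 ?_⟩
    obtain ⟨-, w, hw⟩ := h3
    exact ⟨w, fun d hd => hw ⟨d, hd⟩⟩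
  · rintro ⟨h1, h2, h3⟩
    obtain ⟨w, hw⟩ := (key (ind_zvX A hρ h1 h2)).2 h3
    exact ⟨h1, h2, res_zv (ind_zvX A hρ h1 h2) (some none), w, fun d => hw d d.2⟩

/-- the dimension of the space of vectors fixed modulo `W` -/
theorem fix1_eq : fix1 (iK K) ρ (stb (P 2)) W =
    Parity.fixedModulo (fun σ : stabD (K := K) (P 2) => ρ σ) W := by
  ext v
  exact ⟨fun h σ => h σ (emb_refl_stb.2 σ.2), fun h g hg => h ⟨g, emb_refl_stb.1 hg⟩⟩

section spl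

variable [FiniteDimensional ℚ_[2] E]

/-- COORDINATES at the place 2 -/
theorem exists_splX (A : ArX c κ T P N₀)
    (hρ : Gn.ConjDual 2 N₀ (inT K T) (Parity.cyclo E) κ ρ b) (hl : Lat b l t L₀)
    (hst : ∀ g, ∀ x ∈ L₀, ρ g *ᵥ x ∈ L₀)
    (hm : ∀ σ τ : AlgebraicClosure K ≃+* AlgebraicClosure K, cyQ (σ * τ) = cyQ σ * cyQ τ)
    (h0 : iK K g₀ * c ∈ stb (P 2))
    (hW : ∀ σ ∈ stabD (K := K) (P 2), ∀ x ∈ W, ρ σ *ᵥ x ∈ W) (hW2 : 2 * Module.finrank E W = n)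
    (hW0 : ∀ x ∈ W, ∀ y ∈ W, bil b x (ρ g₀⁻¹ *ᵥ y) = 0) :
    ∃ (m : ℕ) (i s : (Fin m → E) →ₗ[E] (Fin (n + n) → E))
      (r p : (Fin (n + n) → E) →ₗ[E] (Fin m → E)) (ρp ρm : stb (P 2) → Matrix (Fin m) (Fin m) E),
      OP.Spl (SQ c P (N₀.map (iK K)) (some (none : Option T)))
        (fun d => cyQ (jQ c P (some (none : Option T)) d)) l t (T2 L₀) (blk 0 b 0 0)
        (fun d => rho2 (iK K) c κ (fun g => ρ g) (jQ c P (some (none : Option T)) d)) i s r p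
        (OP.stdL E m) 1 ρp ρm ∧
      LinearMap.range i = wP ρ g₀ W ∧ LinearMap.ker p = wP ρ g₀ W := by
  have hW' : ∀ g, iK K g ∈ stb (P 2) → ∀ x ∈ W, ρ g *ᵥ x ∈ W := fun g hg =>
    hW g (emb_refl_stb.1 hg)
  refine OP.exists_spl (qrep_res (A.qrep hρ hl hst hm) (GA.jsmQ c P (N₀.map (iK K)) (some none)))
    (wP ρ g₀ W) (fun d v hv => wP_st A.two h0 hW' (SetLike.coe_mem (d : stb (P 2))) hv)
    (wP_iso hW0) ?_
  rw [finrank_wP]
  omega

/-- THE ORDINARY CONDITION IS LAGRANGIAN. -/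
theorem lag_gr (A : ArX c κ T P N₀)
    {ivF : ∀ w : Option T, (stb (HP.PP P w) → stb (HP.PP P w) → A0) → A0}
    (HL : LocD.{w} (SQ c P (N₀.map (iK K)) (some (none : Option T)))
      (fun d => cyQ (GA.jQ c P (some none) d)) (GA.iQ c P ivF (some none)))
    (hρ : Gn.ConjDual 2 N₀ (inT K T) (Parity.cyclo E) κ ρ b) (hl : Lat b l t L₀)
    (hst : ∀ g, ∀ x ∈ L₀, ρ g *ᵥ x ∈ L₀)
    (hm : ∀ σ τ : AlgebraicClosure K ≃+* AlgebraicClosure K, cyQ (σ * τ) = cyQ σ * cyQ τ)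
    (h0 : iK K g₀ * c ∈ stb (P 2))
    (hW : ∀ σ ∈ stabD (K := K) (P 2), ∀ x ∈ W, ρ σ *ᵥ x ∈ W) (hW2 : 2 * Module.finrank E W = n)
    (hW0 : ∀ x ∈ W, ∀ y ∈ W, bil b x (ρ g₀⁻¹ *ᵥ y) = 0) :
    LagV (SQ c P (N₀.map (iK K)) (some (none : Option T)))
      (fun d => cyQ (GA.jQ c P (some none) d)) (blk 0 b b 0) (J2 E n)
      (fun d => rho2 (iK K) c κ (fun g => ρ g) (GA.jQ c P (some none) d))
      (grL c κ T P N₀ ρ g₀ W) := by
  obtain ⟨m, i, s, r, p, ρp, ρm, hS, hi, hp⟩ := exists_splX A hρ hl hst hm h0 hW hW2 hW0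
  have h1 := OP.lag_ord HL (qrep_res (A.qrep hρ hl hst hm)
    (GA.jsmQ c P (N₀.map (iK K)) (some none))) hS
  have h2 : ordL (SQ c P (N₀.map (iK K)) (some (none : Option T)))
      (fun d => rho2 (iK K) c κ (fun g => ρ g) (jQ c P (some (none : Option T)) d)) p ρm =
      grL c κ T P N₀ ρ g₀ W := by
    ext Y
    exact mem_ordX (H := stb (P 2)) hS hp
  rw [h2] at h1
  exact h1

/-- the vectors of the quotient fixed by the decomposition group -/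
theorem finrank_KEX (A : ArX c κ T P N₀) (h0 : iK K g₀ * c ∈ stb (P 2))
    (hW : ∀ σ ∈ stabD (K := K) (P 2), ∀ x ∈ W, ρ σ *ᵥ x ∈ W) {m : ℕ}
    {i s : (Fin m → E) →ₗ[E] (Fin (n + n) → E)}
    {r p : (Fin (n + n) → E) →ₗ[E] (Fin m → E)} {ρp ρm : stb (P 2) → Matrix (Fin m) (Fin m) E}
    {χ : stb (P 2) → ℤ_[2]} {T' : Submodule (OE E) (Fin m → E)} {b' : Matrix (Fin m) (Fin m) E}
    {TT : Submodule (OE E) (Fin (n + n) → E)} {β : Matrix (Fin (n + n)) (Fin (n + n)) E}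
    (hS : OP.Spl (SQ c P (N₀.map (iK K)) (some (none : Option T))) χ l t TT β
        (fun d : stb (P 2) => rho2 (iK K) c κ (fun g => ρ g) d) i s r p T' b' ρp ρm)
    (hp : LinearMap.ker p = wP ρ g₀ W) :
    Module.finrank E (KE ρm) + Module.finrank E W =
      Module.finrank E (Parity.fixedModulo (fun σ : stabD (K := K) (P 2) => ρ σ) W) := by
  have hW' : ∀ g, iK K g ∈ stb (P 2) → ∀ x ∈ W, ρ g *ᵥ x ∈ W := fun g hg =>
    hW g (emb_refl_stb.1 hg)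
  have h1 := finrank_KE (e := iK K) (c := c) (κ := κ) (ρ := ρ) (H := stb (P 2)) hS hp
  rw [finrank_wP, finrank_fix2 A.two h0 hW', fix1_eq] at h1
  omega

end spl

end Pool.Agent.Work.MP_787500_nt.QX
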