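import Mathlib
import Pool.Agent.Work.MP_787500_nt.QX.Gr
import Pool.Agent.Work.MP_787500_nt.OP.Dist
import Pool.Agent.Work.MP_787500_nt.IU.Fin
import Pool.Agent.Work.MP_787500_nt.OT.Main

/-!
# THE CONTRIBUTION OF THE PLACE 2 if 2 does not split

* `perp_gen`: the annihilator of a residual subspace.
* `redW`: the residual subspace of `M × M`; `redW_iff`, `redW_st`, `redW_iso`, `redW_perp`.
* `eul_two`: the Euler characteristic at 2.
* `locX_two`: THE CONTRIBUTION OF THE PLACE 2.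
-/

set_option autoImplicit false
set_option linter.unusedSectionVars false

namespace Pool.Agent.Work.MP_787500_nt.QX

open Matrix NumberField
open Pool.Agent.Work.MP_787500_nt.GP (A0 IsAct d0 OE bil Lat inT stabD EvPow actN lamN MN bN Wq mq mq_eq
  mq_lft mq_smul mq_add actQ_mq bN_val bN_symm bN_nd)
open Pool.Agent.Work.MP_787500_nt.KR (FSys Z1 ZV zV SDualF sdualF_MN big fullC fullK)
open Pool.Agent.Work.MP_787500_nt.PA (toE cyc)
open Pool.Agent.Work.MP_787500_nt.HP (IsP inr stb cyQ)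
open Pool.Agent.Work.MP_787500_nt.KS (iK)
open Pool.Agent.Work.MP_787500_nt.GA (HQ SQ jQ iQ)
open Pool.Agent.Work.MP_787500_nt.QP (InvC)
open Pool.Agent.Work.MP_787500_nt.QS (Two ac2 be2 la2 pB pB_apply be2_apply)
open Pool.Agent.Work.MP_787500_nt.QV (QRep T2 J2 blk rho2 isoN v1 v2 v1_ap v2_ap ap iso_one iso_two iso_eq
  iso_act)
open Pool.Agent.Work.MP_787500_nt.KI (LocM YM mem_YM card_YM siso_iso tra map_tra mem_tra card_tra tra_inf
  z1_tra)
open Pool.Agent.Work.MP_787500_nt.OP (KE)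
open Pool.Agent.Work.MP_787500_nt.OT (redM mem_redM card_redM pbar pbar_surj pbar_ker pbar_act)

universe u w

section res

variable {E : Type w} [NormedField E] [NormedAlgebra ℚ_[2] E] [FiniteDimensional ℚ_[2] E]
  [IsLocalRing (OE E)] {n : ℕ} {b : Matrix (Fin n) (Fin n) E} {l : OE E} {t : E →ₗ[ℚ_[2]] ℚ_[2]}
  {L₀ : Submodule (OE E) (Fin n → E)} {Vp Vq : Submodule E (Fin n → E)}

/-- the residual subspaces are orthogonal -/
theorem iso_gen (hl : Lat b l t L₀) (hiso : ∀ x ∈ Vp, ∀ y ∈ Vq, bil b x y = 0) {x y : MN L₀ l 1}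
    (hx : x ∈ redM L₀ l Vp) (hy : y ∈ redM L₀ l Vq) : bN hl 1 x y = 0 := by
  obtain ⟨x', hx', h1⟩ := hx
  obtain ⟨y', hy', h2⟩ := hy
  rw [bN_val hl 1 x y h1.symm h2.symm, hiso x' hx' y' hy', mul_zero, map_zero, map_zero]

/-- the annihilator of a residual subspace -/
theorem perp_gen (hl : Lat b l t L₀) (hiso : ∀ x ∈ Vp, ∀ y ∈ Vq, bil b x y = 0)
    (hd : Module.finrank E Vp + Module.finrank E Vq = n) {y : MN L₀ l 1}
    (h : ∀ x ∈ redM L₀ l Vp, bN hl 1 x y = 0) : y ∈ redM L₀ l Vq := by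
  have hfM : Finite (MN L₀ l 1) := GP.MN_finite hl 1
  have hfR : Finite (IsLocalRing.ResidueField (OE E)) := GP.res_finite
  have hq : 0 < Nat.card (IsLocalRing.ResidueField (OE E)) := Nat.card_pos
  have hnd : ∀ a : MN L₀ l 1, (∀ a', bN hl 1 a a' = 0) → a ∈ (redM L₀ l Vp).toAddSubgroup := by
    intro a ha
    rw [bN_nd hl 1 a ha]
    exact zero_mem _
  have h1 := GP.card_perp (bN hl 1) (redM L₀ l Vp).toAddSubgroup hnd
  have h2 : Nat.card (GP.perpL (bN hl 1).flip ⊤) = 1 := by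
    rw [Nat.card_eq_one_iff_unique]
    refine ⟨⟨fun a a' => Subtype.ext ?_⟩, ⟨0⟩⟩
    have h3 : ∀ a : GP.perpL (bN hl 1).flip ⊤, (a : MN L₀ l 1) = 0 := fun a =>
      bN_nd hl 1 _ fun z => a.2 z trivial
    rw [h3, h3]
  have h3 : Nat.card (MN L₀ l 1) = Nat.card (IsLocalRing.ResidueField (OE E)) ^ n := by
    have h4 := card_redM hl (⊤ : Submodule E (Fin n → E))
    rw [finrank_top, Module.finrank_fin_fun] at h4
    rw [← h4]
    have h5 : redM L₀ l (⊤ : Submodule E (Fin n → E)) = ⊤ := by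
      rw [eq_top_iff]
      intro m _
      exact ⟨_, trivial, (mq_lft _).symm⟩
    rw [h5]
    exact (Nat.card_congr Submodule.topEquiv.toEquiv).symm
  have h4 : Nat.card (redM L₀ l Vp).toAddSubgroup =
      Nat.card (IsLocalRing.ResidueField (OE E)) ^ Module.finrank E Vp := card_redM hl Vp
  have hn : Nat.card (IsLocalRing.ResidueField (OE E)) ^ n =
      Nat.card (IsLocalRing.ResidueField (OE E)) ^ Module.finrank E Vp *
        Nat.card (IsLocalRing.ResidueField (OE E)) ^ Module.finrank E Vq := by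
    rw [← pow_add, hd]
  rw [h2, h3, h4, mul_one, hn] at h1
  have h5 : Nat.card (GP.perpL (bN hl 1) (redM L₀ l Vp).toAddSubgroup) =
      Nat.card (redM L₀ l Vq).toAddSubgroup := by
    have h6 : Nat.card (redM L₀ l Vq).toAddSubgroup =
      Nat.card (IsLocalRing.ResidueField (OE E)) ^ Module.finrank E Vq := card_redM hl Vq
    rw [h6]
    exact Nat.eq_of_mul_eq_mul_left (pow_pos hq _) h1
  have h6 : (redM L₀ l Vq).toAddSubgroup ≤ GP.perpL (bN hl 1) (redM L₀ l Vp).toAddSubgroup := by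
    intro z hz x hx
    exact iso_gen hl hiso hx hz
  have h7 := AddSubgroup.eq_of_le_of_card_ge h6 h5.le
  have h8 : y ∈ GP.perpL (bN hl 1) (redM L₀ l Vp).toAddSubgroup := fun x hx => h x hx
  rw [← h7] at h8
  exact h8

end res

variable {K : Type u} [Field K] [NumberField K]
  {c : AlgebraicClosure K ≃+* AlgebraicClosure K} {κ : AbsGal K →* AbsGal K} {T : Finset ℕ}
  {P : ℕ → Ideal (𝓞 (AlgebraicClosure K))} {N₀ : Subgroup (AbsGal K)}
  {iv ivF : ∀ w : Option T, (stb (HP.PP P w) → stb (HP.PP P w) → A0) → A0}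
  {tr : (((AlgebraicClosure K ≃+* AlgebraicClosure K) → (AlgebraicClosure K ≃+* AlgebraicClosure K) →
      (AlgebraicClosure K ≃+* AlgebraicClosure K) → A0) ×
      (∀ i : Option (Option T), HQ c P i → HQ c P i → A0)) →+ A0}

section two

variable {E : Type w} [NormedField E] [NormedAlgebra ℚ_[2] E] [FiniteDimensional ℚ_[2] E]
  [IsLocalRing (OE E)] {n : ℕ} {ρ : AbsGal K →* Matrix (Fin n) (Fin n) E}
  {b : Matrix (Fin n) (Fin n) E} {l : OE E} {t : E →ₗ[ℚ_[2]] ℚ_[2]}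
  {L₀ : Submodule (OE E) (Fin n → E)} {g₀ : AbsGal K} {W : Submodule E (Fin n → E)}

/-- the second component of `wP` -/
noncomputable def wQ (ρ : AbsGal K →* Matrix (Fin n) (Fin n) E) (g₀ : AbsGal K)
    (W : Submodule E (Fin n → E)) : Submodule E (Fin n → E) := W.comap (Matrix.mulVecLin (ρ g₀))

theorem mem_wQ {x : Fin n → E} : x ∈ wQ ρ g₀ W ↔ ρ g₀ *ᵥ x ∈ W := Iff.rfl

theorem wQ_iso (hW0 : ∀ x ∈ W, ∀ y ∈ W, bil b x (ρ g₀⁻¹ *ᵥ y) = 0) :
    ∀ x ∈ W, ∀ y ∈ wQ ρ g₀ W, bil b x y = 0 := fun x hx y hy => by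
  have h1 := hW0 x hx (ρ g₀ *ᵥ y) hy
  rwa [rr_inv'] at h1

theorem finrank_wQ : Module.finrank E (wQ ρ g₀ W) = Module.finrank E W := by
  let f : wQ ρ g₀ W ≃ₗ[E] W :=
    { toFun := fun x => ⟨ρ g₀ *ᵥ x.1, x.2⟩
      map_add' := fun x y => Subtype.ext (mulVec_add (ρ g₀) x.1 y.1)
      map_smul' := fun a x => Subtype.ext (mulVec_smul (ρ g₀) a x.1)
      invFun := fun x => ⟨ρ g₀⁻¹ *ᵥ x.1, by
        rw [mem_wQ, rr_inv]
        exact x.2⟩
      left_inv := fun x => Subtype.ext (rr_inv' _ _)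
      right_inv := fun x => Subtype.ext (rr_inv _ _) }
  exact f.finrank_eq

/-- the residual subspace of `M × M` -/
noncomputable def redW (L₀ : Submodule (OE E) (Fin n → E)) (l : OE E)
    (ρ : AbsGal K →* Matrix (Fin n) (Fin n) E) (g₀ : AbsGal K) (W : Submodule E (Fin n → E)) :
    Submodule (OE E) (MN L₀ l 1 × MN L₀ l 1) :=
  (redM L₀ l W).prod (redM L₀ l (wQ ρ g₀ W))

theorem redW_iff {m : MN (T2 L₀) l 1} :
    isoN L₀ l 1 m ∈ redW L₀ l ρ g₀ W ↔ m ∈ redM (T2 L₀) l (wP ρ g₀ W) := by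
  constructor
  · rintro ⟨⟨x, hx, h1⟩, y, hy, h2⟩
    refine ⟨ap x y, ⟨?_, ?_⟩, iso_eq ?_ ?_⟩
    · rwa [v1_ap]
    · rwa [v2_ap]
    · rwa [v1_ap]
    · rwa [v2_ap]
  · rintro ⟨w, ⟨h1, h2⟩, h3⟩
    exact ⟨⟨_, h1, iso_one h3⟩, ⟨_, h2, iso_two h3⟩⟩

theorem redW_iso (hl : Lat b l t L₀) (hW0 : ∀ x ∈ W, ∀ y ∈ W, bil b x (ρ g₀⁻¹ *ᵥ y) = 0)
    {v w : MN L₀ l 1 × MN L₀ l 1} (hv : v ∈ redW L₀ l ρ g₀ W) (hw : w ∈ redW L₀ l ρ g₀ W) :
    bN hl 1 v.1 w.2 = 0 := iso_gen hl (wQ_iso hW0) hv.1 hw.2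

theorem redW_perp (hl : Lat b l t L₀) (hW2 : 2 * Module.finrank E W = n)
    (hW0 : ∀ x ∈ W, ∀ y ∈ W, bil b x (ρ g₀⁻¹ *ᵥ y) = 0) {v : MN L₀ l 1 × MN L₀ l 1}
    (h : ∀ w ∈ redW L₀ l ρ g₀ W, pB (be2 (bN hl 1)) w v = 0) : v ∈ redW L₀ l ρ g₀ W := by
  have hi := wQ_iso hW0
  have hd : Module.finrank E W + Module.finrank E (wQ ρ g₀ W) = n := by
    rw [finrank_wQ]
    omega
  refine ⟨perp_gen (Vp := wQ ρ g₀ W) hl (fun x hx y hy => ?_) (by omega) fun x hx => ?_,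
    perp_gen hl hi hd fun x hx => ?_⟩
  · rw [GP.bil_symm hl.symm]
    exact hi y hy x hx
  · have h1 := h (0, x) ⟨zero_mem _, hx⟩
    rw [pB_apply, be2_apply, be2_apply] at h1
    have h2 : bN hl 1 (0 : MN L₀ l 1) v.2 = 0 := by rw [map_zero]; rfl
    rw [h2, zero_sub, neg_eq_zero] at h1
    rw [bN_symm]
    exact h1
  · have h1 := h (x, 0) ⟨hx, zero_mem _⟩
    rw [pB_apply, be2_apply, be2_apply] at h1
    have h2 : bN hl 1 v.1 (0 : MN L₀ l 1) = 0 := map_zero _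
    rw [h2, sub_zero] at h1
    exact h1

/-- the residual subspace is stable -/
theorem redW_st (A : ArX c κ T P N₀) (h0 : iK K g₀ * c ∈ stb (P 2))
    (hW : ∀ σ ∈ stabD (K := K) (P 2), ∀ x ∈ W, ρ σ *ᵥ x ∈ W)
    (hst : ∀ g, ∀ x ∈ L₀, ρ g *ᵥ x ∈ L₀)
    (hst2 : ∀ d, ∀ x ∈ T2 L₀, rho2 (iK K) c κ (fun g => ρ g) d *ᵥ x ∈ T2 L₀)
    (d : stb (P 2)) {w : MN L₀ l 1 × MN L₀ l 1} (hw : w ∈ redW L₀ l ρ g₀ W) :
    ac2 (iK K) c κ (actN l 1 (fun g => ρ g) hst) (d : AlgebraicClosure K ≃+* AlgebraicClosure K) w ∈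
      redW L₀ l ρ g₀ W := by
  obtain ⟨m, rfl⟩ : ∃ m, w = isoN L₀ l 1 m :=
    ⟨(isoN L₀ l 1).symm w, ((isoN L₀ l 1).apply_symm_apply w).symm⟩
  rw [← iso_act A.two hst hst2, redW_iff]
  obtain ⟨x, hx, h1⟩ := redW_iff.1 hw
  refine ⟨_, wP_st A.two h0 (fun g hg => hW g (GA.emb_refl_stb.1 hg)) (SetLike.coe_mem d) hx, ?_⟩
  rw [GP.coe_actN, h1]
  exact actQ_mq (hst2 _) _

end two

/-- THE EULER CHARACTERISTIC AT 2 -/
theorem eul_two (I : InX.{u, w} c κ T P N₀ iv ivF tr) :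
    IU.Eul.{w} (SQ c P (N₀.map (iK K)) (some (none : Option T))) 1 := by
  obtain ⟨α⟩ := GA.exists_ratEquiv (HP.alg_closure K)
  intro X _ _ υ ha hs h2
  exact EF.euler_big (HP.alg_closure K) α (I.hP.isPrime 2 (Or.inr rfl))
    (by exact_mod_cast I.hP.mem 2 (Or.inr rfl)) (I.qdat.loc none) (I.locF none) ha hs h2

section main

variable {E : Type w} [NormedField E] [NormedAlgebra ℚ_[2] E] [FiniteDimensional ℚ_[2] E]
  [IsLocalRing (OE E)] [Finite (IsLocalRing.ResidueField (OE E))]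
  [CharP (IsLocalRing.ResidueField (OE E)) 2] [Algebra (ZMod 2) (IsLocalRing.ResidueField (OE E))]
  {n : ℕ} {ρ : AbsGal K →* Matrix (Fin n) (Fin n) E} {b : Matrix (Fin n) (Fin n) E}
  {l : OE E} {t : E →ₗ[ℚ_[2]] ℚ_[2]} {L₀ : Submodule (OE E) (Fin n → E)}
  {g₀ : AbsGal K} {W : Submodule E (Fin n → E)}

/-- THE CONTRIBUTION OF THE PLACE 2. -/
theorem locX_two (I : InX.{u, w} c κ T P N₀ iv ivF tr)
    (hρ : Gn.ConjDual 2 N₀ (inT K T) (Parity.cyclo E) κ ρ b) (hl : Lat b l t L₀)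
    (hst : ∀ g, ∀ x ∈ L₀, ρ g *ᵥ x ∈ L₀) {C : MN L₀ l 1 → MN L₀ l 1}
    (hC : InvC κ (OE E) (actN l 1 (fun g => ρ g) hst) (bN hl 1) C)
    (h0 : iK K g₀ * c ∈ stb (P 2))
    (hW : ∀ σ ∈ stabD (K := K) (P 2), ∀ x ∈ W, ρ σ *ᵥ x ∈ W) (hW2 : 2 * Module.finrank E W = n)
    (hW0 : ∀ x ∈ W, ∀ y ∈ W, bil b x (ρ g₀⁻¹ *ᵥ y) = 0) :
    LocX c κ P N₀ ivF hl hst C (some none) (grL c κ T P N₀ ρ g₀ W)
      (Module.finrank E (Parity.fixedModulo (fun σ : stabD (K := K) (P 2) => ρ σ) W) -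
        Module.finrank E W) := by
  have A := I.toArX
  have hm := I.glob.glob.char.mul
  have hfin : Finite (MN L₀ l 1) := GP.MN_finite hl 1
  have hs : SDualF (big (fullK (K := K) T) N₀) cyc κ ∅ (OE E) (actN l 1 (fun g => ρ g) hst)
      (bN hl 1) :=
    sdualF_MN hl (A.rep hρ hst) (fun p hp => absurd hp (Set.notMem_empty p)) 1
  have hq := A.qrep hρ hl hst hm
  have h' := qrep_res hq (GA.jsmQ (T := T) c P (N₀.map (iK K)) (some none))
  obtain ⟨m, i, s, r, q, ρp, ρm, hS, hri, hk⟩ := exists_splX A hρ hl hst hm h0 hW hW2 hW0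
  have p : KI.PlQ.{w} (big (fullK (K := K) T) N₀) (QW.sysQ T N₀) cyc cyQ (iK K) c κ
      (SQ c P (N₀.map (iK K)) (some (none : Option T))) (jQ c P (some (none : Option T)))
      (iQ c P ivF (some (none : Option T))) := I.plQ (some (none : Option T))
  have hact : ∀ (d : HQ c P (some (none : Option T))) (x : MN (T2 L₀) l 1),
      isoN L₀ l 1 (actN l 1 (fun d => rho2 (iK K) c κ (fun g => ρ g)
        (jQ c P (some (none : Option T)) d)) h'.rep.st d x) =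
        ac2 (iK K) c κ (actN l 1 (fun g => ρ g) hst) (jQ c P (some (none : Option T)) d)
          (isoN L₀ l 1 x) := fun d x =>
    iso_act A.two hst hq.rep.st (jQ c P (some (none : Option T)) d) x
  -- the reference
  let act2 : IsAct (actN l 1 (fun d => rho2 (iK K) c κ (fun g => ρ g)
      (jQ c P (some (none : Option T)) d)) h'.rep.st) := (KR.pair_MN h'.lat h'.rep 1).act
  have lin2 : ∀ (g : HQ c P (some (none : Option T))) (a : OE E) (x : MN (T2 L₀) l 1),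
      actN l 1 (fun d => rho2 (iK K) c κ (fun g => ρ g)
        (jQ c P (some (none : Option T)) d)) h'.rep.st g (a • x) =
        a • actN l 1 (fun d => rho2 (iK K) c κ (fun g => ρ g)
        (jQ c P (some (none : Option T)) d)) h'.rep.st g x := fun g a x => by
    apply Subtype.ext
    rw [GP.coe_actN, Submodule.coe_smul, Submodule.coe_smul, GP.coe_actN, KR.actQ_smul (h'.rep.st g)]
  let Yo' : Submodule (OE E) (HQ c P (some (none : Option T)) → MN (T2 L₀) l 1) :=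
    OR.indW (SQ c P (N₀.map (iK K)) (some (none : Option T))) act2 lin2
      (redM (T2 L₀) l (wP ρ g₀ W))
  have hYo' : ∀ x, x ∈ Yo' ↔ Z1 (SQ c P (N₀.map (iK K)) (some (none : Option T)))
      (actN l 1 (fun d => rho2 (iK K) c κ (fun g => ρ g)
        (jQ c P (some (none : Option T)) d)) h'.rep.st) x ∧
      ∃ mm : MN (T2 L₀) l 1, ∀ g, ∃ z,
        ((x g - (actN l 1 (fun d => rho2 (iK K) c κ (fun g => ρ g)
        (jQ c P (some (none : Option T)) d)) h'.rep.st g mm - mm) : MN (T2 L₀) l 1) :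
          Wq (T2 L₀)) = mq (T2 L₀) (i z) := by
    intro x
    refine and_congr Iff.rfl (exists_congr fun mm => forall_congr' fun g => ?_)
    rw [mem_redM, ← hri]
    constructor
    · rintro ⟨w, ⟨z, rfl⟩, h1⟩
      exact ⟨z, h1⟩
    · rintro ⟨z, h1⟩
      exact ⟨_, ⟨z, rfl⟩, h1⟩
  have key := OP.dist_even p.loc h' hS Yo' hYo'
  have hord : OP.ordL (SQ c P (N₀.map (iK K)) (some (none : Option T)))
      (fun d => rho2 (iK K) c κ (fun g => ρ g) (jQ c P (some (none : Option T)) d)) q ρm =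
      grL c κ T P N₀ ρ g₀ W := by
    ext Y
    exact mem_ordX (H := stb (P 2)) hS hk
  have hkap : Module.finrank E (KE ρm) =
      Module.finrank E (Parity.fixedModulo (fun σ : stabD (K := K) (P 2) => ρ σ) W) -
        Module.finrank E W := by
    have h1 := finrank_KEX A h0 hW hS hk
    omega
  have key2 : EvPow (Nat.card (IsLocalRing.ResidueField (OE E)))
      (Nat.card ↥(lamN (T2 L₀) l 1 (grL c κ T P N₀ ρ g₀ W)) *
        Nat.card ↥(lamN (T2 L₀) l 1 (grL c κ T P N₀ ρ g₀ W) ⊓ Yo') *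
        Nat.card {x : MN (OP.stdL E m) l 1 // ∀ g, actN l 1 ρm hS.rep.st g x = x} *
        Nat.card (IsLocalRing.ResidueField (OE E)) ^
          (Module.finrank E (Parity.fixedModulo (fun σ : stabD (K := K) (P 2) => ρ σ) W) -
            Module.finrank E W)) := by
    rw [← hkap, ← hord]
    exact key
  -- transport to `M × M`
  have hYo : ∀ x, x ∈ tra (siso_iso L₀ l) Yo' ↔
      Z1 (SQ c P (N₀.map (iK K)) (some (none : Option T)))
        (fun d => ac2 (iK K) c κ (actN l 1 (fun g => ρ g) hst) (jQ c P (some (none : Option T)) d)) x ∧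
      ∃ mm, ∀ d, x d - d0 (fun d => ac2 (iK K) c κ (actN l 1 (fun g => ρ g) hst)
        (jQ c P (some (none : Option T)) d)) mm d ∈ redW L₀ l ρ g₀ W := by
    intro x
    obtain ⟨y, rfl⟩ : ∃ y : HQ c P (some (none : Option T)) → MN (T2 L₀) l 1,
        x = fun d => (isoN L₀ l 1).toAddEquiv (y d) :=
      ⟨fun d => (isoN L₀ l 1).symm (x d), funext fun d => ((isoN L₀ l 1).apply_symm_apply _).symm⟩
    rw [map_tra, z1_tra (f := (isoN L₀ l 1).toAddEquiv)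
      (ρ := actN l 1 (fun d => rho2 (iK K) c κ (fun g => ρ g)
        (jQ c P (some (none : Option T)) d)) h'.rep.st) hact]
    have e0 : ∀ mm d, isoN L₀ l 1 (y d - d0 (actN l 1 (fun d => rho2 (iK K) c κ (fun g => ρ g)
        (jQ c P (some (none : Option T)) d)) h'.rep.st) mm d) =
          isoN L₀ l 1 (y d) - d0 (fun d => ac2 (iK K) c κ (actN l 1 (fun g => ρ g) hst)
            (jQ c P (some (none : Option T)) d)) (isoN L₀ l 1 mm) d := fun mm d => by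
      rw [map_sub]
      simp only [d0, map_sub, hact]
    refine and_congr Iff.rfl ⟨?_, ?_⟩
    · rintro ⟨mm, h1⟩
      refine ⟨isoN L₀ l 1 mm, fun d => ?_⟩
      have h2 := (redW_iff (ρ := ρ) (g₀ := g₀) (W := W)).2 (h1 d)
      rw [e0] at h2
      exact h2
    · rintro ⟨mm', h1⟩
      obtain ⟨mm, rfl⟩ : ∃ mm, mm' = isoN L₀ l 1 mm :=
        ⟨(isoN L₀ l 1).symm mm', ((isoN L₀ l 1).apply_symm_apply _).symm⟩
      refine ⟨mm, fun d => redW_iff.1 ?_⟩
      rw [e0]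
      exact h1 d
  have hY : ∀ x ∈ YM L₀ l (grL c κ T P N₀ ρ g₀ W),
      Z1 (SQ c P (N₀.map (iK K)) (some (none : Option T)))
        (fun d => ac2 (iK K) c κ (actN l 1 (fun g => ρ g) hst)
          (jQ c P (some (none : Option T)) d)) x := by
    intro x hx
    obtain ⟨y, rfl⟩ : ∃ y : HQ c P (some (none : Option T)) → MN (T2 L₀) l 1,
        x = fun d => isoN L₀ l 1 (y d) :=
      ⟨fun d => (isoN L₀ l 1).symm (x d), funext fun d => ((isoN L₀ l 1).apply_symm_apply _).symm⟩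
    obtain ⟨X, hX, h1⟩ := mem_YM.1 hx
    have h2 := KR.zv_level h'.lat h'.rep 1 hX.1 h1
    exact (z1_tra (f := (isoN L₀ l 1).toAddEquiv) hact).2 h2
  let pb := pbar (T₂ := T2 L₀) (p := q) l (fun x hx => hS.pT hx)
  let Q : MN L₀ l 1 × MN L₀ l 1 →+ MN (OP.stdL E m) l 1 :=
    pb.comp (isoN L₀ l 1).symm.toAddEquiv.toAddMonoidHom
  have hQ : ∀ x, Q (isoN L₀ l 1 x) = pb x := fun x => by
    show pb ((isoN L₀ l 1).symm (isoN L₀ l 1 x)) = pb x
    rw [(isoN L₀ l 1).symm_apply_apply]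
  have hsurj : ∀ v : MN L₀ l 1 × MN L₀ l 1, ∃ x, v = isoN L₀ l 1 x := fun v =>
    ⟨(isoN L₀ l 1).symm v, ((isoN L₀ l 1).apply_symm_apply v).symm⟩
  have hτ : ∀ g, iK K g ≠ jQ c P (some (none : Option T)) ⟨iK K g₀ * c, h0⟩ := by
    intro g hg
    have h1 : iK K g = iK K g₀ * c := hg
    refine A.two.nc (g₀⁻¹ * g) ?_
    rw [map_mul, map_inv, h1, ← mul_assoc, inv_mul_cancel, one_mul]
  refine IU.locM_ind1 p hs hC hτ (eul_two I) (W1 := redW L₀ l ρ g₀ W)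
    (fun d w hw => redW_st A h0 hW hst hq.rep.st d hw)
    (fun v hv w hw => redW_iso hl hW0 hv hw) (fun v hv => redW_perp hl hW2 hW0 hv)
    (Yo := tra (siso_iso L₀ l) Yo') hY hYo (ω := actN l 1 ρm hS.rep.st) Q (fun y => ?_) (fun v => ?_)
    (fun d v => ?_) ?_
  · obtain ⟨x, hx⟩ := pbar_surj hS y
    exact ⟨isoN L₀ l 1 x, (hQ x).trans hx⟩
  · obtain ⟨x, rfl⟩ := hsurj v
    rw [hQ, redW_iff, ← hk]
    exact pbar_ker hS x
  · obtain ⟨x, rfl⟩ := hsurj v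
    rw [← hact, hQ, hQ]
    exact pbar_act hS h'.rep.st d x
  · have e1 : Nat.card (YM L₀ l (grL c κ T P N₀ ρ g₀ W)) =
        Nat.card (lamN (T2 L₀) l 1 (grL c κ T P N₀ ρ g₀ W)) := card_YM
    have e2 : Nat.card ↥(YM L₀ l (grL c κ T P N₀ ρ g₀ W) ⊓
        tra (siso_iso L₀ l) Yo') = Nat.card ↥(lamN (T2 L₀) l 1
          (grL c κ T P N₀ ρ g₀ W) ⊓ Yo') := by
      rw [YM, ← tra_inf]
      exact card_tra _ _
    rw [← e1, ← e2] at key2
    exact key2

end main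

end Pool.Agent.Work.MP_787500_nt.QX
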