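import Mathlib
import Pool.Agent.Work.MP_787500_nt.QX.Gr
import Pool.Agent.Work.MP_787500_nt.OL.Shp2

/-!
# The place 2 that does not split: the decomposition groups over the rational numbers and over `K`

* `jj Q`: the decomposition group over `K` in the decomposition group over the rational numbers.
* `lpl`: the local situation `OL.Lpl` for an element `g₀` with `iK K g₀ * c` in the decomposition group.
* `up_H`, `dn_H`: the systems.
-/

set_option autoImplicit false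
set_option linter.unusedSectionVars false

namespace Pool.Agent.Work.MP_787500_nt.QX

open Matrix NumberField
open Pool.Agent.Work.MP_787500_nt.GP (A0 OE bil Lat inT stabD cupE)
open Pool.Agent.Work.MP_787500_nt.KR (FSys IsChar ZV zV LocRep LocD IsBig fullC fullD fullK fullQ big Opn PerpV)
open Pool.Agent.Work.MP_787500_nt.PA (toE cyc)
open Pool.Agent.Work.MP_787500_nt.HP (IsP inr stb cyQ OpnQ)
open Pool.Agent.Work.MP_787500_nt.KS (iK)
open Pool.Agent.Work.MP_787500_nt.QS (Two)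
open Pool.Agent.Work.MP_787500_nt.GA (HQ SQ jQ iQ emb_refl_stb)
open Pool.Agent.Work.MP_787500_nt.QW (sysQ)
open Pool.Agent.Work.MP_787500_nt.OL (Ix Up Dn Lpl)

universe u w

variable {K : Type u} [Field K] [NumberField K]
  {c : AlgebraicClosure K ≃+* AlgebraicClosure K} {κ : AbsGal K →* AbsGal K} {T : Finset ℕ}
  {P : ℕ → Ideal (𝓞 (AlgebraicClosure K))} {N₀ : Subgroup (AbsGal K)}

/-- the decomposition group over `K` in the decomposition group over the rational numbers -/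
noncomputable def jj (Q : Ideal (𝓞 (AlgebraicClosure K))) : stabD (K := K) Q →* stb Q where
  toFun a := ⟨iK K a, emb_refl_stb.2 a.2⟩
  map_one' := Subtype.ext (map_one (iK K))
  map_mul' a b := Subtype.ext (map_mul (iK K) (a : AbsGal K) b)

theorem jj_coe (Q : Ideal (𝓞 (AlgebraicClosure K))) (a : stabD (K := K) Q) :
    ((jj Q a : stb Q) : AlgebraicClosure K ≃+* AlgebraicClosure K) = iK K a := rfl

/-- THE LOCAL SITUATION. -/
theorem lpl (X : Two (iK K) c κ) {Q : Ideal (𝓞 (AlgebraicClosure K))} {g₀ : AbsGal K}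
    (h0 : iK K g₀ * c ∈ stb Q) {k : stabD (K := K) Q → stabD (K := K) Q}
    (hk : ∀ a, (k a : AbsGal K) = g₀ * κ a * g₀⁻¹) :
    ∃ t, Lpl (iK K) c κ (stabD (K := K) Q).subtype (stb Q).subtype (jj Q) ⟨iK K g₀ * c, h0⟩ k t g₀ := by
  have h1 : iK K (g₀ * κ g₀) ∈ stb Q := (out_mem X h0 h0).2
  refine ⟨⟨g₀ * κ g₀, emb_refl_stb.1 h1⟩, ?_⟩
  refine ⟨⟨fun a b h => ?_, fun d => ?_, fun a h => ?_, fun a => ?_, ?_⟩, X, fun a => rfl, rfl⟩
  · have h2 := congrArg Subtype.val h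
    exact Subtype.ext (X.inj h2)
  · rcases X.cases (d : AlgebraicClosure K ≃+* AlgebraicClosure K) with ⟨g, hg⟩ | ⟨g, hg⟩
    · refine Or.inl ⟨⟨g, emb_refl_stb.1 ?_⟩, Subtype.ext hg⟩
      show iK K g ∈ stb Q
      rw [hg]
      exact d.2
    · right
      have h2 : iK K (g * g₀⁻¹) ∈ stb Q := by
        refine (out_mem X h0 (g := g) ?_).1
        rw [hg]
        exact d.2
      refine ⟨⟨g * g₀⁻¹, emb_refl_stb.1 h2⟩, Subtype.ext ?_⟩
      show iK K (g * g₀⁻¹) * (iK K g₀ * c) = _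
      rw [← hg, map_mul, map_inv]
      group
  · have h2 : iK K (a : AbsGal K) = iK K g₀ * c := congrArg Subtype.val h
    exact X.out _ _ h2
  · refine Subtype.ext ?_
    show iK K (k a) * (iK K g₀ * c) = iK K g₀ * c * iK K a
    rw [hk, map_mul, map_mul, map_inv, X.kap]
    calc _ = iK K g₀ * c * iK K a * (c * c) := by group
      _ = _ := by rw [X.cc, mul_one]
  · refine Subtype.ext ?_
    show iK K (g₀ * κ g₀) = iK K g₀ * c * (iK K g₀ * c)
    rw [map_mul, X.kap]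
    group

/-- the system on the decomposition group over `K` -/
noncomputable abbrev sysH (N₀ : Subgroup (AbsGal K)) (Q : Ideal (𝓞 (AlgebraicClosure K))) :
    FSys (stabD (K := K) Q) := big (fullD (stabD Q)) (N₀.subgroupOf (stabD Q))

/-- the system on the decomposition group over the rational numbers -/
noncomputable abbrev sysD (N₀ : Subgroup (AbsGal K)) (Q : Ideal (𝓞 (AlgebraicClosure K))) :
    FSys (stb Q) := big (fullC (stb Q)) ((N₀.map (iK K)).subgroupOf (stb Q))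

/-- the system over the rational numbers restricts -/
theorem dn_H (N₀ : Subgroup (AbsGal K)) (Q : Ideal (𝓞 (AlgebraicClosure K))) :
    Dn (sysH N₀ Q) (sysD N₀ Q) (jj Q) := by
  rintro W ⟨hn, ⟨W₁, ⟨⟨s, hs⟩, hn₁, hi₁⟩, hle⟩, hk⟩
  refine ⟨W.comap (jj Q), ⟨inferInstance, ⟨W₁.comap (jj Q), ⟨inferInstance, ?_, ?_⟩,
    Subgroup.comap_mono hle⟩, ?_⟩, fun a ha => ha⟩
  · rw [Subgroup.index_comap]
    exact fun h0 => hi₁ (Nat.eq_zero_of_zero_dvd (h0 ▸ Subgroup.relIndex_dvd_index_of_normal _ _))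
  · have hSf : Finite (s : Set (AlgebraicClosure K)) := s.finite_toSet.to_subtype
    have hfd : FiniteDimensional K (IntermediateField.adjoin K (s : Set (AlgebraicClosure K))) :=
      IntermediateField.finiteDimensional_adjoin fun x _ => Algebra.IsIntegral.isIntegral x
    refine ⟨(IntermediateField.adjoin K (s : Set (AlgebraicClosure K))).fixingSubgroup,
      IntermediateField.fixingSubgroup_isOpen _, fun a ha => ?_⟩
    refine hs _ fun x hx => ?_
    exact (IntermediateField.mem_fixingSubgroup_iff _ _).1 ha _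
      (IntermediateField.subset_adjoin _ _ hx)
  · refine KR.comap_rel (jj Q) W ?_ hk
    rintro _ ⟨a, ha, rfl⟩
    exact ⟨a, ha, rfl⟩

/-- the members of the system over `K` contain members of the system over the rational numbers -/
theorem up_H (A : ArX c κ T P N₀) {Q : Ideal (𝓞 (AlgebraicClosure K))} {g₀ : AbsGal K}
    {τ : stb Q} {k : stabD (K := K) Q → stabD (K := K) Q} {t : stabD (K := K) Q}
    (X : Lpl (iK K) c κ (stabD (K := K) Q).subtype (stb Q).subtype (jj Q) τ k t g₀) :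
    Up (sysH N₀ Q) (sysD N₀ Q) (jj Q) := by
  classical
  rintro V ⟨hn, ⟨V₁, ⟨hn₁, hi₁, U, hU, hUV⟩, hle⟩, hk⟩
  obtain ⟨kh, hkh⟩ : ∃ kh : stabD (K := K) Q →* stabD (K := K) Q, ∀ a, kh a = k a :=
    ⟨MonoidHom.mk' k X.k_mul, fun _ => rfl⟩
  have hkk : ∀ a, k (k a) = t * a * t⁻¹ := by
    intro a
    refine X.inj ?_
    rw [map_mul, map_mul, map_inv, X.kj, X.kj, X.sq]
    group
  -- a stable subgroup
  have hst : ∀ {V : Subgroup (stabD (K := K) Q)}, V.Normal → ∀ v ∈ V ⊓ V.comap kh,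
      k v ∈ V ⊓ V.comap kh := by
    intro V hV v hv
    refine ⟨by rw [← hkh]; exact hv.2, ?_⟩
    show kh (k v) ∈ V
    rw [hkh, hkk]
    exact hV.conj_mem v hv.1 t
  have hnm : ∀ {V : Subgroup (stabD (K := K) Q)}, V.Normal → ((V ⊓ V.comap kh).map (jj Q)).Normal := by
    intro V hV
    refine ⟨?_⟩
    rintro _ ⟨v, hv, rfl⟩ d
    have h1 : ∀ a : stabD (K := K) Q, ∀ v ∈ V ⊓ V.comap kh, a * v * a⁻¹ ∈ V ⊓ V.comap kh :=
      fun a v hv => (inferInstance : (V ⊓ V.comap kh).Normal).conj_mem v hv a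
    rcases X.cases d with ⟨a, rfl⟩ | ⟨a, rfl⟩
    · exact ⟨a * v * a⁻¹, h1 a v hv, by rw [map_mul, map_mul, map_inv]⟩
    · refine ⟨a * k v * a⁻¹, h1 a _ (hst hV v hv), ?_⟩
      rw [map_mul, map_mul, map_inv, X.kj]
      group
  have hindex : (jj (K := K) Q).range.index ≠ 0 := by
    intro h0
    have h2 : (jj (K := K) Q).range.index = 2 := by
      rw [Subgroup.index_eq_two_iff]
      refine ⟨τ, fun d => ?_⟩
      have h3 : ∀ a, jj Q a * τ ∉ (jj (K := K) Q).range := by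
        rintro a ⟨b, hb⟩
        exact X.ne _ _ hb
      rcases X.cases d with ⟨a, rfl⟩ | ⟨a, rfl⟩
      · exact Or.inr ⟨⟨a, rfl⟩, h3 a⟩
      · refine Or.inl ⟨?_, h3 a⟩
        rw [mul_assoc, ← X.sq, ← map_mul]
        exact ⟨_, rfl⟩
    omega
  refine ⟨(V ⊓ V.comap kh).map (jj Q), ⟨hnm hn, ⟨(V₁ ⊓ V₁.comap kh).map (jj Q), ⟨?_, hnm hn₁, ?_⟩, ?_⟩, ?_⟩,
    fun w hw => ?_⟩
  · -- open
    obtain ⟨s₁, hs₁⟩ := GA.exists_fin (RingEquiv.refl (AlgebraicClosure K)) hU
    obtain ⟨⟨⟨s₀, hs₀⟩, -, -⟩, -⟩ := A.unr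
    refine ⟨s₁ ∪ s₁.image (fun x => c (g₀⁻¹ x)) ∪ s₀, fun g hg => ?_⟩
    obtain ⟨m, hm⟩ := hs₀ (g : AlgebraicClosure K ≃+* AlgebraicClosure K) fun x hx =>
      hg x (Finset.mem_union_right _ hx)
    have hmQ : m ∈ stabD (K := K) Q := emb_refl_stb.1 (by
      show iK K m ∈ stb Q
      rw [hm]
      exact g.2)
    have hgx : ∀ x, (g : AlgebraicClosure K ≃+* AlgebraicClosure K) x = m x := fun x => by
      rw [← hm]
      rfl
    have m1 : m ∈ U := hs₁ m fun x hx => by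
      have h2 := hg x (Finset.mem_union_left _ (Finset.mem_union_left _ hx))
      show m x = x
      rw [← hgx, h2]
    have m2 : (k ⟨m, hmQ⟩ : AbsGal K) ∈ U := hs₁ _ fun x hx => by
      have h2 := hg (c (g₀⁻¹ x)) (Finset.mem_union_left _ (Finset.mem_union_right _
        (Finset.mem_image_of_mem _ hx)))
      rw [hgx] at h2
      have h3 : (k ⟨m, hmQ⟩ : AbsGal K) = g₀ * κ m * g₀⁻¹ := X.jk ⟨m, hmQ⟩
      show (k ⟨m, hmQ⟩ : AbsGal K) x = x
      rw [h3, AlgEquiv.mul_apply, AlgEquiv.mul_apply, kap_c A.two, h2, sq_c A.two,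
        ← AlgEquiv.mul_apply, mul_inv_cancel]
      rfl
    refine ⟨⟨m, hmQ⟩, ⟨hUV m1, ?_⟩, Subtype.ext hm⟩
    show kh ⟨m, hmQ⟩ ∈ V₁
    rw [hkh]
    exact hUV m2
  · rw [Subgroup.index_map_of_injective _ X.inj]
    refine mul_ne_zero (Subgroup.index_inf_ne_zero hi₁ ?_) hindex
    rw [Subgroup.index_comap]
    exact fun h0 => hi₁ (Nat.eq_zero_of_zero_dvd (h0 ▸ Subgroup.relIndex_dvd_index_of_normal _ _))
  · exact Subgroup.map_mono (inf_le_inf hle (Subgroup.comap_mono hle))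
  · have e1 : (N₀.map (iK K)).subgroupOf (stb Q) = (N₀.subgroupOf (stabD (K := K) Q)).map (jj Q) := by
      ext d
      constructor
      · rintro ⟨m, hm, hd⟩
        have hmQ : m ∈ stabD (K := K) Q := emb_refl_stb.1 (by
          show iK K m ∈ stb Q
          rw [hd]
          exact d.2)
        exact ⟨⟨m, hmQ⟩, hm, Subtype.ext hd⟩
      · rintro ⟨a, ha, rfl⟩
        exact ⟨a, ha, rfl⟩
    rw [e1]
    have h2 : ∃ m : ℕ, (V ⊓ V.comap kh).relIndex (N₀.subgroupOf (stabD (K := K) Q)) = 2 ^ m := by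
      refine KR.relIndex_inf hk (KR.comap_rel kh V ?_ hk)
      rintro _ ⟨a, ha, rfl⟩
      rw [hkh]
      show (k a : AbsGal K) ∈ N₀
      have h3 : (k a : AbsGal K) = g₀ * κ a * g₀⁻¹ := X.jk a
      rw [h3]
      exact A.nor.conj_mem _ (A.kN _ ha) _
    obtain ⟨m, hm⟩ := h2
    refine ⟨m, ?_⟩
    rw [← hm, Subgroup.relIndex_map_map_of_injective _ _ X.inj]
  · obtain ⟨v, hv, rfl⟩ := hw
    exact ⟨v, hv.1, rfl⟩

end Pool.Agent.Work.MP_787500_nt.QX
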