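import Mathlib
import Pool.Agent.Work.MP_787500_nt.QX.SysH
import Pool.Agent.Work.MP_787500_nt.QX.LDefs
import Pool.Agent.Work.MP_787500_nt.QX.Loc2
import Pool.Agent.Work.MP_787500_nt.OL.LocC
import Pool.Agent.Work.MP_787500_nt.GP.LT2_Sep

/-!
# An arbitrary self-annihilating condition at the place 2 that does not split

* `sL M`: the condition for the induced representation given by a space `M` of cocycles of the decomposition group
  over `K`.
* `lagV_sL`: it is Lagrangian if `M` is its own annihilator. `self_gr`: Greenberg's condition is its own annihilator.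
* `selK_sL`: the Selmer space over `K`.
* `locX_sL`: THE CONTRIBUTION of the condition.
-/

set_option autoImplicit false
set_option linter.unusedSectionVars false

namespace Pool.Agent.Work.MP_787500_nt.QX

open Matrix NumberField
open Pool.Agent.Work.MP_787500_nt.GP (A0 OE bil Lat inT stabD cupE EvPow actN lamN MN bN)
open Pool.Agent.Work.MP_787500_nt.KR (FSys IsChar ZV zV LocRep LocD IsBig fullC fullD fullK fullQ big Opn PerpV
  ProRep)
open Pool.Agent.Work.MP_787500_nt.PA (toE cyc)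
open Pool.Agent.Work.MP_787500_nt.HP (IsP inr stb cyQ OpnQ)
open Pool.Agent.Work.MP_787500_nt.KS (iK)
open Pool.Agent.Work.MP_787500_nt.QS (Two Lag)
open Pool.Agent.Work.MP_787500_nt.QV (ind rho2 N1e selK selE QRep T2 J2 blk LagV v1 v1_ap ind_e)
open Pool.Agent.Work.MP_787500_nt.GA (HQ SQ jQ iQ emb_refl_stb)
open Pool.Agent.Work.MP_787500_nt.QW (sysQ locRep_res res_zv)
open Pool.Agent.Work.MP_787500_nt.QP (InvC)
open Pool.Agent.Work.MP_787500_nt.OL (Ix Up Dn Lpl shp rs tw0 mem_shp)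

universe u w

variable {K : Type u} [Field K] [NumberField K]
  {c : AlgebraicClosure K ≃+* AlgebraicClosure K} {κ : AbsGal K →* AbsGal K} {T : Finset ℕ}
  {P : ℕ → Ideal (𝓞 (AlgebraicClosure K))} {N₀ : Subgroup (AbsGal K)}
  {E : Type w} [NormedField E] [NormedAlgebra ℚ_[2] E] {n : ℕ}
  {ρ : AbsGal K →* Matrix (Fin n) (Fin n) E} {b : Matrix (Fin n) (Fin n) E}
  {l : OE E} {t : E →ₗ[ℚ_[2]] ℚ_[2]} {L₀ : Submodule (OE E) (Fin n → E)}
  {g₀ : AbsGal K} {W : Submodule E (Fin n → E)}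

/-- THE CONDITION for the induced representation. -/
noncomputable def sL (c : AlgebraicClosure K ≃+* AlgebraicClosure K) (κ : AbsGal K →* AbsGal K)
    (P : ℕ → Ideal (𝓞 (AlgebraicClosure K))) (N₀ : Subgroup (AbsGal K))
    (ρ : AbsGal K →* Matrix (Fin n) (Fin n) E) (M : Submodule E (stabD (K := K) (P 2) → Fin n → E)) :
    Submodule E (stb (P 2) → Fin (n + n) → E) :=
  shp (sysD N₀ (P 2)) (fun d : stb (P 2) => rho2 (iK K) c κ (fun g => ρ g)
    (d : AlgebraicClosure K ≃+* AlgebraicClosure K)) (jj (P 2)) M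

/-- continuous cocycles of the decomposition group over `K` -/
theorem coc_H [FiniteDimensional ℚ_[2] E] (A : ArX c κ T P N₀) (hρ : Gn.ConjDual 2 N₀ (inT K T) (Parity.cyclo E) κ ρ b)
    {Q : Ideal (𝓞 (AlgebraicClosure K))} {x : stabD (K := K) Q → Fin n → E} :
    Parity.IsCocycle (fun σ : stabD (K := K) Q => ρ σ) x ↔
      ZV (sysH N₀ Q) (fun σ : stabD (K := K) Q => ρ σ) x := by
  have hcl := GP.stabD_closed (K := K) Q
  have hc : CompactSpace (stabD (K := K) Q) := isCompact_iff_compactSpace.1 hcl.isCompact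
  have hn := A.nor
  have h := KR.big_coc (x := x) (KR.base_of (inferInstance : (N₀.subgroupOf (stabD (K := K) Q)).Normal)
    (A.opn.preimage continuous_subtype_val)) (KR.isBig_D N₀ hcl)
    (A := fun σ : stabD (K := K) Q => ρ σ)
    ⟨map_one ρ, fun s t => map_mul ρ _ _, hρ.cont.comp continuous_subtype_val,
      fun s hs => hρ.proP s hs⟩ (fun _ h => h.elim)
  exact ⟨fun h1 => h.1 ⟨h1, fun _ h => h.elim⟩, fun h1 => (h.2 h1).1⟩

/-- the character of the decomposition group over `K` -/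
theorem char_H [FiniteDimensional ℚ_[2] E] {Q : Ideal (𝓞 (AlgebraicClosure K))}
    (hχ : IsChar (sysD N₀ Q) (fun d : stb Q => cyQ (d : AlgebraicClosure K ≃+* AlgebraicClosure K))) :
    IsChar (sysH N₀ Q) (fun a : stabD (K := K) Q => cyc (a : AbsGal K)) where
  one := by
    rw [← chi, OneMemClass.coe_one, map_one]
    exact hχ.one
  mul a a' := by
    rw [← chi, ← chi, ← chi, Subgroup.coe_mul, map_mul]
    exact hχ.mul (jj Q a) (jj Q a')
  cont m := by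
    obtain ⟨V, hV, h⟩ := hχ.cont m
    obtain ⟨V', hV', h'⟩ := dn_H N₀ Q V hV
    refine ⟨V', hV', fun a v hv => ?_⟩
    have h1 := h (jj Q a) _ (h' v hv)
    rw [← map_mul] at h1
    show (2 : ℤ_[2]) ^ m ∣ cyc ((a * v : stabD (K := K) Q) : AbsGal K) - cyc (a : AbsGal K)
    rw [← chi, ← chi]
    exact h1
  odd a := by
    rw [← chi]
    exact hχ.odd (jj Q a)

/-- orthogonality, in topological terms -/
theorem perp_H [FiniteDimensional ℚ_[2] E] (A : ArX c κ T P N₀)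
    (hρ : Gn.ConjDual 2 N₀ (inT K T) (Parity.cyclo E) κ ρ b) {Q : Ideal (𝓞 (AlgebraicClosure K))}
    (hχ : IsChar (sysD N₀ Q) (fun d : stb Q => cyQ (d : AlgebraicClosure K ≃+* AlgebraicClosure K)))
    {M : Submodule E (stabD (K := K) Q → Fin n → E)}
    (hM : ∀ x ∈ M, Parity.IsCocycle (fun σ : stabD (K := K) Q => ρ σ) x)
    {y : stabD (K := K) Q → Fin n → E} :
    Parity.IsPerp (fun σ : stabD (K := K) Q => Parity.cyclo E (σ : AbsGal K))
        (fun σ : stabD (K := K) Q => ρ (κ σ)) b M y ↔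
      PerpV (sysH N₀ Q) (fun a : stabD (K := K) Q => cyc (a : AbsGal K)) b
        (fun a : stabD (K := K) Q => ρ (κ a)) M y := by
  have hcl := GP.stabD_closed (K := K) Q
  have hc : CompactSpace (stabD (K := K) Q) := isCompact_iff_compactSpace.1 hcl.isCompact
  have hn := A.nor
  have hκ := kap_cont A.two
  exact KR.big_perp (KR.basis_sub (HP.basis_K K))
    (inferInstance : (N₀.subgroupOf (stabD (K := K) Q)).Normal)
    (A.opn.preimage continuous_subtype_val) (KR.isBig_D N₀ hcl) (char_H (E := E) hχ)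
    (A := fun σ : stabD (K := K) Q => ρ σ)
    ⟨map_one ρ, fun s t => map_mul ρ _ _, hρ.cont.comp continuous_subtype_val,
      fun s hs => hρ.proP s hs⟩
    ⟨by
      show ρ (κ 1) = 1
      rw [map_one, map_one], fun s t => by
      show ρ (κ (s * t)) = ρ (κ s) * ρ (κ t)
      rw [map_mul, map_mul], hρ.cont.comp (hκ.comp continuous_subtype_val),
      fun s hs => by
        have h := hρ.proP (κ s) (A.kN _ hs)
        refine h.congr fun m => ?_
        show ρ (κ s ^ 2 ^ m) = ρ (κ ((s : AbsGal K) ^ 2 ^ m))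
        rw [map_pow κ]⟩ hM

section lag

variable [FiniteDimensional ℚ_[2] E]

/-- the representation of the decomposition group over `K` -/
theorem rep_H (A : ArX c κ T P N₀) (hρ : Gn.ConjDual 2 N₀ (inT K T) (Parity.cyclo E) κ ρ b)
    (hst : ∀ g, ∀ x ∈ L₀, ρ g *ᵥ x ∈ L₀) (Q : Ideal (𝓞 (AlgebraicClosure K))) :
    LocRep (sysH N₀ Q) (fun a : stabD (K := K) Q => cyc ((stabD (K := K) Q).subtype a)) L₀ b
      (fun a => ρ ((stabD (K := K) Q).subtype a)) (fun a => ρ (κ ((stabD (K := K) Q).subtype a))) := by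
  refine locRep_res (A.rep hρ hst) fun V hV => ?_
  obtain ⟨V', hV', h1⟩ := A.up hV
  obtain ⟨hn, ⟨V₁, hV₁, h2⟩, hk⟩ := hV'
  obtain ⟨V₂, hV₂, h3⟩ := dn_H N₀ Q (V'.subgroupOf (stb Q)) ⟨inferInstance,
    ⟨_, GA.subgroupOf_fullC hV₁ (stb Q), fun v hv => h2 hv⟩,
    KR.comap_rel (stb Q).subtype V' (Subgroup.map_comap_le _ _) hk⟩
  refine ⟨V₂, hV₂, fun a ha => ?_⟩
  obtain ⟨g, hg, h4⟩ := h1 _ (h3 a ha)
  have h5 : g = (a : AbsGal K) := A.two.inj h4
  show (a : AbsGal K) ∈ V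
  rw [← h5]
  exact hg

/-- A SELF-ANNIHILATING CONDITION IS LAGRANGIAN. -/
theorem lagV_sL (A : ArX c κ T P N₀)
    {ivF : ∀ w : Option T, (stb (HP.PP P w) → stb (HP.PP P w) → A0) → A0}
    (HL : LocD.{0} (SQ c P (N₀.map (iK K)) (some (none : Option T)))
      (fun d => cyQ (GA.jQ c P (some none) d)) (GA.iQ c P ivF (some none)))
    (hρ : Gn.ConjDual 2 N₀ (inT K T) (Parity.cyclo E) κ ρ b) (hl : Lat b l t L₀)
    (hst : ∀ g, ∀ x ∈ L₀, ρ g *ᵥ x ∈ L₀)
    (hm : ∀ σ τ : AlgebraicClosure K ≃+* AlgebraicClosure K, cyQ (σ * τ) = cyQ σ * cyQ τ)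
    (h0 : iK K g₀ * c ∈ stb (P 2)) {k : stabD (K := K) (P 2) → stabD (K := K) (P 2)}
    (hk : ∀ a, (k a : AbsGal K) = g₀ * κ a * g₀⁻¹)
    {M : Submodule E (stabD (K := K) (P 2) → Fin n → E)}
    (hM : Parity.IsSelfPerp (Parity.cyclo E) κ ρ b (stabD (K := K) (P 2)) (ρ g₀⁻¹) k M) :
    LagV (SQ c P (N₀.map (iK K)) (some (none : Option T)))
      (fun d => cyQ (GA.jQ c P (some none) d)) (blk 0 b b 0) (J2 E n)
      (fun d => rho2 (iK K) c κ (fun g => ρ g) (GA.jQ c P (some none) d)) (sL c κ P N₀ ρ M) := by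
  obtain ⟨t', X⟩ := lpl A.two h0 hk
  have hr := locRep_res (A.qrep hρ hl hst hm).rep (GA.jsmQ c P (N₀.map (iK K)) (some (none : Option T)))
  have hMc : ∀ x ∈ M, Parity.IsCocycle (fun σ : stabD (K := K) (P 2) => ρ σ) x := fun x hx => hM.1.2 hx
  exact OL.lagV_shp (χ := cyc) (χq := cyQ) X (up_H A X) (dn_H N₀ (P 2)) (map_one ρ)
    (fun s u => map_mul ρ s u) chi HL (rep_H A hρ hst (P 2)) hr
    (fun v => QV.zv_cob (A.qrep hρ hl hst hm).lat.symm hr v)
    (fun x hx => (coc_H A hρ).1 (hMc x hx)) (fun v => hM.1.1 ⟨v, fun _ => rfl⟩)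
    fun y hy => (hM.2 y ((coc_H A hρ).2 hy)).trans (perp_H A hρ HL.char hMc)

/-- the conditions of Greenberg -/
theorem sL_gr (A : ArX c κ T P N₀) (hρ : Gn.ConjDual 2 N₀ (inT K T) (Parity.cyclo E) κ ρ b)
    (h0 : iK K g₀ * c ∈ stb (P 2)) (hW : ∀ σ ∈ stabD (K := K) (P 2), ∀ x ∈ W, ρ σ *ᵥ x ∈ W) :
    sL c κ P N₀ ρ (Parity.greenbergAt ρ (stabD (K := K) (P 2)) W) = grL c κ T P N₀ ρ g₀ W := by
  classical
  have hW' : ∀ g, iK K g ∈ stb (P 2) → ∀ x ∈ W, ρ g *ᵥ x ∈ W := fun g hg =>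
    hW g (emb_refl_stb.1 hg)
  obtain ⟨k, hk⟩ : ∃ k : stabD (K := K) (P 2) → stabD (K := K) (P 2),
      ∀ a, (k a : AbsGal K) = g₀ * κ a * g₀⁻¹ :=
    ⟨fun a => ⟨g₀ * κ a * g₀⁻¹, emb_refl_stb.1 (conj_mem A.two h0 (emb_refl_stb.2 a.2))⟩, fun _ => rfl⟩
  obtain ⟨t', X⟩ := lpl A.two h0 hk
  ext Y
  have key : ∀ (_ : ZV (sysD N₀ (P 2)) (fun d : stb (P 2) => rho2 (iK K) c κ (fun g => ρ g)
      (d : AlgebraicClosure K ≃+* AlgebraicClosure K)) Y),
      (∃ w, ∀ d : stb (P 2), Y d - (rho2 (iK K) c κ (fun g => ρ g)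
        (d : AlgebraicClosure K ≃+* AlgebraicClosure K) *ᵥ w - w) ∈ wP ρ g₀ W) ↔
      rs E n (jj (P 2)) Y ∈ Parity.greenbergAt ρ (stabD (K := K) (P 2)) W := by
    intro hz
    obtain ⟨Y', hY'⟩ : ∃ Y' : (AlgebraicClosure K ≃+* AlgebraicClosure K) → Fin (n + n) → E,
        ∀ d : stb (P 2), Y' d = Y d := by
      refine ⟨fun d => if h : d ∈ stb (P 2) then Y ⟨d, h⟩ else 0, fun d => ?_⟩
      show (if h : (d : AlgebraicClosure K ≃+* AlgebraicClosure K) ∈ stb (P 2) then Y ⟨d, h⟩ else 0) = Y d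
      rw [dif_pos d.2]
    have h1 := cob_wP A.two h0 hW' (Y := Y') (fun a ha d hd => by
      have h2 := hz.2 ⟨a, ha⟩ ⟨d, hd⟩
      rw [← hY', ← hY', ← hY'] at h2
      exact h2)
    have h3 : (∃ w, ∀ d : stb (P 2), Y d - (rho2 (iK K) c κ (fun g => ρ g)
        (d : AlgebraicClosure K ≃+* AlgebraicClosure K) *ᵥ w - w) ∈ wP ρ g₀ W) ↔
        ∃ w, ∀ d ∈ stb (P 2), Y' d - (rho2 (iK K) c κ (fun g => ρ g) d *ᵥ w - w) ∈ wP ρ g₀ W := by
      refine exists_congr fun w => ⟨fun h d hd => ?_, fun h d => ?_⟩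
      · have h4 := h ⟨d, hd⟩
        rwa [← hY'] at h4
      · have h4 := h d d.2
        rwa [hY'] at h4
    rw [h3, h1]
    have h5 : Parity.IsCocycle (fun σ : stabD (K := K) (P 2) => ρ σ) (rs E n (jj (P 2)) Y) :=
      (coc_H A hρ).2 (OL.rs_zv X (dn_H N₀ (P 2)) hz)
    have h6 : ∀ a : stabD (K := K) (P 2), v1 (Y' (iK K a)) = rs E n (jj (P 2)) Y a := fun a => by
      rw [OL.rs_apply, ← hY']
      rfl
    constructor
    · rintro ⟨v, hv⟩
      refine ⟨h5, v, fun a => ?_⟩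
      have h7 := hv a (emb_refl_stb.2 a.2)
      rwa [h6] at h7
    · rintro ⟨-, v, hv⟩
      refine ⟨v, fun g hg => ?_⟩
      have h7 := hv ⟨g, emb_refl_stb.1 hg⟩
      rwa [← h6] at h7
  constructor
  · rintro ⟨h1, h2⟩
    exact ⟨h1, (key h1).2 h2⟩
  · rintro ⟨h1, h2⟩
    exact ⟨h1, (key h1).1 h2⟩

/-- THE SELMER SPACE OVER `K`. -/
theorem selK_sL (A : ArX c κ T P N₀)
    (hρ : Gn.ConjDual 2 N₀ (inT K T) (Parity.cyclo E) κ ρ b)
    (M : Submodule E (stabD (K := K) (P 2) → Fin n → E)) :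
    selK A.two (sysQ T N₀) (GA.jQ c P) (fun g => ρ g) (famX c κ T P N₀ ρ (sL c κ P N₀ ρ M)) =
      Parity.selmerAt (Parity.inertiaOffTwo K) ρ (stabD (P 2)) M := by
  ext x
  rw [mem_selX A hρ]
  have h6 : rs E n (jj (P 2)) (fun d : stb (P 2) => ind (iK K) c κ x
      (d : AlgebraicClosure K ≃+* AlgebraicClosure K)) = fun a : stabD (K := K) (P 2) => x a := by
    funext a
    show v1 (ind (iK K) c κ x (iK K a)) = x a
    rw [ind_e A.two, v1_ap]
  constructor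
  · rintro ⟨h1, h2, h3⟩
    refine ⟨h1, h2, ?_⟩
    have h4 := h3.2
    rw [← h6]
    exact h4
  · rintro ⟨h1, h2, h3⟩
    refine ⟨h1, h2, res_zv (c := c) (ind_zvX A hρ h1 h2) (some none), ?_⟩
    show rs E n (jj (P 2)) _ ∈ M
    rw [← h6] at h3
    exact h3

/-- GREENBERG'S CONDITION IS ITS OWN ANNIHILATOR. -/
theorem self_gr (A : ArX c κ T P N₀)
    {ivF : ∀ w : Option T, (stb (HP.PP P w) → stb (HP.PP P w) → A0) → A0}
    (HL0 : LocD.{0} (SQ c P (N₀.map (iK K)) (some (none : Option T)))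
      (fun d => cyQ (GA.jQ c P (some none) d)) (GA.iQ c P ivF (some none)))
    (HL : LocD.{w} (SQ c P (N₀.map (iK K)) (some (none : Option T)))
      (fun d => cyQ (GA.jQ c P (some none) d)) (GA.iQ c P ivF (some none)))
    (hρ : Gn.ConjDual 2 N₀ (inT K T) (Parity.cyclo E) κ ρ b) (hl : Lat b l t L₀)
    (hst : ∀ g, ∀ x ∈ L₀, ρ g *ᵥ x ∈ L₀)
    (hm : ∀ σ τ : AlgebraicClosure K ≃+* AlgebraicClosure K, cyQ (σ * τ) = cyQ σ * cyQ τ)
    (h0 : iK K g₀ * c ∈ stb (P 2)) {k : stabD (K := K) (P 2) → stabD (K := K) (P 2)}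
    (hk : ∀ a, (k a : AbsGal K) = g₀ * κ a * g₀⁻¹)
    (hW : ∀ σ ∈ stabD (K := K) (P 2), ∀ x ∈ W, ρ σ *ᵥ x ∈ W) (hW2 : 2 * Module.finrank E W = n)
    (hW0 : ∀ x ∈ W, ∀ y ∈ W, bil b x (ρ g₀⁻¹ *ᵥ y) = 0) :
    Parity.IsSelfPerp (Parity.cyclo E) κ ρ b (stabD (K := K) (P 2)) (ρ g₀⁻¹) k
      (Parity.greenbergAt ρ (stabD (K := K) (P 2)) W) := by
  obtain ⟨t', X⟩ := lpl A.two h0 hk
  have hr := locRep_res (A.qrep hρ hl hst hm).rep (GA.jsmQ c P (N₀.map (iK K)) (some (none : Option T)))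
  have hG := lag_gr A HL hρ hl hst hm h0 hW hW2 hW0
  rw [← sL_gr (T := T) A hρ h0 hW] at hG
  have hMc : ∀ x ∈ Parity.greenbergAt ρ (stabD (K := K) (P 2)) W,
      Parity.IsCocycle (fun σ : stabD (K := K) (P 2) => ρ σ) x := fun x hx => hx.1
  have hcob : ∀ v : Fin n → E, (fun σ : stabD (K := K) (P 2) => ρ σ *ᵥ v - v) ∈
      Parity.cocycles (fun σ : stabD (K := K) (P 2) => ρ σ) := fun v =>
    ⟨((hρ.cont.comp continuous_subtype_val).matrix_mulVec continuous_const).sub continuous_const,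
      fun s t => by
        show ρ (s * t) *ᵥ v - v = ρ s *ᵥ v - v + ρ s *ᵥ (ρ t *ᵥ v - v)
        rw [map_mul, mulVec_sub, mulVec_mulVec]
        abel⟩
  refine ⟨⟨?_, fun x hx => hx.1⟩, fun y hy => ?_⟩
  · rintro x ⟨v, hv⟩
    obtain rfl : x = fun σ : stabD (K := K) (P 2) => ρ σ *ᵥ v - v := funext hv
    exact ⟨hcob v, v, fun σ => by rw [sub_self]; exact W.zero_mem⟩
  · have hy' := (coc_H A hρ).1 hy
    refine Iff.trans ?_ (perp_H A hρ HL0.char hMc).symm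
    obtain ⟨Y, hY, hYy⟩ := OL.exists_sh (map_one ρ) (fun s u => map_mul ρ s u) X (up_H A X)
      (dn_H N₀ (P 2)) hy'
    have h1 := hG.self Y hY
    have h2 : Y ∈ sL c κ P N₀ ρ (Parity.greenbergAt ρ (stabD (K := K) (P 2)) W) ↔
        y ∈ Parity.greenbergAt ρ (stabD (K := K) (P 2)) W := by
      rw [← hYy]
      exact ⟨fun h => h.2, fun h => ⟨hY, h⟩⟩
    refine h2.symm.trans (h1.trans ?_)
    constructor
    · intro h3
      refine ⟨OL.tw0_zv (map_one ρ) (fun s u => map_mul ρ s u) X (up_H A X) (dn_H N₀ (P 2)) hy',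
        fun x hx => ?_⟩
      obtain ⟨Z, hZ, rfl⟩ := OL.exists_sh (map_one ρ) (fun s u => map_mul ρ s u) X (up_H A X)
        (dn_H N₀ (P 2)) ((coc_H A hρ).1 (hMc x hx))
      rw [← hYy]
      exact (OL.be_iff (χ := cyc) (χq := cyQ) X (up_H A X) (dn_H N₀ (P 2)) (map_one ρ)
        (fun s u => map_mul ρ s u) chi HL0 (rep_H A hρ hst (P 2)) hr hZ hY).1 (h3 Z ⟨hZ, hx⟩)
    · rintro ⟨-, h3⟩ Z hZ
      have h4 := h3 _ hZ.2
      rw [← hYy] at h4
      exact (OL.be_iff (χ := cyc) (χq := cyQ) X (up_H A X) (dn_H N₀ (P 2)) (map_one ρ)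
        (fun s u => map_mul ρ s u) chi HL0 (rep_H A hρ hst (P 2)) hr hZ.1 hY).2 h4

end lag

end Pool.Agent.Work.MP_787500_nt.QX
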