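import Mathlib
import Pool.Agent.Work.MP_787500_nt.QX.ArbL
import Pool.Agent.Work.MP_787500_nt.OL.Rank

/-!
# THE CONTRIBUTION OF AN ARBITRARY SELF-ANNIHILATING CONDITION at the place 2 that does not split
-/

set_option autoImplicit false
set_option linter.unusedSectionVars false

namespace Pool.Agent.Work.MP_787500_nt.QX

open Matrix NumberField
open Pool.Agent.Work.MP_787500_nt.GP (A0 OE bil Lat inT stabD cupE EvPow actN lamN MN bN)
open Pool.Agent.Work.MP_787500_nt.KR (FSys IsChar ZV zV LocRep LocD IsBig fullC fullD fullK fullQ big Opn PerpV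
  ProRep)
open Pool.Agent.Work.MP_787500_nt.PA (toE cyc)
open Pool.Agent.Work.MP_787500_nt.HP (IsP inr stb cyQ OpnQ)
open Pool.Agent.Work.MP_787500_nt.KS (iK)
open Pool.Agent.Work.MP_787500_nt.QV (ind rho2 N1e selK selE QRep T2 J2 blk LagV v1 v1_ap ind_e)
open Pool.Agent.Work.MP_787500_nt.GA (HQ SQ jQ iQ emb_refl_stb)
open Pool.Agent.Work.MP_787500_nt.QP (InvC)
open Pool.Agent.Work.MP_787500_nt.OL (Ix Up Dn Lpl shp rs tw0 mem_shp)

universe u w

variable {K : Type u} [Field K] [NumberField K]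
  {c : AlgebraicClosure K ≃+* AlgebraicClosure K} {κ : AbsGal K →* AbsGal K} {T : Finset ℕ}
  {P : ℕ → Ideal (𝓞 (AlgebraicClosure K))} {N₀ : Subgroup (AbsGal K)}
  {iv ivF : ∀ w : Option T, (stb (HP.PP P w) → stb (HP.PP P w) → A0) → A0}
  {tr : (((AlgebraicClosure K ≃+* AlgebraicClosure K) → (AlgebraicClosure K ≃+* AlgebraicClosure K) →
      (AlgebraicClosure K ≃+* AlgebraicClosure K) → A0) ×
      (∀ i : Option (Option T), HQ c P i → HQ c P i → A0)) →+ A0}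
  {E : Type w} [NormedField E] [NormedAlgebra ℚ_[2] E] [FiniteDimensional ℚ_[2] E]
  [IsLocalRing (OE E)] [Finite (IsLocalRing.ResidueField (OE E))]
  [CharP (IsLocalRing.ResidueField (OE E)) 2] [Algebra (ZMod 2) (IsLocalRing.ResidueField (OE E))]
  {n : ℕ} {ρ : AbsGal K →* Matrix (Fin n) (Fin n) E} {b : Matrix (Fin n) (Fin n) E}
  {l : OE E} {t : E →ₗ[ℚ_[2]] ℚ_[2]} {L₀ : Submodule (OE E) (Fin n → E)}
  {g₀ : AbsGal K}

/-- THE CONTRIBUTION OF A CONDITION `M` from the contribution of a condition `M₀`: the codimension of `M ⊓ M₀` in `M`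
is added. -/
theorem locX_sL (I : InX.{u, w} c κ T P N₀ iv ivF tr)
    (hρ : Gn.ConjDual 2 N₀ (inT K T) (Parity.cyclo E) κ ρ b) (hl : Lat b l t L₀)
    (hst : ∀ g, ∀ x ∈ L₀, ρ g *ᵥ x ∈ L₀) {C : MN L₀ l 1 → MN L₀ l 1}
    (h0 : iK K g₀ * c ∈ stb (P 2)) {k : stabD (K := K) (P 2) → stabD (K := K) (P 2)}
    (hk : ∀ a, (k a : AbsGal K) = g₀ * κ a * g₀⁻¹)
    {M M₀ : Submodule E (stabD (K := K) (P 2) → Fin n → E)}
    (hM : Parity.IsSelfPerp (Parity.cyclo E) κ ρ b (stabD (K := K) (P 2)) (ρ g₀⁻¹) k M)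
    (hM₀ : Parity.IsSelfPerp (Parity.cyclo E) κ ρ b (stabD (K := K) (P 2)) (ρ g₀⁻¹) k M₀) {δ : ℕ}
    (hloc : LocX c κ P N₀ ivF hl hst C (some none) (sL c κ P N₀ ρ M₀) δ) :
    ∃ r, FiniteDimensional E M ∧ LocX c κ P N₀ ivF hl hst C (some none) (sL c κ P N₀ ρ M)
      (δ + Parity.dimModulo M (M ⊓ M₀) + 2 * r) := by
  have hq := I.toArX.qrep hρ hl hst I.glob.glob.char.mul
  have hL := lagV_sL I.toArX (I.locD (some none)) hρ hl hst I.glob.glob.char.mul h0 hk hM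
  have hL₀ := lagV_sL I.toArX (I.locD (some none)) hρ hl hst I.glob.glob.char.mul h0 hk hM₀
  have HD : LocD.{w} (SQ c P (N₀.map (iK K)) (some (none : Option T)))
    (fun d => cyQ (GA.jQ c P (some none) d)) (GA.iQ c P ivF (some none)) := I.locD (some none)
  have r1 : rho2 (iK K) c κ (fun g => ρ g) (GA.jQ c P (some (none : Option T)) 1) = 1 := by
    rw [map_one]
    exact QV.rho2_one I.two (map_one ρ)
  have rm : ∀ s u, rho2 (iK K) c κ (fun g => ρ g) (GA.jQ c P (some (none : Option T)) (s * u)) =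
      rho2 (iK K) c κ (fun g => ρ g) (GA.jQ c P (some none) s) *
        rho2 (iK K) c κ (fun g => ρ g) (GA.jQ c P (some none) u) := fun s u => by
    rw [map_mul]
    exact QV.rho2_mul I.two (fun s t => map_mul ρ s t) _ _
  have hfd : FiniteDimensional E (zV (SQ c P (N₀.map (iK K)) (some (none : Option T)))
      (fun d => rho2 (iK K) c κ (fun g => ρ g) (GA.jQ c P (some none) d))) := KR.zV_fd HD.gens r1 rm
  obtain ⟨S, hS⟩ : ∃ S : Submodule E (HQ c P (some (none : Option T)) → Fin (n + n) → E),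
    S = sL c κ P N₀ ρ M := ⟨_, rfl⟩
  obtain ⟨S₀, hS₀⟩ : ∃ S : Submodule E (HQ c P (some (none : Option T)) → Fin (n + n) → E),
    S = sL c κ P N₀ ρ M₀ := ⟨_, rfl⟩
  rw [← hS] at hL
  rw [← hS₀] at hL₀ hloc
  have f1 : FiniteDimensional E S := OL.lag_fd HD r1 rm hL
  have f2 : FiniteDimensional E S₀ := OL.lag_fd HD r1 rm hL₀
  have h1 := OL.locM_lag HD I.glob.glob.char (I.jsm (some none)) I.two chi (chic I.two)
    (fun _ hW => I.up hW) (fun _ hW => ⟨_, I.ks hW, fun _ hv => hv⟩) hl (I.toArX.rep hρ hst) hq hL₀ hL hloc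
  have h2 := OL.lag_rank HD hq I.glob.glob.char (I.jsm (some none)) hL₀ hL
  obtain ⟨t', X⟩ := lpl I.two h0 hk
  have hz : ∀ {M : Submodule E (stabD (K := K) (P 2) → Fin n → E)},
      M ≤ Parity.cocycles (fun σ : stabD (K := K) (P 2) => ρ σ) →
      ∀ x ∈ M, ZV (sysH N₀ (P 2)) (fun a : stabD (K := K) (P 2) => ρ ((stabD (K := K) (P 2)).subtype a)) x :=
    fun h x hx => (coc_H I.toArX hρ).1 (h hx)
  obtain ⟨k1, k2⟩ := OL.finrank_shp (hfd := hfd) X (up_H I.toArX X) (dn_H N₀ (P 2)) (map_one ρ)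
    (fun s u => map_mul ρ s u) (hz hM.1.2)
  obtain ⟨-, k3⟩ := OL.finrank_shp (hfd := hfd) X (up_H I.toArX X) (dn_H N₀ (P 2)) (map_one ρ)
    (fun s u => map_mul ρ s u) (M := M ⊓ M₀) (hz (inf_le_left.trans hM.1.2))
  have k4 := GP.dimModulo_add (inf_le_left : M ⊓ M₀ ≤ M) k1
  have e1 : S₀ ⊓ S = sL c κ P N₀ ρ (M ⊓ M₀) := by
    rw [hS, hS₀]
    ext Y
    constructor
    · rintro ⟨h3, h4⟩
      exact ⟨h3.1, h4.2, h3.2⟩
    · rintro ⟨h3, h4, h5⟩
      exact ⟨⟨h3, h5⟩, ⟨h3, h4⟩⟩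
  rw [e1, h2] at h1
  obtain ⟨k₀, hk₀⟩ : ∃ k₀, k₀ = Module.finrank E (shp (sysD N₀ (P 2)) (fun d : stb (P 2) =>
    rho2 (iK K) c κ (fun g => ρ g) ((stb (P 2)).subtype d)) (jj (P 2))
      (⊥ : Submodule E (stabD (K := K) (P 2) → Fin n → E))) := ⟨_, rfl⟩
  rw [← hk₀] at k2 k3
  have k2' : Module.finrank E S = Module.finrank E M + k₀ := by
    rw [hS]
    exact k2
  have k3' : Module.finrank E (sL c κ P N₀ ρ (M ⊓ M₀)) = Module.finrank E ↥(M ⊓ M₀) + k₀ := k3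
  refine ⟨Module.finrank E ↥(M ⊓ M₀) + k₀, k1, ?_⟩
  rw [k2'] at h1
  have h1' : LocX c κ P N₀ ivF hl hst C (some none) S (δ + (Module.finrank E M + k₀ +
    Module.finrank E (sL c κ P N₀ ρ (M ⊓ M₀)))) := h1
  rw [k3', hS] at h1'
  have e2 : δ + Parity.dimModulo M (M ⊓ M₀) + 2 * (Module.finrank E ↥(M ⊓ M₀) + k₀) =
      δ + (Module.finrank E M + k₀ + (Module.finrank E ↥(M ⊓ M₀) + k₀)) := by
    rw [← k4]
    ring
  rw [e2]
  exact h1'

end Pool.Agent.Work.MP_787500_nt.QX
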