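import Mathlib
import Pool.Agent.Work.MP_787500_nt.QX.LDefs
import Pool.Agent.Work.MP_787500_nt.QX.ExtG

/-!
The parity statement `ParitySelf` over `E (√l)` implies the parity statement over `E`.

* `selfPerp_ext`: a space is its own annihilator if and only if its scalar extension is.
* `greenbergAt_ext`, `selmerAt_ext`: scalar extension of Greenberg's condition and of the Selmer group.
* `paritySelf_ext`: THE DESCENT.
-/

set_option autoImplicit false
set_option linter.unusedSectionVars false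

namespace Pool.Agent.Work.MP_787500_nt.QX

open Matrix
open Pool.Agent.Work.MP_787500_nt.PA (toE)
open Pool.Agent.Work.MP_787500_nt.GP
open Pool.Agent.Work.MP_787500_nt.LX

variable {E E' : Type*} [NormedField E] [NormedAlgebra ℚ_[2] E] [FiniteDimensional ℚ_[2] E]
  [NormedField E'] [NormedAlgebra ℚ_[2] E'] [FiniteDimensional ℚ_[2] E'] {ι : E →ₐ[ℚ_[2]] E'}
  {l : E} {m : E'} {n : ℕ} {G : Type*} [Group G] [TopologicalSpace G]

private theorem map_mulVec' (A : Matrix (Fin n) (Fin n) E) (x y : Fin n → E) :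
    (A.map ι) *ᵥ (fun i => ι (x i) + ι (y i) * m) =
      fun i => ι ((A *ᵥ x) i) + ι ((A *ᵥ y) i) * m := by
  funext i
  simp only [mulVec, dotProduct, Matrix.map_apply, map_sum, map_mul, mul_add,
    Finset.sum_add_distrib, Finset.sum_mul, mul_assoc]

private theorem map_dot (x y y' : Fin n → E) :
    (fun i => ι (x i)) ⬝ᵥ (fun i => ι (y i) + ι (y' i) * m) = ι (x ⬝ᵥ y) + ι (x ⬝ᵥ y') * m := by
  simp only [dotProduct, map_sum, map_mul, mul_add, Finset.sum_add_distrib, Finset.sum_mul,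
    mul_assoc]

private theorem pr_inj (h : SqrtExt ι l m) (hl0 : l ≠ 0) {x y x' y' : Fin n → E}
    (e : (fun i => ι (x i) + ι (y i) * m) = fun i => ι (x' i) + ι (y' i) * m) :
    x = x' ∧ y = y' :=
  ⟨funext fun i => (h.inj hl0 (congrFun e i)).1, funext fun i => (h.inj hl0 (congrFun e i)).2⟩

private theorem eq_extW (h : SqrtExt ι l m) (hl0 : l ≠ 0) {X : Type*}
    {W : Submodule E (X → Fin n → E)} {W' : Submodule E' (X → Fin n → E')}
    (hW : ∀ x y, (fun t i => ι (x t i) + ι (y t i) * m) ∈ W' ↔ x ∈ W ∧ y ∈ W) :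
    W' = extW h W := by
  ext z
  choose x y hz using fun t i => h.split (z t i)
  have e : z = fun t i => ι (x t i) + ι (y t i) * m := funext fun t => funext fun i => hz t i
  rw [e, hW, pair_mem h hl0]

private theorem cob_iff (h : SqrtExt ι l m) (hl0 : l ≠ 0) {X : Type*}
    (A : X → Matrix (Fin n) (Fin n) E) (x y : X → Fin n → E) :
    (fun t i => ι (x t i) + ι (y t i) * m) ∈ Parity.coboundaries (fun t => (A t).map ι) ↔
      x ∈ Parity.coboundaries A ∧ y ∈ Parity.coboundaries A := by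
  have key : ∀ (v w : Fin n → E) (t : X), (A t).map ι *ᵥ (fun i => ι (v i) + ι (w i) * m) -
      (fun i => ι (v i) + ι (w i) * m) =
      fun i => ι ((A t *ᵥ v - v) i) + ι ((A t *ᵥ w - w) i) * m := by
    intro v w t
    rw [map_mulVec']
    funext i
    simp only [Pi.sub_apply, map_sub]
    ring
  constructor
  · rintro ⟨v', hv'⟩
    choose v w hvw using fun i => h.split (v' i)
    have e : v' = fun i => ι (v i) + ι (w i) * m := funext hvw
    have h1 : ∀ t, x t = A t *ᵥ v - v ∧ y t = A t *ᵥ w - w := by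
      intro t
      refine pr_inj h hl0 ?_
      rw [← key, ← e]
      exact hv' t
    exact ⟨⟨v, fun t => (h1 t).1⟩, ⟨w, fun t => (h1 t).2⟩⟩
  · rintro ⟨⟨v, hv⟩, ⟨w, hw⟩⟩
    refine ⟨fun i => ι (v i) + ι (w i) * m, fun t => ?_⟩
    show (fun i => ι (x t i) + ι (y t i) * m) = _
    rw [key, hv, hw]

section cocycles

variable {X : Type*} [Group X] [TopologicalSpace X]

private theorem coc_iff (h : SqrtExt ι l m) (hl0 : l ≠ 0)
    (A : X → Matrix (Fin n) (Fin n) E) (x y : X → Fin n → E) :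
    Parity.IsCocycle (fun t => (A t).map ι) (fun t i => ι (x t i) + ι (y t i) * m) ↔
      Parity.IsCocycle A x ∧ Parity.IsCocycle A y := by
  obtain ⟨re, im, hre, him, -, hre1, him1, -⟩ := h.exists_coord hl0
  have key : ∀ (v w v' w' : Fin n → E) (t : X), (fun i => ι (v i) + ι (w i) * m) +
      (A t).map ι *ᵥ (fun i => ι (v' i) + ι (w' i) * m) =
      fun i => ι ((v + A t *ᵥ v') i) + ι ((w + A t *ᵥ w') i) * m := by
    intro v w v' w' t
    rw [map_mulVec']
    funext i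
    simp only [Pi.add_apply, map_add]
    ring
  constructor
  · rintro ⟨hc, hz⟩
    have h1 : ∀ s t, x (s * t) = x s + A s *ᵥ x t ∧ y (s * t) = y s + A s *ᵥ y t := by
      intro s t
      refine pr_inj h hl0 ?_
      rw [← key]
      exact hz s t
    have hci : ∀ i, Continuous fun t => ι (x t i) + ι (y t i) * m := fun i =>
      (continuous_apply i).comp hc
    refine ⟨⟨continuous_pi fun i => ?_, fun s t => (h1 s t).1⟩,
      ⟨continuous_pi fun i => ?_, fun s t => (h1 s t).2⟩⟩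
    · have h2 := hre.comp (hci i)
      refine h2.congr fun t => ?_
      exact hre1 _ _
    · have h2 := him.comp (hci i)
      refine h2.congr fun t => ?_
      exact him1 _ _
  · rintro ⟨⟨hx, hx'⟩, ⟨hy, hy'⟩⟩
    refine ⟨continuous_pi fun i => ?_, fun s t => ?_⟩
    · exact (h.cont.comp ((continuous_apply i).comp hx)).add
        ((h.cont.comp ((continuous_apply i).comp hy)).mul continuous_const)
    · show (fun i => ι (x (s * t) i) + ι (y (s * t) i) * m) = _
      rw [key, hx', hy']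

private theorem perp_iff' (h : SqrtExt ι l m) (hl0 : l ≠ 0) {χ : X → ℤ_[2]}
    (B : X → Matrix (Fin n) (Fin n) E) (b : Matrix (Fin n) (Fin n) E)
    (L : Submodule E (X → Fin n → E)) (x y : X → Fin n → E) :
    Parity.IsPerp (fun t => toE E' (χ t)) (fun t => (B t).map ι) (b.map ι) (extW h L)
      (fun t i => ι (x t i) + ι (y t i) * m) ↔
      Parity.IsPerp (fun t => toE E (χ t)) B b L x ∧ Parity.IsPerp (fun t => toE E (χ t)) B b L y := by
  obtain ⟨re, im, hre, him, -, hre1, him1, hrea, hima, hres, hims⟩ := h.exists_coord hl0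
  have hres' : ∀ z z', re (z - z') = re z - re z' := fun z z' => by
    have := hrea (z - z') z'
    rw [sub_add_cancel] at this
    rw [this, add_sub_cancel_right]
  have hims' : ∀ z z', im (z - z') = im z - im z' := fun z z' => by
    have := hima (z - z') z'
    rw [sub_add_cancel] at this
    rw [this, add_sub_cancel_right]
  -- the cup product with a vector over `E`
  have key : ∀ (v : Fin n → E) (s t : X), (fun i => ι (v i)) ⬝ᵥ (b.map ι *ᵥ ((B s).map ι *ᵥ
      fun i => ι (x t i) + ι (y t i) * m)) =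
      ι (v ⬝ᵥ (b *ᵥ (B s *ᵥ x t))) + ι (v ⬝ᵥ (b *ᵥ (B s *ᵥ y t))) * m := by
    intro v s t
    rw [map_mulVec', map_mulVec', map_dot]
  constructor
  · rintro ⟨hc, hz⟩
    rw [coc_iff h hl0] at hc
    have h1 : ∀ v ∈ L, (∃ z : X → E, Continuous z ∧ ∀ s t, v s ⬝ᵥ (b *ᵥ (B s *ᵥ x t)) =
        z s + toE E (χ s) * z t - z (s * t)) ∧ ∃ z : X → E, Continuous z ∧
        ∀ s t, v s ⬝ᵥ (b *ᵥ (B s *ᵥ y t)) = z s + toE E (χ s) * z t - z (s * t) := by
      intro v hv
      obtain ⟨z, hzc, hz'⟩ := hz (fun t i => ι (v t i)) ⟨v, hv, 0, L.zero_mem, fun t i => by simp⟩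
      have h2 : ∀ s t, ι (v s ⬝ᵥ (b *ᵥ (B s *ᵥ x t))) + ι (v s ⬝ᵥ (b *ᵥ (B s *ᵥ y t))) * m =
          z s + ι (toE E (χ s)) * z t - z (s * t) := by
        intro s t
        rw [← key, map_toE]
        exact hz' s t
      refine ⟨⟨fun t => re (z t), hre.comp hzc, fun s t => ?_⟩,
        ⟨fun t => im (z t), him.comp hzc, fun s t => ?_⟩⟩
      · have h3 := congrArg re (h2 s t)
        rw [hre1, hres', hrea, hres] at h3
        exact h3
      · have h3 := congrArg im (h2 s t)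
        rw [him1, hims', hima, hims] at h3
        exact h3
    exact ⟨⟨hc.1, fun v hv => (h1 v hv).1⟩, ⟨hc.2, fun v hv => (h1 v hv).2⟩⟩
  · rintro ⟨⟨hx, hx'⟩, ⟨hy, hy'⟩⟩
    refine ⟨(coc_iff h hl0 B x y).2 ⟨hx, hy⟩, ?_⟩
    rintro v' ⟨v, hv, w, hw, hvw⟩
    obtain ⟨z1, c1, e1⟩ := hx' v hv
    obtain ⟨z2, c2, e2⟩ := hy' v hv
    obtain ⟨z3, c3, e3⟩ := hx' w hw
    obtain ⟨z4, c4, e4⟩ := hy' w hw
    refine ⟨fun t => ι (z1 t) + ι (z2 t) * m + (ι (z3 t) + ι (z4 t) * m) * m, ?_, fun s t => ?_⟩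
    · exact (((h.cont.comp c1).add ((h.cont.comp c2).mul continuous_const))).add
        ((((h.cont.comp c3).add ((h.cont.comp c4).mul continuous_const))).mul continuous_const)
    · have e5 : v' s = (fun i => ι (v s i)) + m • fun i => ι (w s i) := by
        funext i
        rw [hvw]
        simp only [Pi.add_apply, Pi.smul_apply, smul_eq_mul]
        ring
      rw [e5, add_dotProduct, smul_dotProduct, key, key, e1, e2, e3, e4]
      beta_reduce
      rw [← map_toE ι]
      simp only [map_add, map_sub, map_mul, smul_eq_mul]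
      ring

end cocycles

private theorem cobM_iff (h : SqrtExt ι l m) (hl0 : l ≠ 0) {X : Type*}
    (A : X → Matrix (Fin n) (Fin n) E) (W : Submodule E (Fin n → E)) (x y : X → Fin n → E) :
    (∃ v : Fin n → E', ∀ t, (fun i => ι (x t i) + ι (y t i) * m) - ((A t).map ι *ᵥ v - v) ∈ extV h W) ↔
      (∃ v, ∀ t, x t - (A t *ᵥ v - v) ∈ W) ∧ ∃ v, ∀ t, y t - (A t *ᵥ v - v) ∈ W := by
  have key : ∀ (v w : Fin n → E) (t : X), (fun i => ι (x t i) + ι (y t i) * m) -
      ((A t).map ι *ᵥ (fun i => ι (v i) + ι (w i) * m) - (fun i => ι (v i) + ι (w i) * m)) =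
      fun i => ι ((x t - (A t *ᵥ v - v)) i) + ι ((y t - (A t *ᵥ w - w)) i) * m := by
    intro v w t
    rw [map_mulVec']
    funext i
    simp only [Pi.sub_apply, map_sub]
    ring
  constructor
  · rintro ⟨v', hv'⟩
    choose v w hvw using fun i => h.split (v' i)
    have e : v' = fun i => ι (v i) + ι (w i) * m := funext hvw
    have h1 : ∀ t, x t - (A t *ᵥ v - v) ∈ W ∧ y t - (A t *ᵥ w - w) ∈ W := by
      intro t
      have h2 := hv' t
      rw [e, key, mem_extV h hl0] at h2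
      exact h2
    exact ⟨⟨v, fun t => (h1 t).1⟩, ⟨w, fun t => (h1 t).2⟩⟩
  · rintro ⟨⟨v, hv⟩, ⟨w, hw⟩⟩
    refine ⟨fun i => ι (v i) + ι (w i) * m, fun t => ?_⟩
    rw [key, mem_extV h hl0]
    exact ⟨hv t, hw t⟩

private theorem fix_finrank (h : SqrtExt ι l m) (hl0 : l ≠ 0) {X : Type*}
    (A : X → Matrix (Fin n) (Fin n) E) :
    Module.finrank E' (Parity.fixedBy fun t => (A t).map ι) =
      Module.finrank E (Parity.fixedBy A) := by
  let W : Submodule E (Unit → Fin n → E) := (Parity.fixedBy A).comap (LinearMap.proj ())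
  let W' : Submodule E' (Unit → Fin n → E') :=
    (Parity.fixedBy fun t => (A t).map ι).comap (LinearMap.proj ())
  have h1 : W' = extW h W := by
    refine eq_extW h hl0 fun x y => ?_
    have key : ∀ t, (A t).map ι *ᵥ (fun i => ι (x () i) + ι (y () i) * m) =
        fun i => ι ((A t *ᵥ x ()) i) + ι ((A t *ᵥ y ()) i) * m := fun t => map_mulVec' _ _ _
    constructor
    · intro hz
      have h2 : ∀ t, A t *ᵥ x () = x () ∧ A t *ᵥ y () = y () := by
        intro t
        refine pr_inj h hl0 ?_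
        rw [← key]
        exact hz t
      exact ⟨fun t => (h2 t).1, fun t => (h2 t).2⟩
    · rintro ⟨hx, hy⟩ t
      show (A t).map ι *ᵥ (fun i => ι (x () i) + ι (y () i) * m) =
        fun i => ι (x () i) + ι (y () i) * m
      rw [key]
      have h2 : A t *ᵥ x () = x () := hx t
      have h3 : A t *ᵥ y () = y () := hy t
      rw [h2, h3]
  have h2 : Module.finrank E W = Module.finrank E (Parity.fixedBy A) :=
    ((LinearEquiv.funUnique Unit E (Fin n → E)).submoduleMap W |>.trans (LinearEquiv.ofEq _ _ (by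
      ext v
      constructor
      · rintro ⟨x, hx, rfl⟩
        exact hx
      · intro hv
        exact ⟨fun _ => v, hv, rfl⟩))).finrank_eq
  have h3 : Module.finrank E' W' =
      Module.finrank E' (Parity.fixedBy fun t => (A t).map ι) :=
    ((LinearEquiv.funUnique Unit E' (Fin n → E')).submoduleMap W' |>.trans (LinearEquiv.ofEq _ _ (by
      ext v
      constructor
      · rintro ⟨x, hx, rfl⟩
        exact hx
      · intro hv
        exact ⟨fun _ => v, hv, rfl⟩))).finrank_eq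
  rw [← h2, ← h3, h1, extW_finrank h hl0]

private theorem res_iff {F : Type*} [NormedField F] {I : Subgroup G}
    (A : G → Matrix (Fin n) (Fin n) F) (z : G → Fin n → F) :
    (∃ v : Fin n → F, ∀ σ ∈ I, z σ = A σ *ᵥ v - v) ↔
      (fun σ : I => z σ) ∈ Parity.coboundaries fun σ : I => A σ :=
  ⟨fun ⟨v, hv⟩ => ⟨v, fun σ => hv σ σ.2⟩, fun ⟨v, hv⟩ => ⟨v, fun σ hσ => hv ⟨σ, hσ⟩⟩⟩

private theorem cobs_ext (h : SqrtExt ι l m) (hl0 : l ≠ 0) {X : Type*} (A : X → Matrix (Fin n) (Fin n) E) :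
    Parity.coboundaries (fun t => (A t).map ι) = extW h (Parity.coboundaries A) :=
  eq_extW h hl0 fun x y => cob_iff h hl0 A x y

private theorem cocs_ext (h : SqrtExt ι l m) (hl0 : l ≠ 0) {X : Type*} [Group X] [TopologicalSpace X]
    (A : X → Matrix (Fin n) (Fin n) E) :
    Parity.cocycles (fun t => (A t).map ι) = extW h (Parity.cocycles A) :=
  eq_extW h hl0 fun x y => coc_iff h hl0 A x y

private theorem extW_le (h : SqrtExt ι l m) (hl0 : l ≠ 0) {X : Type*} {W W' : Submodule E (X → Fin n → E)} :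
    extW h W ≤ extW h W' ↔ W ≤ W' :=
  ⟨fun h1 x hx => ((pair_mem h hl0 W' x x).1 (h1 ((pair_mem h hl0 W x x).2 ⟨hx, hx⟩))).1, extW_mono h⟩

/-- A SPACE IS ITS OWN ANNIHILATOR if and only if its scalar extension is. -/
theorem selfPerp_ext (h : SqrtExt ι l m) (hl0 : l ≠ 0) {χ : G → ℤ_[2]} {κ : G → G}
    {ρ : G →* Matrix (Fin n) (Fin n) E} {b A : Matrix (Fin n) (Fin n) E} {D : Subgroup G} {k : D → D}
    {L : Submodule E (D → Fin n → E)} :
    Parity.IsSelfPerp (fun g => toE E' (χ g)) κ (mapRep ι ρ) (b.map ι) D (A.map ι) k (extW h L) ↔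
      Parity.IsSelfPerp (fun g => toE E (χ g)) κ ρ b D A k L := by
  have c1 : Parity.coboundaries (fun σ : D => mapRep ι ρ σ) =
      extW h (Parity.coboundaries fun σ : D => ρ σ) := cobs_ext h hl0 fun σ : D => ρ σ
  have c2 : Parity.cocycles (fun σ : D => mapRep ι ρ σ) =
      extW h (Parity.cocycles fun σ : D => ρ σ) := cocs_ext h hl0 fun σ : D => ρ σ
  have d3 : ∀ x y : D → Fin n → E, Parity.IsPerp (fun σ : D => toE E' (χ σ)) (fun σ : D => mapRep ι ρ (κ σ))
      (b.map ι) (extW h L) (fun σ : D => A.map ι *ᵥ fun i => ι (x (k σ) i) + ι (y (k σ) i) * m) ↔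
      Parity.IsPerp (fun σ : D => toE E (χ σ)) (fun σ : D => ρ (κ σ)) b L (fun σ => A *ᵥ x (k σ)) ∧
      Parity.IsPerp (fun σ : D => toE E (χ σ)) (fun σ : D => ρ (κ σ)) b L (fun σ => A *ᵥ y (k σ)) := by
    intro x y
    have e1 : (fun σ : D => A.map ι *ᵥ fun i => ι (x (k σ) i) + ι (y (k σ) i) * m) =
        fun (σ : D) i => ι ((A *ᵥ x (k σ)) i) + ι ((A *ᵥ y (k σ)) i) * m :=
      funext fun σ => map_mulVec' _ _ _
    rw [e1]
    exact perp_iff' h hl0 (χ := fun σ : D => χ σ) (fun σ : D => ρ (κ σ)) b L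
      (fun σ : D => A *ᵥ x (k σ)) (fun σ : D => A *ᵥ y (k σ))
  unfold Parity.IsSelfPerp Parity.Between
  rw [c1, c2, extW_le h hl0, extW_le h hl0]
  refine and_congr_right fun _ => ⟨fun h1 y hy => ?_, fun h1 z hz => ?_⟩
  · have h2 := h1 _ ((pair_mem h hl0 _ y y).2 ⟨hy, hy⟩)
    rw [pair_mem h hl0, and_self] at h2
    refine h2.trans ((d3 y y).trans ?_)
    rw [and_self]
  · obtain ⟨x, hx, y, hy, hxy⟩ := hz
    obtain rfl : z = fun t i => ι (x t i) + ι (y t i) * m := funext fun t => funext fun i => hxy t i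
    rw [pair_mem h hl0, h1 x hx, h1 y hy]
    exact (d3 x y).symm

/-- Greenberg's condition -/
theorem greenbergAt_ext (h : SqrtExt ι l m) (hl0 : l ≠ 0) {ρ : G →* Matrix (Fin n) (Fin n) E}
    {D : Subgroup G} {W : Submodule E (Fin n → E)} :
    Parity.greenbergAt (mapRep ι ρ) D (extV h W) = extW h (Parity.greenbergAt ρ D W) := by
  refine eq_extW h hl0 fun x y => ?_
  have h1 := coc_iff h hl0 (fun σ : D => ρ σ) x y
  have h2 := cobM_iff h hl0 (fun σ : D => ρ σ) W x y
  constructor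
  · rintro ⟨h3, h4⟩
    exact ⟨⟨(h1.1 h3).1, (h2.1 h4).1⟩, ⟨(h1.1 h3).2, (h2.1 h4).2⟩⟩
  · rintro ⟨⟨h3, h4⟩, ⟨h5, h6⟩⟩
    exact ⟨h1.2 ⟨h3, h5⟩, h2.2 ⟨h4, h6⟩⟩

/-- the Selmer group -/
theorem selmerAt_ext (h : SqrtExt ι l m) (hl0 : l ≠ 0) {N : Set (Subgroup G)}
    {ρ : G →* Matrix (Fin n) (Fin n) E} {D : Subgroup G} {L : Submodule E (D → Fin n → E)} :
    Parity.selmerAt N (mapRep ι ρ) D (extW h L) = extW h (Parity.selmerAt N ρ D L) := by
  refine eq_extW h hl0 fun x y => ?_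
  have d1 := coc_iff h hl0 (fun σ : G => ρ σ) x y
  have d2 : (fun (σ : D) i => ι (x σ i) + ι (y σ i) * m) ∈ extW h L ↔
      (fun σ : D => x σ) ∈ L ∧ (fun σ : D => y σ) ∈ L :=
    pair_mem h hl0 L (fun σ : D => x σ) (fun σ : D => y σ)
  have d4 : ∀ I : Subgroup G, (∃ v : Fin n → E', ∀ σ ∈ I,
      (fun i => ι (x σ i) + ι (y σ i) * m) = mapRep ι ρ σ *ᵥ v - v) ↔
      (∃ v : Fin n → E, ∀ σ ∈ I, x σ = ρ σ *ᵥ v - v) ∧
        ∃ v : Fin n → E, ∀ σ ∈ I, y σ = ρ σ *ᵥ v - v := by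
    intro I
    have h1 := cob_iff h hl0 (fun σ : I => ρ σ) (fun σ : I => x σ) (fun σ : I => y σ)
    have e1 := res_iff (I := I) (fun σ => ρ σ) x
    have e2 := res_iff (I := I) (fun σ => ρ σ) y
    have e3 := res_iff (I := I) (fun σ => mapRep ι ρ σ) (fun σ i => ι (x σ i) + ι (y σ i) * m)
    exact e3.trans (h1.trans (and_congr e1.symm e2.symm))
  constructor
  · rintro ⟨h1, h2, h3⟩
    have h1' := d1.1 h1
    exact ⟨⟨h1'.1, fun I hI => ((d4 I).1 (h2 I hI)).1, (d2.1 h3).1⟩,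
      ⟨h1'.2, fun I hI => ((d4 I).1 (h2 I hI)).2, (d2.1 h3).2⟩⟩
  · rintro ⟨⟨h1, h2, h3⟩, ⟨h1', h2', h3'⟩⟩
    exact ⟨d1.2 ⟨h1, h1'⟩, fun I hI => (d4 I).2 ⟨h2 I hI, h2' I hI⟩, d2.2 ⟨h3, h3'⟩⟩

theorem extW_inf (h : SqrtExt ι l m) (hl0 : l ≠ 0) {X : Type*} {W W' : Submodule E (X → Fin n → E)} :
    extW h W ⊓ extW h W' = extW h (W ⊓ W') := by
  refine eq_extW h hl0 fun x y => ?_
  rw [Submodule.mem_inf, pair_mem h hl0, pair_mem h hl0]
  exact ⟨fun ⟨⟨h1, h2⟩, h3, h4⟩ => ⟨⟨h1, h3⟩, h2, h4⟩, fun ⟨⟨h1, h3⟩, h2, h4⟩ => ⟨⟨h1, h2⟩, h3, h4⟩⟩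

/-- THE DESCENT. -/
theorem paritySelf_ext (h : SqrtExt ι l m) (hl0 : l ≠ 0) {N : Set (Subgroup G)} {χ : G → ℤ_[2]} {κ : G → G}
    {ρ : G →* Matrix (Fin n) (Fin n) E} {b A : Matrix (Fin n) (Fin n) E} {D : Subgroup G} {k : D → D}
    {W : Submodule E (Fin n → E)} {a : ℕ}
    (hp : Parity.ParitySelf N (fun g => toE E' (χ g)) κ (mapRep ι ρ) (b.map ι) D (A.map ι) k (extV h W) a) :
    Parity.ParitySelf N (fun g => toE E (χ g)) κ ρ b D A k W a := by
  intro L hL
  have c3 : Parity.coboundaries (mapRep ι ρ) = extW h (Parity.coboundaries ρ) :=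
    cobs_ext h hl0 fun σ : G => ρ σ
  have c5 : Module.finrank E' (Parity.fixedBy fun σ : G => mapRep ι ρ σ) =
      Module.finrank E (Parity.fixedBy fun σ : G => ρ σ) := fix_finrank h hl0 fun σ : G => ρ σ
  have c6 : Module.finrank E' (Parity.fixedModulo (fun σ : D => mapRep ι ρ σ) (extV h W)) =
      Module.finrank E (Parity.fixedModulo (fun σ : D => ρ σ) W) := by
    have h1 := fixedModulo_ext h hl0 (fun σ : D => ρ σ) W
    have h2 : Parity.fixedModulo (fun σ : D => mapRep ι ρ σ) (extV h W) =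
        extV h (Parity.fixedModulo (fun σ : D => ρ σ) W) := h1
    rw [h2, finrank_extV h hl0]
  obtain ⟨e1, e2, e3, e4⟩ := hp (extW h L) ((selfPerp_ext h hl0).2 hL)
  rw [selmerAt_ext h hl0] at e2 e3 e4
  rw [c3] at e3 e4
  have f1 : FiniteDimensional E L := (extW_fin h hl0 L).1 e1
  have f2 : FiniteDimensional E (Parity.selmerAt N ρ D L) := (extW_fin h hl0 _).1 e2
  have f3 : Parity.coboundaries ρ ≤ Parity.selmerAt N ρ D L := (extW_le h hl0).1 e3
  refine ⟨f1, f2, f3, ?_⟩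
  rw [greenbergAt_ext h hl0, extW_inf h hl0, extW_dim h hl0 f3, c5, extW_dim h hl0 inf_le_left, c6,
    finrank_extV h hl0] at e4
  exact e4

end Pool.Agent.Work.MP_787500_nt.QX
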