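import Mathlib
import Pool.Agent.Work.MP_787500_nt.QX.Inst
import Pool.Agent.Work.MP_787500_nt.SH.Prm

/-!
# Imaginary quadratic fields

`IsI K D s`: `K` is the quadratic field generated by `s`, `s ^ 2 = -D`, `D` squarefree (no condition at 2).

* `emb_sqI`, `sq_orI`, `inr_leI`, `inr_negI`, `range_memI`: as in `HP/Splt.lean` and `GA/DualQ.lean`.
* `two_I`: the absolute Galois group of `K`, of index two. `ram_I`: the hypothesis `ram` of `exists_inX`.
* `exists_swap2`: if `D` is not congruent to 7 modulo 8, the decomposition group at a prime over 2 is not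
  contained in the absolute Galois group of `K`.
-/

set_option autoImplicit false
set_option linter.unusedSectionVars false

namespace Pool.Agent.Work.MP_787500_nt.QX

open NumberField
open Pool.Agent.Work.MP_787500_nt.GP (inT stabD)
open Pool.Agent.Work.MP_787500_nt.KR (FSys fullC fullQ fullK)
open Pool.Agent.Work.MP_787500_nt.HP (IsQ Spl IsP cyQ stb emb inr pb og mem_stb mem_inr emb_iff emb_inr emb_stb
  alg_closure Alg nat_mem)
open Pool.Agent.Work.MP_787500_nt.KS (iK)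
open Pool.Agent.Work.MP_787500_nt.QS (Two)
open Pool.Agent.Work.MP_787500_nt.GA (Inr cj index_emb opn_range)

universe u v

/-- `K` is the quadratic field generated by `s`, `s ^ 2 = -D`, where `D` is squarefree -/
structure IsI (K : Type*) [Field K] [NumberField K] (D : ℕ) (s : K) : Prop where
  deg : Module.finrank ℚ K = 2
  sq : s ^ 2 = -(D : K)
  sqf : Squarefree D

theorem isI_of {K : Type*} [Field K] [NumberField K] {D : ℕ} {s : K} (h : IsQ K D s) : IsI K D s :=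
  ⟨h.deg, h.sq, h.sqf⟩

private theorem sp_ext {Ω : Type u} [Field Ω] {x y : 𝓞 Ω}
    (h : algebraMap (𝓞 Ω) Ω x = algebraMap (𝓞 Ω) Ω y) : x = y := RingOfIntegers.ext h

private theorem sp_og {Ω : Type u} [Field Ω] (g : Ω ≃+* Ω) (x : 𝓞 Ω) :
    algebraMap (𝓞 Ω) Ω (og g x) = g (algebraMap (𝓞 Ω) Ω x) := rfl

private theorem mk_int {Ω : Type u} [Field Ω] {t : Ω} {n : ℤ} (h : t ^ 2 = (n : Ω)) :
    ∃ tt : 𝓞 Ω, algebraMap (𝓞 Ω) Ω tt = t ∧ tt ^ 2 = (n : 𝓞 Ω) := by
  have h1 : IsIntegral ℤ (t ^ 2) := by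
    rw [h]
    have := isIntegral_algebraMap (R := ℤ) (A := Ω) (x := n)
    simpa using this
  obtain ⟨tt, htt⟩ : ∃ tt : 𝓞 Ω, algebraMap (𝓞 Ω) Ω tt = t :=
    ⟨⟨t, IsIntegral.of_pow (by norm_num : 0 < 2) h1⟩, rfl⟩
  refine ⟨tt, htt, sp_ext ?_⟩
  rw [map_pow, map_intCast, htt]
  exact h

private theorem one_notMem {Ω : Type u} [Field Ω] {Q : Ideal (𝓞 Ω)} (hQ : Q.IsPrime) :
    (1 : 𝓞 Ω) ∉ Q := fun h => hQ.ne_top ((Ideal.eq_top_iff_one Q).2 h)

private theorem natprod_mem {Ω : Type u} [Field Ω] {Q : Ideal (𝓞 Ω)} (hQ : Q.IsPrime) {n : ℕ}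
    (hn : n ≠ 0) (h : (n : 𝓞 Ω) ∈ Q) : ∃ p : ℕ, p.Prime ∧ p ∣ n ∧ (p : 𝓞 Ω) ∈ Q := by
  induction n using Nat.recOnMul with
  | zero => exact absurd rfl hn
  | one => exact absurd (by simpa using h) (one_notMem hQ)
  | prime p hp => exact ⟨p, hp, dvd_rfl, h⟩
  | mul a b ha hb =>
    have ha0 : a ≠ 0 := left_ne_zero_of_mul hn
    have hb0 : b ≠ 0 := right_ne_zero_of_mul hn
    rw [Nat.cast_mul] at h
    rcases hQ.mem_or_mem h with h1 | h1
    · obtain ⟨p, hp, hd, hm⟩ := ha ha0 h1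
      exact ⟨p, hp, hd.mul_right b, hm⟩
    · obtain ⟨p, hp, hd, hm⟩ := hb hb0 h1
      exact ⟨p, hp, hd.mul_left a, hm⟩

section gen

variable {Ω : Type u} [Field Ω] [CharZero Ω] [IsAlgClosed Ω] {K : Type v} [Field K] [NumberField K]
  (α : AlgebraicClosure K ≃+* Ω) {D : ℕ} {s : K}

private theorem t_sq (hK : IsI K D s) :
    (α (algebraMap K (AlgebraicClosure K) s)) ^ 2 = ((-(D : ℤ) : ℤ) : Ω) := by
  rw [← map_pow, ← map_pow, hK.sq]
  simp

theorem dpos (hK : IsI K D s) : 0 < D := Nat.pos_of_ne_zero hK.sqf.ne_zero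

private theorem top_of (hK : IsI K D s) : IntermediateField.adjoin ℚ {s} = ⊤ := by
  have h1 : Module.finrank ℚ (IntermediateField.adjoin ℚ {s}) ∣ 2 := by
    rw [← hK.deg]
    exact ⟨_, (Module.finrank_mul_finrank ℚ (IntermediateField.adjoin ℚ {s}) K).symm⟩
  rcases (Nat.dvd_prime Nat.prime_two).1 h1 with h2 | h2
  · exfalso
    rw [IntermediateField.finrank_adjoin_simple_eq_one_iff] at h2
    obtain ⟨q, hq⟩ := IntermediateField.mem_bot.1 h2
    have h3 := hK.sq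
    rw [← hq] at h3
    have h4 : algebraMap ℚ K (q ^ 2) = algebraMap ℚ K (-(D : ℚ)) := by
      rw [map_pow, h3]; simp
    have h5 := (algebraMap ℚ K).injective h4
    have h6 : (0 : ℚ) < D := by exact_mod_cast dpos hK
    nlinarith [sq_nonneg q]
  · apply IntermediateField.eq_of_le_of_finrank_eq le_top
    rw [h2, IntermediateField.finrank_top', hK.deg]

theorem emb_sqI (hK : IsI K D s) (g : Ω ≃+* Ω) : (∃ σ, emb α σ = g) ↔
    g (α (algebraMap K (AlgebraicClosure K) s)) = α (algebraMap K (AlgebraicClosure K) s) := by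
  rw [emb_iff]
  constructor
  · exact fun h => h s
  · intro h x
    have hx : x ∈ IntermediateField.adjoin ℚ {s} := by rw [top_of hK]; trivial
    refine IntermediateField.adjoin_induction ℚ
      (p := fun x _ => g (α (algebraMap K (AlgebraicClosure K) x)) =
        α (algebraMap K (AlgebraicClosure K) x)) ?_ ?_ ?_ ?_ ?_ hx
    · rintro y rfl
      exact h
    · intro q
      simp
    · intro y z _ _ hy hz
      simp only [map_add, hy, hz]
    · intro y _ hy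
      simp only [map_inv₀, hy]
    · intro y z _ _ hy hz
      simp only [map_mul, hy, hz]

theorem sq_orI (hK : IsI K D s) (g : Ω ≃+* Ω) :
    g (α (algebraMap K (AlgebraicClosure K) s)) = α (algebraMap K (AlgebraicClosure K) s) ∨
    g (α (algebraMap K (AlgebraicClosure K) s)) = -α (algebraMap K (AlgebraicClosure K) s) := by
  apply sq_eq_sq_iff_eq_or_eq_neg.1
  rw [← map_pow, t_sq α hK, map_intCast]

theorem s_neI (hK : IsI K D s) : α (algebraMap K (AlgebraicClosure K) s) ≠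
    -α (algebraMap K (AlgebraicClosure K) s) := by
  intro h
  have h2 := self_eq_neg.1 h
  rw [map_eq_zero_iff _ α.injective,
    map_eq_zero_iff _ (FaithfulSMul.algebraMap_injective K (AlgebraicClosure K))] at h2
  have h3 := hK.sq
  rw [h2, zero_pow two_ne_zero, eq_comm, neg_eq_zero, Nat.cast_eq_zero] at h3
  have := dpos hK
  omega

/-- `g` is outside of the group of `K` if and only if it changes the sign of `s` -/
theorem notMem_iffI (hK : IsI K D s) {g : Ω ≃+* Ω} : g ∉ (emb α).range ↔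
    g (α (algebraMap K (AlgebraicClosure K) s)) = -α (algebraMap K (AlgebraicClosure K) s) := by
  constructor
  · intro h
    exact (sq_orI α hK g).resolve_left fun h1 => h ((emb_sqI α hK g).2 h1)
  · intro h h1
    have h2 := (emb_sqI α hK g).1 h1
    rw [h] at h2
    exact s_neI α hK h2.symm

theorem inr_leI (hK : IsI K D s) {Q : Ideal (𝓞 Ω)} (hQ : Q.IsPrime) (h2 : (2 : 𝓞 Ω) ∉ Q)
    (hD : ∀ p : ℕ, p.Prime → p ∣ D → (p : 𝓞 Ω) ∉ Q) {g : Ω ≃+* Ω} (hg : g ∈ inr Q) :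
    ∃ σ ∈ (pb α Q).inertia (AbsGal K), emb α σ = g := by
  have hfix : g (α (algebraMap K (AlgebraicClosure K) s)) =
      α (algebraMap K (AlgebraicClosure K) s) := by
    rcases sq_orI α hK g with h | h
    · exact h
    exfalso
    have ht2 := t_sq α hK
    set t := α (algebraMap K (AlgebraicClosure K) s) with ht
    obtain ⟨tt, htt, htt2⟩ := mk_int ht2
    have hog : og g tt = -tt := sp_ext (by rw [sp_og, htt, h, map_neg, htt])
    have h3 := (mem_inr.1 hg) tt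
    rw [hog] at h3
    have h4 : (2 : 𝓞 Ω) * tt ∈ Q := by
      have := Q.neg_mem h3
      have e : -(-tt - tt) = 2 * tt := by ring
      rwa [e] at this
    rcases hQ.mem_or_mem h4 with h5 | h5
    · exact h2 h5
    · have h6 : tt ^ 2 ∈ Q := by rw [pow_two]; exact Q.mul_mem_left _ h5
      rw [htt2] at h6
      push_cast at h6
      have h7 : (D : 𝓞 Ω) ∈ Q := by
        have := Q.neg_mem h6
        rwa [neg_neg] at this
      obtain ⟨p, hp, hd, hm⟩ := natprod_mem hQ (dpos hK).ne' h7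
      exact hD p hp hd hm
  obtain ⟨σ, hσ⟩ := (emb_sqI α hK g).2 hfix
  refine ⟨σ, (emb_inr α).1 ?_, hσ⟩
  rw [hσ]; exact hg

theorem inr_negI (hK : IsI K D s) {p : ℕ} (hp : p.Prime) (hpo : p ≠ 2) (hpD : p ∣ D)
    {Q : Ideal (𝓞 Ω)}
    (hQ : Q.IsPrime) (hpQ : (p : 𝓞 Ω) ∈ Q) {g : Ω ≃+* Ω} (hg : g ∈ inr Q)
    (h : ∀ x : Ω, x ^ 2 = (p : Ω) → g x = -x) :
    g (α (algebraMap K (AlgebraicClosure K) s)) = -α (algebraMap K (AlgebraicClosure K) s) := by
  obtain ⟨D', hD'⟩ := hpD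
  have hpD' : ¬ p ∣ D' := by
    intro hcon
    have h1 : p * p ∣ D := by rw [hD']; exact mul_dvd_mul_left p hcon
    exact hp.one_lt.ne' (Nat.isUnit_iff.1 (hK.sqf p h1))
  obtain ⟨x, hx⟩ := IsAlgClosed.exists_pow_nat_eq ((p : ℕ) : Ω) (n := 2) (by norm_num)
  obtain ⟨y, hy⟩ := IsAlgClosed.exists_pow_nat_eq ((-(D' : ℤ) : ℤ) : Ω) (n := 2) (by norm_num)
  have ht2 := t_sq α hK
  set t := α (algebraMap K (AlgebraicClosure K) s) with ht
  have hgx := h x hx
  have hgy2 : (g y) ^ 2 = y ^ 2 := by rw [← map_pow, hy, map_intCast]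
  have hgy : g y = y := by
    rcases sq_eq_sq_iff_eq_or_eq_neg.1 hgy2 with h1 | h1
    · exact h1
    exfalso
    obtain ⟨yy, hyy, hyy2⟩ := mk_int hy
    have hog : og g yy = -yy := sp_ext (by rw [sp_og, hyy, h1, map_neg, hyy])
    have h3 := (mem_inr.1 hg) yy
    rw [hog] at h3
    have h4 : ((-4 * (D' : ℤ) : ℤ) : 𝓞 Ω) ∈ Q := by
      have h5 : (-yy - yy) * (-yy - yy) ∈ Q := Q.mul_mem_left _ h3
      have e : (-yy - yy) * (-yy - yy) = ((-4 * (D' : ℤ) : ℤ) : 𝓞 Ω) := by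
        push_cast
        push_cast at hyy2
        linear_combination 4 * hyy2
      rwa [e] at h5
    have h5 := (nat_mem hp hQ hpQ _).1 h4
    have hp' := Nat.prime_iff_prime_int.1 hp
    rcases hp'.dvd_or_dvd h5 with h6 | h6
    · have h7 : (p : ℤ) ∣ 2 ^ 2 := by
        have := (dvd_neg (a := (p : ℤ)) (b := 4)).1 h6
        norm_num
        exact this
      have h8 := hp'.dvd_of_dvd_pow h7
      have h9 : p ∣ 2 := by exact_mod_cast h8
      exact hpo ((Nat.prime_dvd_prime_iff_eq hp Nat.prime_two).1 h9)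
    · exact hpD' (by exact_mod_cast h6)
  have hxy : t ^ 2 = (x * y) ^ 2 := by
    rw [ht2, mul_pow, hx, hy, hD']
    push_cast
    ring
  rcases sq_eq_sq_iff_eq_or_eq_neg.1 hxy with h1 | h1
  · rw [h1, map_mul, hgx, hgy]; ring
  · rw [h1, map_neg, map_mul, hgx, hgy]; ring

theorem range_indexI (hK : IsI K D s) (α₀ : AlgebraicClosure K ≃+* Ω) :
    (emb α₀).range.index = 2 := (index_emb α₀).trans hK.deg

/-- `K` is unramified outside of 2 and the odd prime divisors of `D` -/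
theorem range_memI (hK : IsI K D s) (α₀ : AlgebraicClosure K ≃+* Ω) {T : Finset ℕ}
    (hD : ∀ p : ℕ, p.Prime → p ≠ 2 → p ∣ D → p ∈ T) : (fullQ Ω (T : Set ℕ)).mem (emb α₀).range := by
  have h2 := range_indexI hK α₀
  refine ⟨⟨opn_range α₀, Subgroup.normal_of_index_eq_two h2, by rw [h2]; norm_num⟩,
    fun Q hQ hQ2 hQT g hg => ?_⟩
  obtain ⟨σ, -, hσ⟩ := inr_leI α₀ hK hQ hQ2 (fun p hp hd => by
    by_cases h : p = 2
    · subst h
      exact_mod_cast hQ2
    · exact hQT p (hD p hp h hd)) hg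
  exact ⟨σ, hσ⟩

end gen

variable {K : Type u} [Field K] [NumberField K] {D : ℕ} {s : K}
  {c : AlgebraicClosure K ≃+* AlgebraicClosure K} {κ : AbsGal K →* AbsGal K}

/-- the absolute Galois group of `K` in the group of the rational numbers -/
theorem two_I (hK : IsI K D s) (hc : PA.IsConj s c)
    (hκ : ∀ (σ : AbsGal K) (x : AlgebraicClosure K), κ σ x = c (σ (c x))) : Two (iK K) c κ where
  inj := HP.emb_inj _
  cc := KS.c_sq hc
  kap := GA.emb_kap hκ
  cases := fun g => by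
    by_cases h : g ∈ (iK K).range
    · exact Or.inl h
    · right
      have h1 := (notMem_iffI (RingEquiv.refl (AlgebraicClosure K)) hK).1 h
      have h2 : (g * c) (algebraMap K (AlgebraicClosure K) s) =
          algebraMap K (AlgebraicClosure K) s := by
        show g (c _) = _
        rw [hc.neg, map_neg]
        have h2 : g (algebraMap K (AlgebraicClosure K) s) = -algebraMap K (AlgebraicClosure K) s := h1
        rw [h2, neg_neg]
      obtain ⟨n, hn⟩ := (emb_sqI (RingEquiv.refl (AlgebraicClosure K)) hK (g * c)).2 h2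
      refine ⟨n, ?_⟩
      rw [hn, mul_assoc, KS.c_sq hc, mul_one]
  nc := fun n h => by
    have h1 : iK K n ∉ (iK K).range := (notMem_iffI (RingEquiv.refl (AlgebraicClosure K)) hK).2 (by
      rw [h]
      exact hc.neg)
    exact h1 ⟨n, rfl⟩

/-- the hypothesis `ram` of `exists_inX` -/
theorem ram_I (hK : IsI K D s) {l : ℕ} (hl : l.Prime) (h2 : l ≠ 2)
    {Q : Ideal (𝓞 (AlgebraicClosure K))} (hQ : Q.IsPrime) (hlQ : (l : 𝓞 (AlgebraicClosure K)) ∈ Q) :
    inr Q ≤ (iK K).range ∨ ∀ τ ∈ inr Q,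
      (∀ x : AlgebraicClosure K, x ^ 2 = (l : AlgebraicClosure K) → τ x = -x) → τ ∉ (iK K).range := by
  by_cases hlD : l ∣ D
  · right
    intro τ hτ h
    exact (notMem_iffI (RingEquiv.refl (AlgebraicClosure K)) hK).2
      (inr_negI (RingEquiv.refl (AlgebraicClosure K)) hK hl h2 hlD hQ hlQ hτ h)
  · left
    intro τ hτ
    obtain ⟨σ, -, hσ⟩ := inr_leI (RingEquiv.refl (AlgebraicClosure K)) hK hQ
      (KS.two_notMem hl h2 hQ hlQ) (fun p hp hpD hpQ => by
        rw [← GA.prime_uniq hQ hl hp hlQ hpQ] at hpD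
        exact hlD hpD) hτ
    exact ⟨σ, hσ⟩


/-- the elements of `K` -/
theorem rep_I (hK : IsI K D s) (x : K) : ∃ a b : ℚ, x = (a : K) + (b : K) * s := by
  have hx : x ∈ IntermediateField.adjoin ℚ {s} := by rw [top_of hK]; trivial
  have hs : s ^ 2 = -(D : K) := hK.sq
  refine IntermediateField.adjoin_induction ℚ
    (p := fun x _ => ∃ a b : ℚ, x = (a : K) + (b : K) * s) ?_ ?_ ?_ ?_ ?_ hx
  · rintro y rfl
    exact ⟨0, 1, by push_cast; ring⟩
  · intro q
    exact ⟨q, 0, by rw [Rat.cast_zero, zero_mul, add_zero, eq_ratCast]⟩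
  · rintro y z - - ⟨a, b, rfl⟩ ⟨a', b', rfl⟩
    exact ⟨a + a', b + b', by push_cast; ring⟩
  · rintro y - ⟨a, b, rfl⟩
    by_cases h0 : a ^ 2 + D * b ^ 2 = 0
    · have hD : (0 : ℚ) < D := by exact_mod_cast dpos hK
      have ha : a = 0 := by nlinarith [sq_nonneg a, mul_nonneg hD.le (sq_nonneg b)]
      have hb : b = 0 := by
        rw [ha] at h0
        have h1 : (D : ℚ) * b ^ 2 = 0 := by linarith
        exact pow_eq_zero_iff (two_ne_zero) |>.1 ((mul_eq_zero.1 h1).resolve_left hD.ne')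
      exact ⟨0, 0, by rw [ha, hb]; simp⟩
    · have h1 : ((a : K) + (b : K) * s) * ((a : K) - (b : K) * s) = ((a ^ 2 + D * b ^ 2 : ℚ) : K) := by
        push_cast
        linear_combination -(b : K) ^ 2 * hs
      have h2 : ((a ^ 2 + D * b ^ 2 : ℚ) : K) ≠ 0 := by exact_mod_cast h0
      refine ⟨a / (a ^ 2 + D * b ^ 2), -b / (a ^ 2 + D * b ^ 2), ?_⟩
      refine inv_eq_of_mul_eq_one_right ?_
      have h5 : ((a / (a ^ 2 + D * b ^ 2) : ℚ) : K) + ((-b / (a ^ 2 + D * b ^ 2) : ℚ) : K) * s =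
          ((a : K) - (b : K) * s) / ((a ^ 2 + D * b ^ 2 : ℚ) : K) := by
        push_cast
        ring
      rw [h5, ← mul_div_assoc, h1, div_self h2]
  · rintro y z - - ⟨a, b, rfl⟩ ⟨a', b', rfl⟩
    exact ⟨a * a' - D * (b * b'), a * b' + b * a', by push_cast; linear_combination (b : K) * b' * hs⟩

theorem int_of_rat {Ω : Type*} [Field Ω] [CharZero Ω] {x : Ω} {q : ℚ} (hx : IsIntegral ℤ x)
    (h : x = (q : Ω)) : ∃ m : ℤ, q = m := by
  have h1 : IsIntegral ℤ q := by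
    rw [h, ← eq_ratCast (algebraMap ℚ Ω) q] at hx
    exact (isIntegral_algebraMap_iff (algebraMap ℚ Ω).injective).1 hx
  obtain ⟨m, hm⟩ := IsIntegrallyClosed.isIntegral_iff.1 h1
  exact ⟨m, by rw [← hm]; simp⟩

/-- the arithmetic of `exists_swap2` -/
theorem mod_eight {D : ℕ} (hD : Squarefree D) {β : ℚ} {t n : ℤ} (ht : Odd t) (hn : Even n)
    (h : (D : ℚ) * β ^ 2 = 4 * n - t ^ 2) : D % 8 = 7 := by
  -- the denominator is one
  have hden : (β.den : ℤ) ^ 2 ∣ (D : ℤ) * β.num ^ 2 := by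
    refine ⟨4 * n - t ^ 2, ?_⟩
    have h1 : β * β.den = β.num := Rat.mul_den_eq_num β
    have h3 : (D : ℚ) * β.num ^ 2 = (β.den : ℚ) ^ 2 * (4 * n - t ^ 2) := by
      rw [← h, ← h1]
      ring
    exact_mod_cast h3
  have hcop : IsCoprime ((β.den : ℤ) ^ 2) (β.num ^ 2) := by
    have h1 := β.reduced
    have h2 : IsCoprime β.num (β.den : ℤ) := by
      rw [Int.isCoprime_iff_gcd_eq_one, Int.gcd_eq_natAbs]
      simpa using h1
    exact h2.symm.pow
  have h1 : (β.den : ℤ) ^ 2 ∣ (D : ℤ) := hcop.dvd_of_dvd_mul_right hden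
  have h2 : β.den * β.den ∣ D := by
    rw [pow_two] at h1
    exact_mod_cast h1
  have h3 : β.den = 1 := Nat.isUnit_iff.1 (hD _ h2)
  have h4 : β = β.num := by
    conv_lhs => rw [← Rat.num_div_den β, h3]
    simp
  rw [h4] at h
  have h5 : (D : ℤ) * β.num ^ 2 = 4 * n - t ^ 2 := by exact_mod_cast h
  obtain ⟨k, rfl⟩ := hn
  obtain ⟨u, rfl⟩ := ht
  have h6 : Odd β.num := by
    by_contra h7
    rw [Int.not_odd_iff_even] at h7
    obtain ⟨v, hv⟩ := h7
    rw [hv] at h5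
    have h8 : (4 * ((D : ℤ) * v ^ 2) : ℤ) = 4 * (k + k) - 4 * (u ^ 2 + u) - 1 := by
      linear_combination h5
    omega
  obtain ⟨v, hv⟩ := h6
  rw [hv] at h5
  obtain ⟨v', hv'⟩ : ∃ v', v ^ 2 + v = 2 * v' := by
    have := Int.even_mul_succ_self v
    obtain ⟨w, hw⟩ := this
    exact ⟨w, by linear_combination hw⟩
  obtain ⟨u', hu'⟩ : ∃ u', u ^ 2 + u = 2 * u' := by
    have := Int.even_mul_succ_self u
    obtain ⟨w, hw⟩ := this
    exact ⟨w, by linear_combination hw⟩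
  have h7 : (D : ℤ) * (8 * v' + 1) = 8 * (k - u') - 1 := by
    linear_combination h5 - 4 * (D : ℤ) * hv' - 4 * hu'
  have h8 : (D : ℤ) = 8 * (k - u' - D * v') - 1 := by linear_combination h7
  omega

/-- IF 2 DOES NOT SPLIT, the decomposition group at a prime over 2 is not contained in the group of `K`. -/
theorem exists_swap2 (hK : IsI K D s) (hc : PA.IsConj s c) (hD8 : D % 8 ≠ 7)
    {Q : Ideal (𝓞 (AlgebraicClosure K))} (hQ : Q.IsPrime) (h2 : (2 : 𝓞 (AlgebraicClosure K)) ∈ Q) :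
    ∃ g : AbsGal K, iK K g * c ∈ stb Q := by
  have hci : c⁻¹ = c := inv_eq_of_mul_eq_one_left (KS.c_sq hc)
  have key : ∀ z : 𝓞 K, (algebraMap (𝓞 K) (𝓞 (AlgebraicClosure K)) z ∈ Q ↔
      og c (algebraMap (𝓞 K) (𝓞 (AlgebraicClosure K)) z) ∈ Q) := by
    intro z
    obtain ⟨Z, hZ⟩ : ∃ Z, Z = algebraMap (𝓞 K) (𝓞 (AlgebraicClosure K)) z := ⟨_, rfl⟩
    rw [← hZ]
    obtain ⟨a, b, hab⟩ := rep_I hK (z : K)
    have hZ1 : (Z : AlgebraicClosure K) = (a : AlgebraicClosure K) +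
        (b : AlgebraicClosure K) * algebraMap K (AlgebraicClosure K) s := by
      rw [hZ]
      show algebraMap K (AlgebraicClosure K) (z : K) = _
      rw [hab, map_add, map_mul, map_ratCast, map_ratCast]
    have hZ2 : ((og c Z : 𝓞 (AlgebraicClosure K)) : AlgebraicClosure K) = (a : AlgebraicClosure K) -
        (b : AlgebraicClosure K) * algebraMap K (AlgebraicClosure K) s := by
      rw [show ((og c Z : 𝓞 (AlgebraicClosure K)) : AlgebraicClosure K) = c (Z : AlgebraicClosure K)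
        from rfl, hZ1, map_add, map_mul, map_ratCast, map_ratCast, hc.neg]
      ring
    have hss : (algebraMap K (AlgebraicClosure K) s) ^ 2 = -(D : AlgebraicClosure K) := by
      rw [← map_pow, hK.sq, map_neg, map_natCast]
    obtain ⟨t, ht⟩ := int_of_rat (q := 2 * a) (x := ((Z + og c Z : 𝓞 (AlgebraicClosure K)) :
      AlgebraicClosure K)) (Z + og c Z).isIntegral_coe (by
        show (Z : AlgebraicClosure K) + ((og c Z : 𝓞 (AlgebraicClosure K)) : AlgebraicClosure K) = _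
        rw [hZ1, hZ2]
        push_cast
        ring)
    obtain ⟨n, hn⟩ := int_of_rat (q := a ^ 2 + D * b ^ 2) (x := ((Z * og c Z : 𝓞 (AlgebraicClosure K)) :
      AlgebraicClosure K)) (Z * og c Z).isIntegral_coe (by
        show (Z : AlgebraicClosure K) * ((og c Z : 𝓞 (AlgebraicClosure K)) : AlgebraicClosure K) = _
        rw [hZ1, hZ2]
        push_cast
        linear_combination -(b : AlgebraicClosure K) ^ 2 * hss)
    have hT : Z + og c Z = (t : 𝓞 (AlgebraicClosure K)) := by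
      apply RingOfIntegers.ext
      show (Z : AlgebraicClosure K) + ((og c Z : 𝓞 (AlgebraicClosure K)) : AlgebraicClosure K) =
        algebraMap (𝓞 (AlgebraicClosure K)) (AlgebraicClosure K) (t : 𝓞 (AlgebraicClosure K))
      rw [hZ1, hZ2, map_intCast]
      have h3 : ((2 * a : ℚ) : AlgebraicClosure K) = (t : AlgebraicClosure K) := by
        rw [ht]
        push_cast
        ring
      rw [← h3]
      push_cast
      ring
    have hN : Z * og c Z = (n : 𝓞 (AlgebraicClosure K)) := by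
      apply RingOfIntegers.ext
      show (Z : AlgebraicClosure K) * ((og c Z : 𝓞 (AlgebraicClosure K)) : AlgebraicClosure K) =
        algebraMap (𝓞 (AlgebraicClosure K)) (AlgebraicClosure K) (n : 𝓞 (AlgebraicClosure K))
      rw [hZ1, hZ2, map_intCast]
      have h3 : ((a ^ 2 + D * b ^ 2 : ℚ) : AlgebraicClosure K) = (n : AlgebraicClosure K) := by
        rw [hn]
        push_cast
        ring
      rw [← h3]
      push_cast
      linear_combination -(b : AlgebraicClosure K) ^ 2 * hss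
    have h2' : ((2 : ℕ) : 𝓞 (AlgebraicClosure K)) ∈ Q := by exact_mod_cast h2
    by_contra hcon
    have h3 : (n : 𝓞 (AlgebraicClosure K)) ∈ Q ∧ (t : 𝓞 (AlgebraicClosure K)) ∉ Q := by
      rw [← hT, ← hN]
      by_cases h4 : Z ∈ Q
      · have h5 : og c Z ∉ Q := fun h5 => hcon ⟨fun _ => h5, fun _ => h4⟩
        exact ⟨Q.mul_mem_right _ h4, fun h6 => h5 ((Q.add_mem_iff_right h4).1 h6)⟩
      · have h5 : og c Z ∈ Q := by
          by_contra h5
          exact hcon ⟨fun h => absurd h h4, fun h => absurd h h5⟩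
        exact ⟨Q.mul_mem_left _ h5, fun h6 => h4 ((Q.add_mem_iff_left h5).1 h6)⟩
    rw [nat_mem Nat.prime_two hQ h2', nat_mem Nat.prime_two hQ h2'] at h3
    refine hD8 (mod_eight hK.sqf (β := 2 * b) (t := t) (n := n) ?_ ?_ ?_)
    · rw [← Int.not_even_iff_odd, even_iff_two_dvd]
      exact_mod_cast h3.2
    · rw [even_iff_two_dvd]
      exact_mod_cast h3.1
    · rw [← hn, ← ht]
      ring
  have hcQ : (cj c Q).IsPrime := GA.cj_prime hQ
  obtain ⟨g, hg⟩ := SH.exists_trans hcQ hQ (by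
    ext z
    rw [Ideal.mem_comap, Ideal.mem_comap, GA.mem_cj, hci]
    exact (key z).symm)
  refine ⟨g, ?_⟩
  rw [mem_stb]
  intro x
  have h3 := hg (og c x)
  rw [GA.mem_cj, hci] at h3
  have h4 : og c (og c x) = x := by
    apply RingOfIntegers.ext
    exact hc.sq _
  rw [h4] at h3
  exact h3

/-- THE ODD PRIMES THAT SPLIT. -/
theorem stb_leI (hK : IsI K D s) {l : ℕ} (hl : Spl D l) {Q : Ideal (𝓞 (AlgebraicClosure K))}
    (hQ : Q.IsPrime) (hlQ : (l : 𝓞 (AlgebraicClosure K)) ∈ Q) : stb Q ≤ (iK K).range := by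
  intro g hg
  by_contra hcon
  have h := (notMem_iffI (RingEquiv.refl (AlgebraicClosure K)) hK).1 hcon
  have ht2 := t_sq (RingEquiv.refl (AlgebraicClosure K)) hK
  obtain ⟨t, ht⟩ : ∃ t, t = (RingEquiv.refl (AlgebraicClosure K))
    (algebraMap K (AlgebraicClosure K) s) := ⟨_, rfl⟩
  rw [← ht] at h ht2
  obtain ⟨tt, htt, htt2⟩ := mk_int ht2
  have hog : og g tt = -tt := sp_ext (by rw [sp_og, htt, h, map_neg, htt])
  obtain ⟨hlp, hl2, hlD, A, hA⟩ := hl
  have hprod : ((A : 𝓞 (AlgebraicClosure K)) - tt) * ((A : 𝓞 (AlgebraicClosure K)) + tt) =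
      ((A ^ 2 + (D : ℤ) : ℤ) : 𝓞 (AlgebraicClosure K)) := by
    push_cast
    push_cast at htt2
    linear_combination -htt2
  have hmem : ((A : 𝓞 (AlgebraicClosure K)) - tt) * ((A : 𝓞 (AlgebraicClosure K)) + tt) ∈ Q := by
    rw [hprod]; exact (nat_mem hlp hQ hlQ _).2 hA
  have hiff := (mem_stb.1 hg) ((A : 𝓞 (AlgebraicClosure K)) - tt)
  have hog2 : og g ((A : 𝓞 (AlgebraicClosure K)) - tt) = (A : 𝓞 (AlgebraicClosure K)) + tt := by
    rw [map_sub, hog, map_intCast]; ring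
  rw [hog2] at hiff
  have hboth : ((A : 𝓞 (AlgebraicClosure K)) - tt) ∈ Q ∧ ((A : 𝓞 (AlgebraicClosure K)) + tt) ∈ Q := by
    rcases hQ.mem_or_mem hmem with h3 | h3
    · exact ⟨h3, hiff.1 h3⟩
    · exact ⟨hiff.2 h3, h3⟩
  have h2A : ((2 * A : ℤ) : 𝓞 (AlgebraicClosure K)) ∈ Q := by
    have := Q.add_mem hboth.1 hboth.2
    have e : (A : 𝓞 (AlgebraicClosure K)) - tt + ((A : 𝓞 (AlgebraicClosure K)) + tt) =
        ((2 * A : ℤ) : 𝓞 (AlgebraicClosure K)) := by push_cast; ring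
    rwa [e] at this
  have h3 := (nat_mem hlp hQ hlQ _).1 h2A
  have hlp' := Nat.prime_iff_prime_int.1 hlp
  have h4 : (l : ℤ) ∣ A := by
    rcases hlp'.dvd_or_dvd h3 with h5 | h5
    · exfalso
      have : l ∣ 2 := by exact_mod_cast h5
      exact hl2 ((Nat.prime_dvd_prime_iff_eq hlp Nat.prime_two).1 this)
    · exact h5
  have h6 : (l : ℤ) ∣ D := by
    have h7 : (l : ℤ) ∣ A ^ 2 := dvd_pow h4 (by norm_num)
    exact (Int.dvd_iff_dvd_of_dvd_add hA).1 h7
  exact hlD (by exact_mod_cast h6)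

/-- THE PRIME NUMBER 2, if it splits. -/
theorem stb_le2 (hK : IsI K D s) (hD8 : D % 8 = 7) {Q : Ideal (𝓞 (AlgebraicClosure K))}
    (hQ : Q.IsPrime) (h2 : (2 : 𝓞 (AlgebraicClosure K)) ∈ Q) : stb Q ≤ (iK K).range := fun g hg => by
  have hK' : IsQ K D s := ⟨hK.deg, hK.sq, hK.sqf, hD8⟩
  obtain ⟨σ, hσ⟩ := HP.stb_le (RingEquiv.refl (AlgebraicClosure K)) hK' (Or.inl rfl) hQ
    (by exact_mod_cast h2) hg
  exact ⟨σ, hσ⟩

/-- THE INERT ODD PRIMES. -/
theorem exists_swapI (hK : IsI K D s) (X : Two (iK K) c κ) {l : ℕ} (hl : Inr D l)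
    {Q : Ideal (𝓞 (AlgebraicClosure K))}
    (hQ : Q.IsPrime) (hlQ : (l : 𝓞 (AlgebraicClosure K)) ∈ Q) : ∃ g : AbsGal K, iK K g * c ∈ stb Q := by
  obtain ⟨hlp, hl2, hlD, hns⟩ := hl
  obtain ⟨g, h1, h2⟩ := GA.exists_frobQ (alg_closure K) hlp hQ hlQ
  suffices h : g ∉ (iK K).range by
    rcases X.cases g with ⟨m, rfl⟩ | ⟨m, rfl⟩
    · exact absurd ⟨m, rfl⟩ h
    · exact ⟨m, h1⟩
  intro h3
  apply hns
  have h4 := (emb_sqI (RingEquiv.refl (AlgebraicClosure K)) hK g).1 h3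
  have ht2 := t_sq (RingEquiv.refl (AlgebraicClosure K)) hK
  obtain ⟨t, ht⟩ : ∃ t, t = (RingEquiv.refl (AlgebraicClosure K))
    (algebraMap K (AlgebraicClosure K) s) := ⟨_, rfl⟩
  rw [← ht] at h4 ht2
  obtain ⟨tt, htt, htt2⟩ := mk_int ht2
  have hog : og g tt = tt := sp_ext (by rw [sp_og, htt, h4])
  have h5 := h2 tt
  rw [hog] at h5
  -- `t (t ^ (l - 1) - 1)` is in `Q`
  obtain ⟨m, hm⟩ := hlp.odd_of_ne_two hl2
  have h6 : tt * (((-(D : ℤ)) ^ m - 1 : ℤ) : 𝓞 (AlgebraicClosure K)) ∈ Q := by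
    have h7 : tt * (((-(D : ℤ)) ^ m - 1 : ℤ) : 𝓞 (AlgebraicClosure K)) = -(tt - tt ^ l) := by
      rw [hm, pow_succ, pow_mul, htt2]
      push_cast
      ring
    rw [h7]
    exact Q.neg_mem h5
  have h8 : tt ∉ Q := by
    intro h9
    have h10 : tt ^ 2 ∈ Q := by
      rw [pow_two]
      exact Q.mul_mem_left _ h9
    rw [htt2, nat_mem hlp hQ hlQ, dvd_neg] at h10
    exact hlD (by exact_mod_cast h10)
  have h11 := (hQ.mem_or_mem h6).resolve_left h8
  rw [nat_mem hlp hQ hlQ] at h11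
  have hfact : Fact l.Prime := ⟨hlp⟩
  have h12 : ((-(D : ℤ) : ℤ) : ZMod l) ^ (l / 2) = 1 := by
    have h13 : l / 2 = m := by omega
    rw [h13, ← sub_eq_zero]
    have h14 := (ZMod.intCast_zmod_eq_zero_iff_dvd _ l).2 h11
    push_cast at h14 ⊢
    exact h14
  have h15 : ((-(D : ℤ) : ℤ) : ZMod l) ≠ 0 := by
    intro h16
    rw [ZMod.intCast_zmod_eq_zero_iff_dvd, dvd_neg] at h16
    exact hlD (by exact_mod_cast h16)
  obtain ⟨r, hr⟩ := (ZMod.euler_criterion l h15).2 h12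
  refine ⟨r.val, ?_⟩
  rw [← ZMod.intCast_zmod_eq_zero_iff_dvd]
  push_cast at hr ⊢
  rw [ZMod.natCast_zmod_val, pow_two, ← hr]
  ring

/-- the inertia group at a prime that does not divide `2 D` is contained in the group of `K` -/
theorem inr_le_range (hK : IsI K D s) {l : ℕ} (hl : l.Prime) (h2 : l ≠ 2) (hlD : ¬ l ∣ D)
    {Q : Ideal (𝓞 (AlgebraicClosure K))} (hQ : Q.IsPrime) (hlQ : (l : 𝓞 (AlgebraicClosure K)) ∈ Q) :
    inr Q ≤ (iK K).range := by
  intro τ hτ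
  obtain ⟨σ, -, hσ⟩ := inr_leI (RingEquiv.refl (AlgebraicClosure K)) hK hQ
    (KS.two_notMem hl h2 hQ hlQ) (fun p hp hpD hpQ => by
      rw [← GA.prime_uniq hQ hl hp hlQ hpQ] at hpD
      exact hlD hpD) hτ
  exact ⟨σ, hσ⟩

/-- THE EXISTENCE of the arithmetic data for an imaginary quadratic field. -/
theorem exists_inI (hK : IsI K D s) (hc : PA.IsConj s c)
    (hκ : ∀ (σ : AbsGal K) (x : AlgebraicClosure K), κ σ x = c (σ (c x))) {T₀ : Finset ℕ}
    (hT₀ : ∀ l ∈ T₀, l.Prime ∧ l ≠ 2) (hD : ∀ p : ℕ, p.Prime → p ≠ 2 → p ∣ D → p ∈ T₀)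
    {N₀ : Subgroup (AbsGal K)}
    (hN : (fullK (K := K) T₀).mem N₀) (kN : ∀ g ∈ N₀, κ g ∈ N₀) :
    ∃ N₁ ≤ N₀, (∀ g ∈ N₁, κ g ∈ N₁) ∧ (fullK (K := K) (insert 7 T₀)).mem N₁ ∧ ∃ T₁ : Finset ℕ,
      (∀ l ∈ T₁, l.Prime ∧ l ≠ 2) ∧
      ∀ T : Finset ℕ, T₀ ⊆ T → T₁ ⊆ T → ∀ P : ℕ → Ideal (𝓞 (AlgebraicClosure K)), IsP T P →
      ∃ (iv ivF : ∀ w : Option T, (stb (HP.PP P w) → stb (HP.PP P w) → GP.A0) → GP.A0),
        (∀ f, KR.Z2 (RQ.ufull (AlgebraicClosure K) (T : Set ℕ)) (GP.tw cyQ) f →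
          ∑ w, ivF w (RQ.rs (stb (HP.PP P w)) f) + (f c c + f 1 1) = 0) ∧
        ∃ tr, InX.{u, v} c κ T P N₁ iv ivF tr :=
  exists_inX (two_I hK hc hκ) (range_memI hK (RingEquiv.refl (AlgebraicClosure K)) hD)
    (fun l hl _ hQ hlQ => ram_I hK (hT₀ l hl).1 (hT₀ l hl).2 hQ hlQ) hN kN

section kinds

variable {T : Finset ℕ} {P : ℕ → Ideal (𝓞 (AlgebraicClosure K))} {N₀ : Subgroup (AbsGal K)}
  {iv ivF : ∀ w : Option T, (stb (HP.PP P w) → stb (HP.PP P w) → GP.A0) → GP.A0}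
  {tr : (((AlgebraicClosure K ≃+* AlgebraicClosure K) → (AlgebraicClosure K ≃+* AlgebraicClosure K) →
      (AlgebraicClosure K ≃+* AlgebraicClosure K) → GP.A0) ×
      (∀ i : Option (Option T), GA.HQ c P i → GA.HQ c P i → GP.A0)) →+ GP.A0}

/-- THE THREE KINDS of odd primes -/
theorem kinds (I : InX.{u, v} c κ T P N₀ iv ivF tr) (D : ℕ) (l : T) :
    Spl D l ∨ (l : ℕ) ∣ D ∨ Inr D l := by
  by_cases h : (l : ℕ) ∣ D
  · exact Or.inr (Or.inl h)
  · by_cases h' : ∃ A : ℤ, ((l : ℕ) : ℤ) ∣ A ^ 2 + D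
    · exact Or.inl ⟨I.prime l, I.odd l, h, h'⟩
    · exact Or.inr (Or.inr ⟨I.prime l, I.odd l, h, h'⟩)

/-- THE PRIME DIVISORS OF `D`. -/
theorem theta_I (I : InX.{u, v} c κ T P N₀ iv ivF tr) (hK : IsI K D s) {l : T} (hl : (l : ℕ) ∣ D) :
    ∃ θ : AbsGal K, iK K θ * c ∈ inr (P l) := by
  obtain ⟨a, u, σ, τ, hu, hτ, hττ, hTam, hinv⟩ := I.qdat.tame l
  have h1 := inr_negI (RingEquiv.refl (AlgebraicClosure K)) hK (I.prime l) (I.odd l) hl (I.isPrime l)
    (I.natMem l) hτ hττ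
  have h2 := (notMem_iffI (RingEquiv.refl (AlgebraicClosure K)) hK).2 h1
  exact I.theta fun h => h2 (h hτ)

end kinds

end Pool.Agent.Work.MP_787500_nt.QX
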