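import Mathlib
import Pool.Agent.Work.MP_787500_nt.QX.Two
import Pool.Agent.Work.MP_787500_nt.QG.Res3
import Pool.Agent.Work.MP_787500_nt.QG.ResL

/-!
The residual hypotheses over an arbitrary imaginary quadratic field.
-/

set_option autoImplicit false
set_option linter.unusedSectionVars false

namespace Pool.Agent.Work.MP_787500_nt.QX

open Matrix NumberField
open Pool.Agent.Work.MP_787500_nt.PA (cyc toE)
open Pool.Agent.Work.MP_787500_nt.GP
open Pool.Agent.Work.MP_787500_nt.LX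
open Pool.Agent.Work.MP_787500_nt.KR (FSys big fullK fullD ParD)
open Pool.Agent.Work.MP_787500_nt.HP (IsQ Spl IsP cyQ)
open Pool.Agent.Work.MP_787500_nt.KS (iK)
open Pool.Agent.Work.MP_787500_nt.QF
open Pool.Agent.Work.MP_787500_nt.QG (hasL_of hasC_mono hasL_res)

universe u v

variable {K : Type u} [Field K] [NumberField K] {D : ℕ} {s : K}
  {c : AlgebraicClosure K ≃+* AlgebraicClosure K} {κ : AbsGal K →* AbsGal K} {T : Finset ℕ}

theorem hasC_symplI (hK : IsI K D s) (hc : PA.IsConj s c)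
    (hκ : ∀ (σ : AbsGal K) (x : AlgebraicClosure K), κ σ x = c (σ (c x)))
    {E : Type v} [NormedField E] [NormedAlgebra ℚ_[2] E]
    [FiniteDimensional ℚ_[2] E] {n : ℕ} {J : Set (AbsGal K)}
    {ρ : AbsGal K →* Matrix (Fin n) (Fin n) E} {b : Matrix (Fin n) (Fin n) E} (hb : b.det ≠ 0)
    (hρ : Parity.IsDualRep (inT K T) (Parity.cyclo E) κ ρ b)
    (hS : Parity.SymplTwist (inT K T) J κ ρ b) : HasC (fun g => g ∈ J) κ ρ b := by
  obtain ⟨χ, C, hχc, hχI, hχ, hCC, hbC, hcom, hJ⟩ := hS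
  intro E' _ _ _ ι m l hl0 hl1 hlm hx
  have hult := Gn.ultra 2 E'
  have hn1 : ∀ g, ‖χ g‖ = 1 := by
    intro g
    have hu := Gn.ultra 2 E
    have h1 : χ g = χ g - 1 + 1 := by ring
    rw [h1, IsUltrametricDist.norm_add_eq_max_of_norm_ne_norm (by
      rw [norm_one]
      exact (hχ g).1.ne), norm_one, max_eq_right (hχ g).1.le]
  have hne : ∀ g, χ g ≠ 0 := by
    intro g
    rw [← norm_pos_iff, hn1]
    exact one_pos
  let ρ₀ : AbsGal K →* Matrix (Fin n) (Fin n) E :=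
    { toFun := fun g => χ g • ρ g
      map_one' := by rw [map_one, map_one, one_smul]
      map_mul' := fun g h => by rw [map_mul, map_mul, smul_mul_smul_comm] }
  have hr0 : ∀ g, ρ₀ g = χ g • ρ g := fun g => rfl
  have hd : ∀ g, (ρ g)ᵀ * b * ρ (κ g) = toE E (cyc g) • b := hρ.dual
  have hd0 : ∀ g, (ρ₀ g)ᵀ * b * ρ₀ (κ g) = toE E (cyc g) • b := by
    intro g
    rw [hr0, hr0, transpose_smul, Matrix.smul_mul, smul_mul_smul_comm, hd, mul_comm, (hχ g).2,
      one_smul]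
  have hC0 : ∀ g, C * ρ₀ (κ g) = ρ₀ g * C := by
    intro g
    rw [hr0, hr0, Matrix.mul_smul, Matrix.smul_mul, hcom]
  have hcont : Continuous ρ₀ := hχc.smul hρ.cont
  have hunr : ∀ σ ∈ inT K T, ρ₀ σ = 1 := by
    intro σ hσ
    rw [hr0, hχI σ hσ, hρ.unram σ hσ, one_smul]
  classical
  have X := two_I hK hc hκ
  obtain ⟨TD, hTD⟩ : ∃ TD : Finset ℕ, TD = D.primeFactors.filter (fun p => p ≠ 2) := ⟨_, rfl⟩
  have hunr2 := range_memI hK (RingEquiv.refl (AlgebraicClosure K)) (T := T ∪ TD)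
    fun p hp hp2 hpD => Finset.mem_union_right _ (by
      rw [hTD, Finset.mem_filter, Nat.mem_primeFactors]
      exact ⟨⟨hp, hpD, hK.sqf.ne_zero⟩, hp2⟩)
  obtain ⟨L, h1, h2, h3, h4, hM⟩ := exists_lat_C X
    (Sq := KR.fullQ (AlgebraicClosure K) ((T ∪ TD : Finset ℕ) : Set ℕ))
    (fun W hW => push X hunr2 (fullK_mono Finset.subset_union_left hW)) (χq := cyQ)
    (fun g => HP.cyQ_emb _ g) (chic X) (fun σ τ => by
      unfold HP.cyQ
      rw [map_mul, Units.val_mul]) (KR.small_full (KR.isFull_K T) hcont hunr) hb hρ.symm hd0 hCC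
    hC0 hbC hl0 hl1 hlm hx
  have hin : ∀ g, ‖(ι (χ g))⁻¹‖ ≤ 1 := by
    intro g
    rw [norm_inv, hx.norm, hn1, inv_one]
  have hm0 : ∀ g, mapRep ι ρ g = (ι (χ g))⁻¹ • mapRep ι ρ₀ g := by
    intro g
    have h5 : mapRep ι ρ₀ g = ι (χ g) • mapRep ι ρ g := by
      ext i j
      show ι ((χ g • ρ g) i j) = ι (χ g) * ι (ρ g i j)
      rw [Matrix.smul_apply, smul_eq_mul, map_mul]
    rw [h5, smul_smul, inv_mul_cancel₀ ((map_ne_zero ι).2 (hne g)), one_smul]
  refine ⟨L, C.map ι, fun g x hx' => ?_, h2, h3, h4, ⟨hM.st, hM.sq, fun g => ?_, hM.alt⟩,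
    fun g hg _ => ?_⟩
  · rw [hm0, smul_mulVec]
    exact L.smul_mem (⟨(ι (χ g))⁻¹, hin g⟩ : OE E') (h1 g x hx')
  · have h5 : C * ρ (κ g) = (χ g * χ g) • (ρ g * C) := by
      have h6 := congrArg (fun A => χ g • A) (hcom g)
      simp only [smul_smul] at h6
      rwa [mul_comm (χ g) (χ (κ g)), (hχ g).2, one_smul] at h6
    refine ⟨ι (χ g * χ g), ?_, ?_⟩
    · rw [← map_one ι, ← map_sub, hx.norm]
      have hu := Gn.ultra 2 E
      have h6 : χ g * χ g - 1 = (χ g - 1) * χ g + (χ g - 1) := by ring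
      rw [h6]
      refine (IsUltrametricDist.norm_add_le_max _ _).trans_lt (max_lt ?_ (hχ g).1)
      rw [norm_mul, hn1, mul_one]
      exact (hχ g).1
    · have h6 := congrArg (fun A : Matrix (Fin n) (Fin n) E => A.map ι) h5
      have h7 : ((χ g * χ g) • (ρ g * C)).map ι =
          ι (χ g * χ g) • ((ρ g).map ι * C.map ι) := by
        rw [← Matrix.map_mul]
        ext i j
        show ι (((χ g * χ g) • (ρ g * C)) i j) = ι (χ g * χ g) * ι ((ρ g * C) i j)
        rw [Matrix.smul_apply, smul_eq_mul, map_mul]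
      simp only [Matrix.map_mul] at h6
      rw [h7] at h6
      exact h6
  · have h5 := hJ g hg
    refine ⟨(ι (χ g))⁻¹, ?_, ?_⟩
    · have h6 : (ι (χ g))⁻¹ - 1 = -((ι (χ g))⁻¹ * (ι (χ g) - 1)) := by
        rw [mul_sub, inv_mul_cancel₀ ((map_ne_zero ι).2 (hne g))]
        ring
      rw [h6, norm_neg, norm_mul]
      have h7 : ‖ι (χ g) - 1‖ < 1 := by
        rw [← map_one ι, ← map_sub, hx.norm]
        exact (hχ g).1
      calc ‖(ι (χ g))⁻¹‖ * ‖ι (χ g) - 1‖ ≤ 1 * ‖ι (χ g) - 1‖ := by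
            gcongr
            exact hin g
        _ < 1 := by rwa [one_mul]
    · have h6 := congrArg (fun A : Matrix (Fin n) (Fin n) E => A.map ι) h5
      have h7 : (χ g • (ρ g * C)).map ι = ι (χ g) • ((ρ g).map ι * C.map ι) := by
        rw [← Matrix.map_mul]
        ext i j
        show ι ((χ g • (ρ g * C)) i j) = ι (χ g) * ι ((ρ g * C) i j)
        rw [Matrix.smul_apply, smul_eq_mul, map_mul]
      have h8 : ((1 : Matrix (Fin n) (Fin n) E)).map ι = 1 :=
        Matrix.map_one _ (map_zero _) (map_one _)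
      rw [h7, h8] at h6
      rw [← h6, smul_smul, inv_mul_cancel₀ ((map_ne_zero ι).2 (hne g)), one_smul]
      rfl



/-- THE RESIDUAL HYPOTHESES. -/
theorem hasL_false (hK : IsI K D s) (hc : PA.IsConj s c)
    (hκ : ∀ (σ : AbsGal K) (x : AlgebraicClosure K), κ σ x = c (σ (c x)))
    {E : Type v} [NormedField E] [NormedAlgebra ℚ_[2] E]
    [FiniteDimensional ℚ_[2] E] {n : ℕ}
    {ρ : AbsGal K →* Matrix (Fin n) (Fin n) E} {b : Matrix (Fin n) (Fin n) E} (hb : b.det ≠ 0)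
    (hρ : Parity.IsDualRep (inT K T) (Parity.cyclo E) κ ρ b)
    (hS : (n = 2 ∧ ∀ σ, ‖(ρ σ).det - 1‖ < 1) ∨ Parity.SymplTwist (inT K T) ∅ κ ρ b ∨
      Parity.ResSympl κ ρ b) : SH.HasL (fun _ => False) κ ρ b := by
  rcases hS with ⟨rfl, h⟩ | h | h
  · exact hasL_of (hasC_two hb hρ h _)
  · exact hasL_of (hasC_mono (fun g hg => hg.elim) (hasC_symplI hK hc hκ hb hρ h))
  · exact hasL_res h

end Pool.Agent.Work.MP_787500_nt.QX
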