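import Mathlib
import Pool.Agent.Work.MP_787500_nt.QX.Gen5
import Pool.Agent.Work.MP_787500_nt.QX.LocL
import Pool.Agent.Work.MP_787500_nt.QX.ExtL

/-!
The parity theorem over an imaginary quadratic field where 2 does not split, for Selmer groups with an arbitrary
self-annihilating condition at the prime above 2, for representations that have a matrix `C` as in `SH.HasL`.
-/

set_option autoImplicit false
set_option linter.unusedSectionVars false

namespace Pool.Agent.Work.MP_787500_nt.QX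

open Matrix NumberField
open Pool.Agent.Work.MP_787500_nt.PA (cyc toE)
open Pool.Agent.Work.MP_787500_nt.GP
open Pool.Agent.Work.MP_787500_nt.LX
open Pool.Agent.Work.MP_787500_nt.HP (IsQ Spl IsP inr stb cyQ)
open Pool.Agent.Work.MP_787500_nt.KS (iK)
open Pool.Agent.Work.MP_787500_nt.QF (exists_n0 max_MN)
open Pool.Agent.Work.MP_787500_nt.QG (exists_primes alt_theta condExp_ext commOn_ext)

universe u v

variable {K : Type u} [Field K] [NumberField K] {D : ℕ} {s : K}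
  {c : AlgebraicClosure K ≃+* AlgebraicClosure K} {κ : AbsGal K →* AbsGal K}

open scoped Classical in
theorem main_genL (hK : IsI K D s) (hc : PA.IsConj s c)
    (hκ : ∀ (σ : AbsGal K) (x : AlgebraicClosure K), κ σ x = c (σ (c x)))
    {P₀ : Ideal (𝓞 (AlgebraicClosure K))} (hP₀ : P₀.IsPrime)
    (hP2 : (2 : 𝓞 (AlgebraicClosure K)) ∈ P₀)
    {T : Finset ℕ} (hT : ∀ l ∈ T, l.Prime ∧ l ≠ 2 ∧ ¬ l ∣ D)
    {Q : ℕ → Ideal (𝓞 (AlgebraicClosure K))}
    (hQ : ∀ l ∈ T, (Q l).IsPrime ∧ (l : 𝓞 (AlgebraicClosure K)) ∈ Q l)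
    {E : Type v} [NormedField E] [NormedAlgebra ℚ_[2] E] [FiniteDimensional ℚ_[2] E] {n : ℕ}
    {ρ : AbsGal K →* Matrix (Fin n) (Fin n) E} {b : Matrix (Fin n) (Fin n) E} (hb : b.det ≠ 0)
    (hρ : Parity.IsDualRep (inT K T) (Parity.cyclo E) κ ρ b) (hC : SH.HasL (InO c D) κ ρ b)
    (hI : ∀ l ∈ T, GA.Inr D l → Parity.CommOn ((Q l).inertia (AbsGal K)) ρ ∨ n = 2)
    {g₀ : AbsGal K} (h0 : iK K g₀ * c ∈ stb P₀)
    {k : stabD (K := K) P₀ → stabD (K := K) P₀} (hk : ∀ a, (k a : AbsGal K) = g₀ * κ a * g₀⁻¹)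
    {W : Submodule E (Fin n → E)}
    (hW : ∀ σ ∈ stabD (K := K) P₀, ∀ x ∈ W, ρ σ *ᵥ x ∈ W) (hW2 : 2 * Module.finrank E W = n)
    (hW0 : ∀ x ∈ W, ∀ y ∈ W, bil b x (ρ g₀⁻¹ *ᵥ y) = 0) :
    Parity.IsSelfPerp (Parity.cyclo E) κ ρ b (stabD (K := K) P₀) (ρ g₀⁻¹) k
        (Parity.greenbergAt ρ (stabD (K := K) P₀) W) ∧
      Parity.ParitySelf (Parity.inertiaOffTwo K) (Parity.cyclo E) κ ρ b (stabD (K := K) P₀) (ρ g₀⁻¹) k W
        (∑ l ∈ T.filter (GA.Inr D), Parity.condExp ((Q l).inertia (AbsGal K)) ρ) := by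
  have X := two_I hK hc hκ
  have hodd : ∀ g : AbsGal K, (2 : ℤ_[2]) ∣ cyc g - 1 := PA.isChar_cyc.odd
  obtain ⟨N₀, hNn, hNF, hNo, hκN, hNI, hpro⟩ := exists_n0 (KR.isFull_K T) (χ := cyc)
    PA.isChar_cyc.mul PA.isChar_cyc.one hodd X.kk hb hρ
  -- the odd prime divisors of `D`
  obtain ⟨TD, hTD⟩ : ∃ TD : Finset ℕ, TD = D.primeFactors.filter (fun p => p ≠ 2) := ⟨_, rfl⟩
  have mTD : ∀ p, p ∈ TD ↔ p.Prime ∧ p ≠ 2 ∧ p ∣ D := fun p => by
    rw [hTD, Finset.mem_filter, Nat.mem_primeFactors]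
    exact ⟨fun h => ⟨h.1.1, h.2, h.1.2.1⟩, fun h => ⟨⟨h.1, h.2.2, hK.sqf.ne_zero⟩, h.2.1⟩⟩
  obtain ⟨N₁, hN₁, kN₁, hmem₁, T₁, hT₁, hex⟩ := exists_inI.{u, v} hK hc hκ (T₀ := T ∪ TD)
    (fun l hl => by
      rcases Finset.mem_union.1 hl with h | h
      · exact ⟨(hT l h).1, (hT l h).2.1⟩
      · exact ⟨((mTD l).1 h).1, ((mTD l).1 h).2.1⟩)
    (fun p hp h2 hd => Finset.mem_union_right _ ((mTD p).2 ⟨hp, h2, hd⟩))
    (fullK_mono Finset.subset_union_left hNF) hκN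
  obtain ⟨T', hT'⟩ : ∃ T', T' = T ∪ TD ∪ T₁ := ⟨_, rfl⟩
  have hTT0 : T ∪ TD ⊆ T' := hT' ▸ Finset.subset_union_left
  have hTT : T ⊆ T' := Finset.subset_union_left.trans hTT0
  have hTDT : TD ⊆ T' := Finset.subset_union_right.trans hTT0
  have hT1 : T₁ ⊆ T' := hT' ▸ Finset.subset_union_right
  have hpr : ∀ l ∈ T', l.Prime ∧ l ≠ 2 := fun l hl => by
    rw [hT'] at hl
    rcases Finset.mem_union.1 hl with h | h
    · rcases Finset.mem_union.1 h with h | h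
      · exact ⟨(hT l h).1, (hT l h).2.1⟩
      · exact ⟨((mTD l).1 h).1, ((mTD l).1 h).2.1⟩
    · exact hT₁ l h
  obtain ⟨P, hP, h2, hPQ⟩ := exists_primes hP₀ hP2 (fun l hl => (hpr l hl).1) (fun l hl => (hpr l hl).2)
    hQ hTT
  subst h2
  obtain ⟨iv, ivF, -, tr, I⟩ := hex T' hTT0 hT1 P hP
  have hI' : ∀ σ ∈ inT K T', ρ σ = 1 := fun σ hσ => hρ.unram σ (HP.inT_mono hTT hσ)
  have hρ₀ : Gn.ConjDual 2 N₁ (inT K T') (fun g => toE E (cyc g)) κ ρ b :=
    ⟨hρ.cont, fun g hg => hpro g (hN₁ hg), hI', hρ.symm, hρ.dual⟩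
  obtain ⟨l, hl0, hl1, hlm⟩ := exists_unif E
  obtain ⟨E', i1, i2, i3, ι, m', hx⟩ := exists_sqrtExt hl0 hl1 hlm
  suffices hmain : Parity.IsSelfPerp (fun g => toE E' (cyc g)) κ (mapRep ι ρ) (b.map ι) (stabD (K := K) (P 2))
      ((ρ g₀⁻¹).map ι) k (Parity.greenbergAt (mapRep ι ρ) (stabD (K := K) (P 2)) (extV hx W)) ∧
      Parity.ParitySelf (Parity.inertiaOffTwo K) (fun g => toE E' (cyc g)) κ (mapRep ι ρ) (b.map ι)
        (stabD (K := K) (P 2)) ((ρ g₀⁻¹).map ι) k (extV hx W)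
        (∑ l ∈ T.filter (GA.Inr D), Parity.condExp ((Q l).inertia (AbsGal K)) ρ) by
    obtain ⟨s1, s2⟩ := hmain
    rw [greenbergAt_ext hx hl0] at s1
    exact ⟨(selfPerp_ext hx hl0).1 s1, paritySelf_ext hx hl0 s2⟩
  have hloc : IsLocalRing (OE E') := isLocal E'
  have hrf : Finite (IsLocalRing.ResidueField (OE E')) := res_finite
  have hρ' : Gn.ConjDual 2 N₁ (inT K T') (Parity.cyclo E') κ (mapRep ι ρ) (b.map ι) :=
    conjDual_ext hx hρ₀
  obtain ⟨L₀, C₀, hst, hdual, hbdd, hopn, hMC, hMth⟩ := hC E' ι m' l hl0 hl1 hlm hx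
  obtain ⟨t, ht1, ht2, ht3⟩ := exists_func E'
  let l' : OE E' := ⟨m', (hx.lt hl1).le⟩
  have hlat : Lat (b.map ι) l' t L₀ :=
    ⟨hx.ne hl0, hx.lt hl1, hx.max hl0 hl1 hlm, ht1, ht2, ht3, hρ'.symm, hdual, hbdd, hopn⟩
  have hfM : Finite (MN L₀ l' 1) := MN_finite hlat 1
  obtain ⟨C₁, g1, g2, g3, g4⟩ := SH.MatL.exists_C1 hlat hst hMC
  have hInv : QP.InvC κ (OE E') (actN l' 1 (fun g => mapRep ι ρ g) hst) (bN hlat 1) C₁ :=
    ⟨map_add C₁, map_smul C₁, g1, g2, g3⟩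
  have hF2 : (2 : IsLocalRing.ResidueField (OE E')) = 0 := by
    have h3 := (IsLocalRing.residue_eq_zero_iff (2 : OE E')).2 two_mem
    rwa [map_ofNat] at h3
  have hchar : CharP (IsLocalRing.ResidueField (OE E')) 2 :=
    (CharP.charP_iff_prime_eq_zero Nat.prime_two).2 (by exact_mod_cast hF2)
  let _ : Algebra (ZMod 2) (IsLocalRing.ResidueField (OE E')) := ZMod.algebra _ 2
  have hn : Even n := ⟨Module.finrank E W, by omega⟩
  -- the subspace
  obtain ⟨W', hW'⟩ : ∃ W', W' = extV hx W := ⟨_, rfl⟩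
  rw [← hW']
  have w1 : ∀ σ ∈ stabD (K := K) (P 2), ∀ x ∈ W', mapRep ι ρ σ *ᵥ x ∈ W' := by
    intro σ hσ
    rw [hW']
    exact extV_st hx (hW σ hσ)
  have w2 : 2 * Module.finrank E' W' = n := by
    rw [hW', finrank_extV hx hl0]
    exact hW2
  have w0 : ∀ x ∈ W', ∀ y ∈ W', bil (b.map ι) x (mapRep ι ρ g₀⁻¹ *ᵥ y) = 0 := by
    rw [hW']
    exact extV_iso hx hW0
  have hG := self_gr I.toArX (I.locD (some none)) (I.locD (some none)) hρ' hlat hst
    I.glob.glob.char.mul h0 hk w1 w2 w0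
  refine ⟨hG, fun L hL => ?_⟩
  -- the prime divisors of `D`
  have hDT : ∀ p ∈ TD, p ∉ T := fun p hp hpT => (hT p hpT).2.2 ((mTD p).1 hp).2.2
  have hunT : ∀ p ∈ T', p ∉ T → ∀ g : AbsGal K, iK K g ∈ inr (P p) → mapRep ι ρ g = 1 := by
    intro p hp hpT g hg
    have h3 := HP.inertia_inT hP hTT hp hpT (QW.emb_refl_inr.1 hg)
    rw [mapRep_apply, hρ.unram g h3]
    exact Matrix.map_one _ (map_zero _) (map_one _)
  -- the places of `T'`
  have hloc : ∀ p : T', LocX c κ P N₁ ivF hlat hst C₁ (some (some p))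
      (famX c κ T' P N₁ (mapRep ι ρ) (sL c κ P N₁ (mapRep ι ρ) L) (some (some p)))
      (if (p : ℕ) ∈ T ∧ GA.Inr D p then Parity.condExp ((P p).inertia (AbsGal K)) ρ else 0) := by
    intro p
    rcases kinds I D p with hp | hp | hp
    · -- a prime number that splits
      rw [if_neg fun h3 => h3.2.2.2.2 hp.2.2.2]
      exact locX_spl I hρ' hlat hst hInv (stb_leI hK hp (I.isPrime p) (I.natMem p)) _
    · -- a prime divisor of `D`
      rw [if_neg fun h3 => h3.2.2.2.1 hp]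
      obtain ⟨θ, hθ⟩ := theta_I I hK hp
      have hun := hunT p p.2 (hDT p ((mTD p).2 ⟨I.prime p, I.odd p, hp⟩))
      have hal := alt_theta I.two (chic I.two) hρ'.symm hρ'.dual (I.isPrime p) (I.two_not p) hun hθ
      exact locX_ram I hρ' hlat hst hInv hθ (g4 θ (hMth θ ⟨p, I.prime p, I.odd p, hp, P p,
        I.isPrime p, I.natMem p, hθ⟩ hal)) hun _
    · -- an inert prime number
      obtain ⟨g₁, hg₁⟩ := exists_swapI hK I.two hp (I.isPrime p) (I.natMem p)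
      have hIr := inr_le_range hK (I.prime p) (I.odd p) hp.2.2.1 (I.isPrime p) (I.natMem p)
      by_cases hpT : (p : ℕ) ∈ T
      · rw [if_pos ⟨hpT, hp⟩]
        have hcn : Parity.CommOn ((P p).inertia (AbsGal K)) (mapRep ι ρ) ∨ n = 2 := by
          rw [hPQ p hpT, commOn_ext ι]
          exact hI p hpT hp
        rw [← condExp_ext (ρ := ρ) hx hl0]
        exact locX_inr I hρ' hlat hst hn hIr hg₁ hcn _
      · rw [if_neg fun h3 => hpT h3.1]
        have h3 : ∀ σ ∈ (P p).inertia (AbsGal K), mapRep ι ρ σ = 1 := fun σ hσ =>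
          hunT p p.2 hpT σ (QW.emb_refl_inr.2 hσ)
        have hcn : Parity.CommOn ((P p).inertia (AbsGal K)) (mapRep ι ρ) := fun σ hσ τ hτ => by
          rw [h3 σ hσ, h3 τ hτ]
        have h4 : Parity.condExp ((P p).inertia (AbsGal K)) (mapRep ι ρ) = 0 := by
          unfold Parity.condExp
          rw [if_pos hcn]
          have h5 : Parity.fixedBy (fun σ : (P p).inertia (AbsGal K) => mapRep ι ρ σ) = ⊤ := by
            rw [eq_top_iff]
            intro v _ σ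
            show mapRep ι ρ σ *ᵥ v = v
            rw [h3 σ σ.2, one_mulVec]
          rw [h5, finrank_top, Module.finrank_fin_fun]
          omega
        rw [← h4]
        exact locX_inr I hρ' hlat hst hn hIr hg₁ (Or.inl hcn) _
  have hCn := cnd_of_lagV I.toArX hρ' hlat hst I.glob.glob.char (I.locD (some none))
    (lagV_sL I.toArX (I.locD (some none)) hρ' hlat hst I.glob.glob.char.mul h0 hk hL)
  obtain ⟨a, ha⟩ : ∃ a, a = Module.finrank E' (Parity.fixedModulo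
    (fun σ : stabD (K := K) (P 2) => mapRep ι ρ σ) W') - Module.finrank E' W' := ⟨_, rfl⟩
  have h3 := locX_two I hρ' hlat hst hInv h0 w1 w2 w0
  rw [← ha, ← sL_gr I.toArX hρ' h0 w1] at h3
  obtain ⟨r₀, hfL, h4⟩ := locX_sL I hρ' hlat hst h0 hk hL hG h3
  obtain ⟨d, hd⟩ : ∃ d, d = Parity.dimModulo L
    (L ⊓ Parity.greenbergAt (mapRep ι ρ) (stabD (K := K) (P 2)) W') := ⟨_, rfl⟩
  rw [← hd] at h4
  have hloc2 : ∀ r, Nat.card (MN L₀ l' 1) = Nat.card (IsLocalRing.ResidueField (OE E')) ^ (2 * r) →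
      LocX c κ P N₁ ivF hlat hst C₁ (some none)
        (famX c κ T' P N₁ (mapRep ι ρ) (sL c κ P N₁ (mapRep ι ρ) L) (some none))
        (a + d + 2 * r₀ + n / 2 + r) := by
    intro r hr
    have e1 : a + d + 2 * r₀ + n / 2 + r = a + d + 2 * r₀ + 2 * r := by
      have k1 := KR.card_MN hlat 1
      rw [hr, one_mul] at k1
      have k2 := Nat.pow_right_injective
        (Finite.one_lt_card : 1 < Nat.card (IsLocalRing.ResidueField (OE E'))) k1
      omega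
    rw [e1]
    exact locM_add_two h4 r
  have hP1 := hP_X I hCn hInv hloc2 hloc
  obtain ⟨f2, f3, f4⟩ := parity_X I hρ' hlat hst hCn hP1
  rw [selK_sL I.toArX hρ' L] at f2 f3 f4
  refine ⟨hfL, f2, f3, ?_⟩
  have k3 : ∑ p : T', (if (p : ℕ) ∈ T ∧ GA.Inr D p then
      Parity.condExp ((P p).inertia (AbsGal K)) ρ else 0) =
      ∑ l ∈ T.filter (GA.Inr D), Parity.condExp ((Q l).inertia (AbsGal K)) ρ := by
    rw [Finset.sum_coe_sort T' (fun p : ℕ => if p ∈ T ∧ GA.Inr D p then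
      Parity.condExp ((P p).inertia (AbsGal K)) ρ else 0), ← Finset.sum_filter]
    have k4 : T'.filter (fun p => p ∈ T ∧ GA.Inr D p) = T.filter (GA.Inr D) := by
      ext p
      rw [Finset.mem_filter, Finset.mem_filter]
      exact ⟨fun hp => hp.2, fun hp => ⟨hTT hp.1, hp⟩⟩
    rw [k4]
    refine Finset.sum_congr rfl fun p hp => ?_
    rw [hPQ p (Finset.mem_filter.1 hp).1]
  rw [k3] at f4
  rw [← ha, ← hd]
  unfold Nat.ModEq
  obtain ⟨a₂, ha₂⟩ := f4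
  omega

end Pool.Agent.Work.MP_787500_nt.QX
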